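import Pool.Agent.Work.MP_4ab57e_an.Cover

/-!
From ball covers of compact sets to finite families of dyadic cubes.
-/

set_option autoImplicit false

namespace Pool.Agent.Work.MP_4ab57e_an

open MeasureTheory Set
open scoped ENNReal NNReal

variable {n : ℕ}

/-- indices of the cubes of level `k` near `c` -/
noncomputable def nearIdx (k : ℤ) (c : Eu n) : Finset (Fin n → ℤ) :=
  Fintype.piFinset fun i => Finset.Icc (idx k c i - 1) (idx k c i + 1)

lemma card_nearIdx (k : ℤ) (c : Eu n) : (nearIdx k c).card = 3 ^ n := by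
  unfold nearIdx
  rw [Fintype.card_piFinset]
  have : ∀ i : Fin n, (Finset.Icc (idx k c i - 1) (idx k c i + 1)).card = 3 := by
    intro i
    rw [Int.card_Icc]
    have : idx k c i + 1 + 1 - (idx k c i - 1) = 3 := by ring
    rw [this]; rfl
  simp only [this, Finset.prod_const, Finset.card_univ, Fintype.card_fin]

lemma idx_mem_nearIdx {k : ℤ} {c x : Eu n} {r : ℝ} (hr : r ≤ 2 ^ k)
    (hx : x ∈ Metric.ball c r) : idx k x ∈ nearIdx k c := by
  unfold nearIdx
  rw [Fintype.mem_piFinset]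
  intro i
  rw [Finset.mem_Icc]
  have h1 : |x i - c i| < 2 ^ k := by
    have h2 : ‖(x - c) i‖ ≤ ‖x - c‖ := PiLp.norm_apply_le _ i
    rw [Metric.mem_ball, dist_eq_norm] at hx
    have h3 : ‖(x - c) i‖ = |x i - c i| := rfl
    rw [← h3]
    linarith
  have hk := two_zpow_pos k
  rw [abs_lt] at h1
  unfold idx
  have e1 : x i / 2 ^ k < c i / 2 ^ k + 1 := by
    rw [div_add_one hk.ne']
    gcongr
    linarith
  have e2 : c i / 2 ^ k - 1 < x i / 2 ^ k := by
    rw [div_sub_one hk.ne']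
    gcongr
    linarith
  have f1 := Int.floor_le (c i / 2 ^ k)
  have f2 := Int.lt_floor_add_one (c i / 2 ^ k)
  constructor
  · rw [Int.le_floor]
    push_cast
    linarith
  · rw [← Int.lt_add_one_iff, Int.floor_lt]
    push_cast
    linarith

lemma exists_level {r : ℝ} (hr : 0 < r) : ∃ k : ℤ, r ≤ 2 ^ k ∧ (2 : ℝ) ^ k ≤ 2 * r := by
  refine ⟨Int.clog 2 r, ?_, ?_⟩
  · have := Int.self_le_zpow_clog (b := 2) (by norm_num) r
    exact_mod_cast this
  · have h := Int.zpow_pred_clog_lt_self (b := 2) (by norm_num) hr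
    have h2 : (2 : ℝ) ^ (Int.clog 2 r) = 2 ^ (Int.clog 2 r - 1) * 2 := by
      rw [← zpow_add_one₀ (by norm_num)]
      congr 1; ring
    rw [h2]
    have h3 : (2 : ℝ) ^ (Int.clog 2 r - 1) < r := by exact_mod_cast h
    linarith

lemma sum_biUnion_le' {ι κ : Type*} [DecidableEq κ] (s : Finset ι) (t : ι → Finset κ)
    (f : κ → ℝ≥0∞) : ∑ x ∈ s.biUnion t, f x ≤ ∑ i ∈ s, ∑ x ∈ t i, f x := by
  classical
  induction s using Finset.induction_on with
  | empty => simp
  | insert a s ha ih =>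
    rw [Finset.biUnion_insert, Finset.sum_insert ha]
    calc ∑ x ∈ t a ∪ s.biUnion t, f x
        ≤ ∑ x ∈ t a ∪ s.biUnion t, f x + ∑ x ∈ t a ∩ s.biUnion t, f x := le_self_add
      _ = ∑ x ∈ t a, f x + ∑ x ∈ s.biUnion t, f x := Finset.sum_union_inter
      _ ≤ _ := by gcongr

/-- Finite dyadic covers of a neighbourhood of a compact set. -/
theorem exists_dyadic_cover {d : ℝ} (hd : 0 < d) {K : Set (Eu n)} (hK : IsCompact K)
    (c : ℕ → Eu n) (r : ℕ → ℝ) (hcov : K ⊆ ⋃ i, Metric.ball (c i) (r i)) :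
    ∃ (S : Finset (DC n)) (U : Set (Eu n)), IsOpen U ∧ K ⊆ U ∧ U ⊆ (⋃ Q ∈ S, cs Q) ∧
      ∑ Q ∈ S, sd Q.1 ^ d ≤ (3 ^ n * 2 ^ d) * ∑' i, ENNReal.ofReal (r i) ^ d := by
  classical
  obtain ⟨I, hI⟩ := hK.elim_finite_subcover (fun i => Metric.ball (c i) (r i))
    (fun _ => Metric.isOpen_ball) hcov
  have hlev : ∀ i : ℕ, ∃ k : ℤ, 0 < r i → (r i ≤ 2 ^ k ∧ (2 : ℝ) ^ k ≤ 2 * r i) := by
    intro i
    by_cases h : 0 < r i
    · obtain ⟨k, hk⟩ := exists_level h
      exact ⟨k, fun _ => hk⟩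
    · exact ⟨0, fun h' => absurd h' h⟩
  choose k hk using hlev
  set I' := I.filter (fun i => 0 < r i) with hI'
  let Si : ℕ → Finset (DC n) := fun i => (nearIdx (k i) (c i)).image (fun m => (k i, m))
  refine ⟨I'.biUnion Si, ⋃ i ∈ I, Metric.ball (c i) (r i), ?_, hI, ?_, ?_⟩
  · exact isOpen_biUnion fun _ _ => Metric.isOpen_ball
  · intro x hx
    simp only [mem_iUnion, exists_prop] at hx ⊢
    obtain ⟨i, hi, hxi⟩ := hx
    have hr : 0 < r i := Metric.pos_of_mem_ball hxi
    refine ⟨(k i, idx (k i) x), ?_, ?_⟩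
    · rw [Finset.mem_biUnion]
      refine ⟨i, Finset.mem_filter.mpr ⟨hi, hr⟩, ?_⟩
      exact Finset.mem_image.mpr ⟨_, idx_mem_nearIdx (hk i hr).1 hxi, rfl⟩
    · exact mem_cube_idx _ _
  · calc ∑ Q ∈ I'.biUnion Si, sd Q.1 ^ d ≤ ∑ i ∈ I', ∑ Q ∈ Si i, sd Q.1 ^ d :=
          sum_biUnion_le' _ _ _
      _ ≤ ∑ i ∈ I', (3 ^ n * 2 ^ d) * ENNReal.ofReal (r i) ^ d := by
          refine Finset.sum_le_sum fun i hi => ?_
          have hr : 0 < r i := (Finset.mem_filter.mp hi).2
          have h1 : ∑ Q ∈ Si i, sd Q.1 ^ d = (3 ^ n : ℝ≥0∞) * sd (k i) ^ d := by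
            rw [Finset.sum_congr rfl (g := fun _ => sd (k i) ^ d), Finset.sum_const,
              Finset.card_image_of_injective, card_nearIdx, nsmul_eq_mul]
            · push_cast; rfl
            · intro a b hab
              exact (Prod.ext_iff.mp hab).2
            · intro Q hQ
              obtain ⟨m, _, rfl⟩ := Finset.mem_image.mp hQ
              rfl
          rw [h1, mul_assoc]
          gcongr
          have h2 : sd (k i) ≤ 2 * ENNReal.ofReal (r i) := by
            unfold sd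
            have h3 : (2 : ℝ≥0∞) * ENNReal.ofReal (r i) = ENNReal.ofReal (2 * r i) := by
              rw [ENNReal.ofReal_mul (by norm_num)]; norm_num
            rw [h3]
            exact ENNReal.ofReal_le_ofReal (hk i hr).2
          calc sd (k i) ^ d ≤ (2 * ENNReal.ofReal (r i)) ^ d := by gcongr
            _ = 2 ^ d * ENNReal.ofReal (r i) ^ d := ENNReal.mul_rpow_of_nonneg _ _ hd.le
      _ = (3 ^ n * 2 ^ d) * ∑ i ∈ I', ENNReal.ofReal (r i) ^ d := by rw [Finset.mul_sum]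
      _ ≤ _ := by
          gcongr
          exact ENNReal.sum_le_tsum _

end Pool.Agent.Work.MP_4ab57e_an
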