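import Pool.Agent.Work.MP_4ab57e_an.Dyadic

/-!
Basic properties of the Hausdorff content.
-/

set_option autoImplicit false
set_option linter.style.haveILetI false

namespace Pool.Agent.Work.MP_4ab57e_an

open MeasureTheory Set
open scoped ENNReal NNReal

variable {n : ℕ}

lemma hContent_mono {d : ℝ} {A B : Set (Eu n)} (h : A ⊆ B) : hContent d A ≤ hContent d B := by
  unfold hContent
  refine le_iInf fun c => le_iInf fun r => le_iInf fun hB => ?_
  exact iInf_le_of_le c (iInf_le_of_le r (iInf_le_of_le (h.trans hB) le_rfl))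

lemma hContent_le_of_cover {d : ℝ} {A : Set (Eu n)} (c : ℕ → Eu n) (r : ℕ → ℝ)
    (h : A ⊆ ⋃ i, Metric.ball (c i) (r i)) : hContent d A ≤ ∑' i, ENNReal.ofReal (r i) ^ d :=
  iInf_le_of_le c (iInf_le_of_le r (iInf_le_of_le h le_rfl))

lemma exists_cover_lt {d : ℝ} {A : Set (Eu n)} {b : ℝ≥0∞} (h : hContent d A < b) :
    ∃ (c : ℕ → Eu n) (r : ℕ → ℝ), A ⊆ ⋃ i, Metric.ball (c i) (r i) ∧
      ∑' i, ENNReal.ofReal (r i) ^ d < b := by
  unfold hContent at h
  simp only [iInf_lt_iff] at h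
  obtain ⟨c, r, h1, h2⟩ := h
  exact ⟨c, r, h1, h2⟩

lemma hContent_iUnion_nat_le {d : ℝ} (A : ℕ → Set (Eu n)) :
    hContent d (⋃ i, A i) ≤ ∑' i, hContent d (A i) := by
  by_cases hfin : ∑' i, hContent d (A i) = ∞
  · rw [hfin]; exact le_top
  refine ENNReal.le_of_forall_pos_le_add fun ε hε _ => ?_
  obtain ⟨ε', hε', hsum⟩ := ENNReal.exists_pos_sum_of_countable
    (ENNReal.coe_ne_zero.mpr hε.ne') ℕ
  have hlt : ∀ i, hContent d (A i) < hContent d (A i) + ε' i := by
    intro i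
    have h1 : hContent d (A i) ≠ ∞ := ENNReal.ne_top_of_tsum_ne_top hfin i
    exact ENNReal.lt_add_right h1 (ENNReal.coe_ne_zero.mpr (hε' i).ne')
  choose c r hcov hsum' using fun i => exists_cover_lt (hlt i)
  let e := Nat.pairEquiv
  have hcover : (⋃ i, A i) ⊆ ⋃ j, Metric.ball (c (e.symm j).1 (e.symm j).2)
      (r (e.symm j).1 (e.symm j).2) := by
    intro x hx
    obtain ⟨i, hi⟩ := mem_iUnion.mp hx
    obtain ⟨j, hj⟩ := mem_iUnion.mp (hcov i hi)
    refine mem_iUnion.mpr ⟨e (i, j), ?_⟩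
    rw [Equiv.symm_apply_apply]
    exact hj
  refine (hContent_le_of_cover _ _ hcover).trans ?_
  calc ∑' j, ENNReal.ofReal (r (e.symm j).1 (e.symm j).2) ^ d
      = ∑' q : ℕ × ℕ, ENNReal.ofReal (r q.1 q.2) ^ d :=
        e.symm.tsum_eq (fun q : ℕ × ℕ => ENNReal.ofReal (r q.1 q.2) ^ d)
    _ = ∑' i, ∑' j, ENNReal.ofReal (r i j) ^ d :=
        ENNReal.tsum_prod (f := fun i j => ENNReal.ofReal (r i j) ^ d)
    _ ≤ ∑' i, (hContent d (A i) + ε' i) := ENNReal.tsum_le_tsum fun i => (hsum' i).le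
    _ = ∑' i, hContent d (A i) + ∑' i, (ε' i : ℝ≥0∞) := ENNReal.tsum_add
    _ ≤ ∑' i, hContent d (A i) + ε := by gcongr

lemma hContent_ball_le {d : ℝ} (hd : 0 < d) (x : Eu n) (r : ℝ) :
    hContent d (Metric.ball x r) ≤ ENNReal.ofReal r ^ d := by
  refine (hContent_le_of_cover (d := d) (fun _ => x) (fun i => if i = 0 then r else 0) ?_).trans ?_
  · intro y hy
    exact mem_iUnion.mpr ⟨0, by simpa using hy⟩
  · rw [tsum_eq_single 0]
    · simp
    · intro i hi
      rw [if_neg hi, ENNReal.ofReal_zero, ENNReal.zero_rpow_of_pos hd]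

lemma hContent_empty {d : ℝ} (hd : 0 < d) : hContent d (∅ : Set (Eu n)) = 0 := by
  have h := (hContent_mono (d := d) (Set.empty_subset (Metric.ball (0 : Eu n) 0))).trans
    (hContent_ball_le hd 0 0)
  rw [ENNReal.ofReal_zero, ENNReal.zero_rpow_of_pos hd] at h
  exact le_antisymm h zero_le

lemma hContent_iUnion_le {d : ℝ} (hd : 0 < d) {ι : Type*} [Countable ι] (A : ι → Set (Eu n)) :
    hContent d (⋃ i, A i) ≤ ∑' i, hContent d (A i) := by
  classical
  have : Encodable ι := Encodable.ofCountable ι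
  let B : ℕ → Set (Eu n) := fun j => ⋃ i ∈ Encodable.decode₂ ι j, A i
  have h1 : (⋃ i, A i) = ⋃ j, B j := (Encodable.iUnion_decode₂ A).symm
  rw [h1]
  refine (hContent_iUnion_nat_le B).trans ?_
  have h2 : ∑' j, hContent d (B j) = ∑' i, hContent d (A i) :=
    tsum_iUnion_decode₂ (fun s => hContent d s) (hContent_empty hd) A
  exact h2.le

lemma hContent_cube_le {d : ℝ} (hd : 0 < d) (k : ℤ) (m : Fin n → ℤ) :
    hContent d (cube k m) ≤ ENNReal.ofReal ((n + 1) * 2 ^ k) ^ d :=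
  (hContent_mono (cube_subset_ball (corner_mem k m))).trans (hContent_ball_le hd _ _)

end Pool.Agent.Work.MP_4ab57e_an
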