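import Pool.Agent.Work.MP_4ab57e_an.Tree

/-!
Packing families of dyadic cubes, the small cubes `R_Q`, and the amplitudes.
-/

set_option autoImplicit false

namespace Pool.Agent.Work.MP_4ab57e_an

open MeasureTheory Set
open scoped ENNReal NNReal

variable {n : ℕ}

/-- a dyadic cube, as a pair (level, index) -/
abbrev DC (n : ℕ) : Type := ℤ × (Fin n → ℤ)

/-- the set of points of a dyadic cube -/
def cs (Q : DC n) : Set (Eu n) := cube Q.1 Q.2

lemma level_le_of_subset (hn : 1 ≤ n) {k k' : ℤ} {m m' : Fin n → ℤ}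
    (h : cube k m ⊆ cube k' m') : k ≤ k' := by
  have h1 := measure_mono (μ := (volume : Measure (Eu n))) h
  rw [volume_cube, volume_cube] at h1
  by_contra hlt
  push Not at hlt
  have h2 : (2 : ℝ) ^ k' < 2 ^ k := zpow_lt_zpow_right₀ (by norm_num) hlt
  have h3 : ENNReal.ofReal (2 ^ k') < ENNReal.ofReal (2 ^ k) :=
    (ENNReal.ofReal_lt_ofReal_iff (two_zpow_pos k)).mpr h2
  exact absurd h1 (not_le.mpr (ENNReal.pow_lt_pow_left (by omega) h3))

lemma sd_mono {k k' : ℤ} (h : k ≤ k') : sd k ≤ sd k' :=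
  ENNReal.ofReal_le_ofReal (zpow_le_zpow_right₀ (by norm_num) h)

lemma sd_strictMono {k k' : ℤ} (h : k < k') : sd k < sd k' :=
  (ENNReal.ofReal_lt_ofReal_iff (two_zpow_pos k')).mpr (zpow_lt_zpow_right₀ (by norm_num) h)

lemma sd_rpow_ne_zero (k : ℤ) (d : ℝ) : sd k ^ d ≠ 0 :=
  (ENNReal.rpow_pos (pos_iff_ne_zero.mpr (sd_ne_zero k)) (sd_ne_top k)).ne'

lemma sd_rpow_ne_top (k : ℤ) (d : ℝ) : sd k ^ d ≠ ∞ :=
  ENNReal.rpow_ne_top_of_ne_zero (sd_ne_zero k) (sd_ne_top k)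

lemma rpow_lt_rpow_of_neg' {a b : ℝ≥0∞} (h : a < b) {e : ℝ} (he : e < 0) : b ^ e < a ^ e := by
  obtain ⟨f, rfl⟩ : ∃ f, e = -f := ⟨-e, by ring⟩
  rw [ENNReal.rpow_neg, ENNReal.rpow_neg, ENNReal.inv_lt_inv]
  exact ENNReal.rpow_lt_rpow h (by linarith)

open Classical in
/-- An antichain family satisfying the packing condition. -/
theorem exists_packing (hn : 1 ≤ n) {d : ℝ} (hd : 0 < d) (S : Finset (DC n)) :
    ∃ T : Finset (DC n), (⋃ Q ∈ S, cs Q) ⊆ (⋃ Q ∈ T, cs Q) ∧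
      ∑ Q ∈ T, sd Q.1 ^ d ≤ ∑ Q ∈ S, sd Q.1 ^ d ∧
      (∀ Q ∈ T, ∀ Q' ∈ T, cs Q ⊆ cs Q' → Q = Q') ∧
      ∀ P : DC n, ∑ Q ∈ T with cs Q ⊆ cs P, sd Q.1 ^ d ≤ sd P.1 ^ d := by
  have hex : ∃ N : ℕ, ∃ T : Finset (DC n), T.card = N ∧ ((⋃ Q ∈ S, cs Q) ⊆ (⋃ Q ∈ T, cs Q) ∧
      ∑ Q ∈ T, sd Q.1 ^ d ≤ ∑ Q ∈ S, sd Q.1 ^ d) := ⟨_, S, rfl, le_rfl, le_rfl⟩
  obtain ⟨T, hTN, hT1, hT2⟩ := Nat.find_spec hex
  have hmin : ∀ T' : Finset (DC n), (⋃ Q ∈ S, cs Q) ⊆ (⋃ Q ∈ T', cs Q) →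
      ∑ Q ∈ T', sd Q.1 ^ d ≤ ∑ Q ∈ S, sd Q.1 ^ d → T.card ≤ T'.card := by
    intro T' h1 h2
    rw [hTN]
    exact Nat.find_min' hex ⟨T', rfl, h1, h2⟩
  refine ⟨T, hT1, hT2, ?_, ?_⟩
  · intro Q hQ Q' hQ' hsub
    by_contra hne
    have h1 := hmin (T.erase Q) ?_ ?_
    · rw [Finset.card_erase_of_mem hQ] at h1
      have : 0 < T.card := Finset.card_pos.mpr ⟨Q, hQ⟩
      omega
    · refine hT1.trans ?_
      intro x hx
      simp only [mem_iUnion, exists_prop] at hx ⊢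
      obtain ⟨Q'', hQ'', hx''⟩ := hx
      by_cases h2 : Q'' = Q
      · subst h2
        exact ⟨Q', Finset.mem_erase.mpr ⟨fun h => hne h.symm, hQ'⟩, hsub hx''⟩
      · exact ⟨Q'', Finset.mem_erase.mpr ⟨h2, hQ''⟩, hx''⟩
    · exact (Finset.sum_le_sum_of_subset (Finset.erase_subset _ _)).trans hT2
  · intro P
    by_contra hlt
    push Not at hlt
    set A := T.filter (fun Q => cs Q ⊆ cs P) with hA
    have hAcard : 2 ≤ A.card := by
      by_contra hc
      have hc' : A.card = 0 ∨ A.card = 1 := by omega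
      rcases hc' with hc' | hc'
      · rw [Finset.card_eq_zero] at hc'
        rw [hc', Finset.sum_empty] at hlt
        exact absurd hlt not_lt_zero
      · obtain ⟨Q, hQ⟩ := Finset.card_eq_one.mp hc'
        have hQA : Q ∈ A := by rw [hQ]; exact Finset.mem_singleton_self Q
        have hQP : cs Q ⊆ cs P := (Finset.mem_filter.mp hQA).2
        rw [hQ, Finset.sum_singleton] at hlt
        have := ENNReal.rpow_le_rpow (sd_mono (level_le_of_subset hn hQP)) hd.le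
        exact absurd hlt (not_lt.mpr this)
    have h1 := hmin (insert P (T \ A)) ?_ ?_
    · have h2 := Finset.card_insert_le P (T \ A)
      have h3 : (T \ A).card = T.card - A.card :=
        Finset.card_sdiff_of_subset (Finset.filter_subset _ _)
      have h4 : A.card ≤ T.card := Finset.card_le_card (Finset.filter_subset _ _)
      omega
    · refine hT1.trans ?_
      intro x hx
      simp only [mem_iUnion, exists_prop] at hx ⊢
      obtain ⟨Q, hQ, hxQ⟩ := hx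
      by_cases h2 : cs Q ⊆ cs P
      · exact ⟨P, Finset.mem_insert_self _ _, h2 hxQ⟩
      · refine ⟨Q, Finset.mem_insert_of_mem (Finset.mem_sdiff.mpr ⟨hQ, ?_⟩), hxQ⟩
        intro h3
        exact h2 (Finset.mem_filter.mp h3).2
    · calc ∑ Q ∈ insert P (T \ A), sd Q.1 ^ d ≤ sd P.1 ^ d + ∑ Q ∈ T \ A, sd Q.1 ^ d := by
            by_cases hP : P ∈ T \ A
            · rw [Finset.insert_eq_of_mem hP]; exact le_add_self
            · rw [Finset.sum_insert hP]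
        _ ≤ ∑ Q ∈ A, sd Q.1 ^ d + ∑ Q ∈ T \ A, sd Q.1 ^ d := by gcongr
        _ = ∑ Q ∈ T, sd Q.1 ^ d := by
            rw [add_comm]
            exact Finset.sum_sdiff (Finset.filter_subset _ _)
        _ ≤ _ := hT2

/-- the box of indices of the generation `m` subcubes of a cube with index `a` -/
noncomputable def subBox (m : ℕ) (a : Fin n → ℤ) : Finset (Fin n → ℤ) :=
  Fintype.piFinset fun i => Finset.Ico (2 ^ m * a i) (2 ^ m * a i + 2 ^ m)

lemma mem_subBox {m : ℕ} {a b : Fin n → ℤ} :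
    b ∈ subBox m a ↔ ∀ i, 2 ^ m * a i ≤ b i ∧ b i < 2 ^ m * a i + 2 ^ m := by
  unfold subBox
  rw [Fintype.mem_piFinset]
  simp only [Finset.mem_Ico]

lemma card_subBox (m : ℕ) (a : Fin n → ℤ) : (subBox m a).card = (2 ^ m) ^ n := by
  unfold subBox
  rw [Fintype.card_piFinset]
  simp only [Int.card_Ico, add_sub_cancel_left, Finset.prod_const, Finset.card_univ,
    Fintype.card_fin]
  congr 1

lemma subBox_subset {m : ℕ} {k : ℤ} {a b : Fin n → ℤ} (hb : b ∈ subBox m a) :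
    cube (k - m) b ⊆ cube k a := by
  intro x hx
  rw [mem_cube] at hx ⊢
  rw [mem_subBox] at hb
  intro i
  obtain ⟨h1, h2⟩ := hx i
  obtain ⟨h3, h4⟩ := hb i
  have h5 : (2 : ℝ) ^ k = 2 ^ m * 2 ^ (k - m) := by
    rw [← zpow_natCast, ← zpow_add₀ (by norm_num)]; congr 1; ring
  have h6 := two_zpow_pos (k - m)
  have h3' : (2 : ℝ) ^ m * a i ≤ b i := by exact_mod_cast h3
  have h4' : (b i : ℝ) + 1 ≤ 2 ^ m * a i + 2 ^ m := by exact_mod_cast h4
  rw [h5]
  constructor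
  · calc (a i : ℝ) * (2 ^ m * 2 ^ (k - m)) = (2 ^ m * a i) * 2 ^ (k - m) := by ring
      _ ≤ b i * 2 ^ (k - m) := by gcongr
      _ ≤ x i := h1
  · calc x i < ((b i : ℝ) + 1) * 2 ^ (k - m) := h2
      _ ≤ (2 ^ m * a i + 2 ^ m) * 2 ^ (k - m) := by gcongr
      _ = _ := by ring

lemma cube_disjoint {k : ℤ} {a b : Fin n → ℤ} (h : a ≠ b) : Disjoint (cube k a) (cube k b) := by
  rw [Set.disjoint_left]
  intro x hx hx'
  exact h ((show idx k x = a from hx).symm.trans hx')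

lemma sd_sub (k : ℤ) (m : ℕ) : sd k = 2 ^ m * sd (k - m) := by
  unfold sd
  have h5 : (2 : ℝ) ^ k = 2 ^ m * 2 ^ (k - m) := by
    rw [← zpow_natCast, ← zpow_add₀ (by norm_num)]; congr 1; ring
  rw [h5, ENNReal.ofReal_mul (by positivity)]
  congr 1
  rw [ENNReal.ofReal_pow (by norm_num)]
  norm_num

open Classical in
/-- The choice of the small cube `R_Q`. -/
theorem exists_small_cube (hn : 1 ≤ n) {d : ℝ} (hdn : d < n) (m : ℕ)
    {T : Finset (DC n)} (hanti : ∀ Q ∈ T, ∀ Q' ∈ T, cs Q ⊆ cs Q' → Q = Q')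
    (hpack : ∀ P : DC n, ∑ Q ∈ T with cs Q ⊆ cs P, sd Q.1 ^ d ≤ sd P.1 ^ d)
    {Q : DC n} (hQ : Q ∈ T) :
    ∃ b ∈ subBox m (par Q.2),
      (∀ Q' ∈ T, Disjoint (cs Q') (cube (Q.1 + 1 - m) b) ∨ cs Q' ⊆ cube (Q.1 + 1 - m) b) ∧
      (2 ^ m) ^ n * ∑ Q' ∈ T with cs Q' ⊆ cube (Q.1 + 1 - m) b, sd Q'.1 ^ d ≤
        sd (Q.1 + 1) ^ d := by
  set P : DC n := (Q.1 + 1, par Q.2) with hP
  have hQP : cs Q ⊆ cs P := cube_subset_par _ _
  -- no cube of `T` contains `P`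
  have hnoP : ∀ Q' ∈ T, ¬ cs P ⊆ cs Q' := by
    intro Q' hQ' hsub
    have h1 := hanti Q hQ Q' hQ' (hQP.trans hsub)
    have h2 : P.1 ≤ Q'.1 := level_le_of_subset hn hsub
    rw [← h1] at h2
    simp only [hP] at h2
    omega
  set ν : Measure (Eu n) := ∑ Q' ∈ T, (sd Q'.1 ^ (d - n)) • volume.restrict (cs Q') with hν
  have hνapp : ∀ A : Set (Eu n), MeasurableSet A →
      ν A = ∑ Q' ∈ T, sd Q'.1 ^ (d - n) * volume (A ∩ cs Q') := by
    intro A hA
    rw [hν, Measure.finsetSum_apply]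
    refine Finset.sum_congr rfl fun Q' _ => ?_
    rw [Measure.smul_apply, Measure.restrict_apply hA, smul_eq_mul]
  have hmeas : ∀ Q' : DC n, MeasurableSet (cs Q') := fun Q' => measurableSet_cube _ _
  have hvol : ∀ Q' : DC n, sd Q'.1 ^ (d - n) * volume (cs Q') = sd Q'.1 ^ d := by
    intro Q'
    show sd Q'.1 ^ (d - n) * volume (cube Q'.1 Q'.2) = _
    rw [volume_cube, ← sd, ← ENNReal.rpow_natCast, ← ENNReal.rpow_add _ _ (sd_ne_zero _)
      (sd_ne_top _)]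
    congr 1
    ring
  -- total mass on `P`
  have hνP : ν (cs P) ≤ sd P.1 ^ d := by
    refine le_trans ?_ (hpack P)
    rw [hνapp _ (hmeas P), Finset.sum_filter]
    refine Finset.sum_le_sum fun Q' hQ' => ?_
    split_ifs with h
    · rw [inter_eq_self_of_subset_right h, hvol]
    · have hdis : Disjoint (cs P) (cs Q') := by
        rcases le_total Q'.1 P.1 with hl | hl
        · rcases cube_subset_or_disjoint hl Q'.2 P.2 with h1 | h1
          · exact absurd h1 h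
          · exact h1.symm
        · rcases cube_subset_or_disjoint hl P.2 Q'.2 with h1 | h1
          · exact absurd h1 (hnoP Q' hQ')
          · exact h1
      rw [hdis.inter_eq, measure_empty, mul_zero]
  -- choose the minimal subcube
  have hne : (subBox m (par Q.2)).Nonempty := by
    rw [← Finset.card_pos, card_subBox]; positivity
  obtain ⟨b, hb, hbmin⟩ := Finset.exists_min_image (subBox m (par Q.2))
    (fun b => ν (cube (Q.1 + 1 - m) b)) hne
  have hcount : (2 ^ m) ^ n * ν (cube (Q.1 + 1 - m) b) ≤ sd (Q.1 + 1) ^ d := by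
    calc (2 ^ m) ^ n * ν (cube (Q.1 + 1 - m) b)
        = (subBox m (par Q.2)).card • ν (cube (Q.1 + 1 - m) b) := by
          rw [card_subBox, nsmul_eq_mul]; push_cast; rfl
      _ ≤ ∑ b' ∈ subBox m (par Q.2), ν (cube (Q.1 + 1 - m) b') :=
          Finset.card_nsmul_le_sum _ _ _ hbmin
      _ = ν (⋃ b' ∈ subBox m (par Q.2), cube (Q.1 + 1 - m) b') := by
          rw [measure_biUnion_finset]
          · intro b1 _ b2 _ h12
            exact cube_disjoint h12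
          · intro b1 _
            exact measurableSet_cube _ _
      _ ≤ ν (cs P) := by
          apply measure_mono
          refine iUnion₂_subset fun b' hb' => ?_
          exact subBox_subset hb'
      _ ≤ sd (Q.1 + 1) ^ d := hνP
  refine ⟨b, hb, ?_, ?_⟩
  · intro Q' hQ'
    rcases le_total Q'.1 (Q.1 + 1 - m) with hl | hl
    · rcases cube_subset_or_disjoint hl Q'.2 b with h1 | h1
      · exact Or.inr h1
      · exact Or.inl h1
    · rcases cube_subset_or_disjoint hl b Q'.2 with h1 | h1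
      · exfalso
        have hlow : sd Q'.1 ^ (d - n) * sd (Q.1 + 1) ^ n ≤ sd (Q.1 + 1) ^ d := by
          refine le_trans ?_ hcount
          rw [hνapp _ (measurableSet_cube _ _)]
          calc sd Q'.1 ^ (d - n) * sd (Q.1 + 1) ^ n
              = (2 ^ m) ^ n * (sd Q'.1 ^ (d - n) * volume (cube (Q.1 + 1 - m) b ∩ cs Q')) := by
                rw [inter_eq_self_of_subset_left (show cube (Q.1 + 1 - m) b ⊆ cs Q' from h1),
                  volume_cube, ← sd, sd_sub (Q.1 + 1) m, mul_pow]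
                ring
            _ ≤ _ := by
                gcongr
                exact Finset.single_le_sum
                  (f := fun Q'' : DC n => sd Q''.1 ^ (d - n) *
                    volume (cube (Q.1 + 1 - m) b ∩ cs Q''))
                  (fun _ _ => zero_le) hQ'
        have hlev : Q.1 + 1 ≤ Q'.1 := by
          by_contra hlt
          push Not at hlt
          have h2 : sd (Q.1 + 1) ^ (d - n) < sd Q'.1 ^ (d - n) :=
            rpow_lt_rpow_of_neg' (sd_strictMono hlt) (by linarith)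
          have h3 : sd (Q.1 + 1) ^ d = sd (Q.1 + 1) ^ (d - n) * sd (Q.1 + 1) ^ n := by
            rw [← ENNReal.rpow_natCast, ← ENNReal.rpow_add _ _ (sd_ne_zero _) (sd_ne_top _)]
            congr 1; ring
          rw [h3] at hlow
          have h4 : sd (Q.1 + 1) ^ n ≠ 0 := pow_ne_zero _ (sd_ne_zero _)
          have h5 : sd (Q.1 + 1) ^ n ≠ ∞ := ENNReal.pow_ne_top (sd_ne_top _)
          exact absurd ((ENNReal.mul_le_mul_iff_left h4 h5).mp hlow) (not_le.mpr h2)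
        rcases cube_subset_or_disjoint hlev (par Q.2) Q'.2 with h2 | h2
        · exact hnoP Q' hQ' h2
        · obtain ⟨x, hx⟩ := cube_nonempty (Q.1 + 1 - m) b
          exact (Set.disjoint_left.mp h2) (subBox_subset hb hx) (h1 hx)
      · exact Or.inl h1.symm
  · refine le_trans ?_ hcount
    gcongr
    rw [hνapp _ (measurableSet_cube _ _), Finset.sum_filter]
    refine Finset.sum_le_sum fun Q' hQ' => ?_
    split_ifs with h
    · rw [inter_eq_self_of_subset_right h, hvol]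
    · exact zero_le

lemma finset_sum_rpow_le {ι : Type*} (s : Finset ι) (f : ι → ℝ≥0∞) {p : ℝ} (hp : 0 < p)
    (hp1 : p ≤ 1) : (∑ i ∈ s, f i) ^ p ≤ ∑ i ∈ s, f i ^ p := by
  classical
  induction s using Finset.induction_on with
  | empty => simp [ENNReal.zero_rpow_of_pos hp]
  | insert a s ha ih =>
    rw [Finset.sum_insert ha, Finset.sum_insert ha]
    exact (ENNReal.rpow_add_le_add_rpow _ _ hp.le hp1).trans (by gcongr)

open Classical in
/-- The amplitudes. -/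
theorem exists_amplitudes {p d : ℝ} (hp : 0 < p) (hp1 : p ≤ 1) (hd : 0 < d) (m : ℕ)
    (T : Finset (DC n)) (R : DC n → Set (Eu n))
    (hlev : ∀ Q ∈ T, ∀ Q' ∈ T, cs Q' ⊆ R Q → Q'.1 < Q.1) (C : ℝ≥0)
    (hC : 2 * ((C : ℝ≥0∞) ^ p * 2 ^ d) ≤ (2 ^ m) ^ n)
    (hsum : ∀ Q ∈ T, (2 ^ m) ^ n * ∑ Q' ∈ T with cs Q' ⊆ R Q, sd Q'.1 ^ d ≤
        sd (Q.1 + 1) ^ d) :
    ∃ a : DC n → ℝ≥0, (∀ Q' ∈ T, a Q' = 1 + C * ∑ Q ∈ T with cs Q' ⊆ R Q, a Q) ∧
      ∑ Q ∈ T, (a Q : ℝ≥0∞) ^ p * sd Q.1 ^ d ≤ 2 * ∑ Q ∈ T, sd Q.1 ^ d := by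
  -- existence by iteration
  let F : ℕ → DC n → ℝ≥0 := fun t => Nat.rec (fun _ => 1)
    (fun _ f Q' => 1 + C * ∑ Q ∈ T with cs Q' ⊆ R Q, f Q) t
  have hF0 : ∀ Q, F 0 Q = 1 := fun Q => rfl
  have hFs : ∀ t Q', F (t + 1) Q' = 1 + C * ∑ Q ∈ T with cs Q' ⊆ R Q, F t Q := fun t Q' => rfl
  let N : DC n → ℕ := fun Q' => (T.filter (fun Q => Q'.1 < Q.1)).card
  have hstab : ∀ t : ℕ, ∀ Q' ∈ T, N Q' ≤ t → F (t + 1) Q' = F t Q' := by
    intro t
    induction t with
    | zero =>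
      intro Q' hQ' hN
      have h1 : T.filter (fun Q => Q'.1 < Q.1) = ∅ := Finset.card_eq_zero.mp (Nat.le_zero.mp hN)
      have h2 : T.filter (fun Q => cs Q' ⊆ R Q) = ∅ := by
        rw [Finset.filter_eq_empty_iff] at h1 ⊢
        intro Q hQ hsub
        exact h1 hQ (hlev Q hQ Q' hQ' hsub)
      rw [hFs, h2, hF0, Finset.sum_empty, mul_zero, add_zero]
    | succ t ih =>
      intro Q' hQ' hN
      rw [hFs (t + 1), hFs t]
      congr 2
      refine Finset.sum_congr rfl fun Q hQ => ?_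
      obtain ⟨hQT, hQsub⟩ := Finset.mem_filter.mp hQ
      apply ih Q hQT
      have hl := hlev Q hQT Q' hQ' hQsub
      have : N Q < N Q' := by
        apply Finset.card_lt_card
        rw [Finset.ssubset_iff_of_subset]
        · refine ⟨Q, Finset.mem_filter.mpr ⟨hQT, hl⟩, ?_⟩
          intro h
          exact lt_irrefl _ (Finset.mem_filter.mp h).2
        · intro Q'' hQ''
          obtain ⟨h1, h2⟩ := Finset.mem_filter.mp hQ''
          exact Finset.mem_filter.mpr ⟨h1, hl.trans h2⟩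
      omega
  have hNle : ∀ Q', N Q' ≤ T.card := fun Q' => Finset.card_le_card (Finset.filter_subset _ _)
  refine ⟨F T.card, fun Q' hQ' => ?_, ?_⟩
  · rw [← hFs]
    exact (hstab T.card Q' hQ' (hNle Q')).symm
  set a := F T.card with ha
  have hrec : ∀ Q' ∈ T, a Q' = 1 + C * ∑ Q ∈ T with cs Q' ⊆ R Q, a Q := by
    intro Q' hQ'
    rw [ha, ← hFs]
    exact (hstab T.card Q' hQ' (hNle Q')).symm
  clear_value a
  set X := ∑ Q ∈ T, (a Q : ℝ≥0∞) ^ p * sd Q.1 ^ d with hX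
  set Y := ∑ Q ∈ T, sd Q.1 ^ d with hY
  set Z := (C : ℝ≥0∞) ^ p * ∑ Q ∈ T, (a Q : ℝ≥0∞) ^ p * ∑ Q' ∈ T with cs Q' ⊆ R Q, sd Q'.1 ^ d
    with hZ
  have hXt : X ≠ ∞ := by
    rw [hX]
    refine ENNReal.sum_ne_top.mpr fun Q _ => ENNReal.mul_ne_top ?_ (sd_rpow_ne_top _ _)
    exact ENNReal.rpow_ne_top_of_nonneg hp.le ENNReal.coe_ne_top
  have h1 : X ≤ Y + Z := by
    have hpt : ∀ Q' ∈ T, (a Q' : ℝ≥0∞) ^ p ≤
        1 + (C : ℝ≥0∞) ^ p * ∑ Q ∈ T with cs Q' ⊆ R Q, (a Q : ℝ≥0∞) ^ p := by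
      intro Q' hQ'
      have h2 : (a Q' : ℝ≥0∞) = 1 + C * ∑ Q ∈ T with cs Q' ⊆ R Q, (a Q : ℝ≥0∞) := by
        rw [hrec Q' hQ']
        push_cast
        rfl
      rw [h2]
      refine (ENNReal.rpow_add_le_add_rpow _ _ hp.le hp1).trans ?_
      rw [ENNReal.one_rpow, ENNReal.mul_rpow_of_nonneg _ _ hp.le]
      gcongr
      exact finset_sum_rpow_le _ _ hp hp1
    calc X ≤ ∑ Q' ∈ T, (1 + (C : ℝ≥0∞) ^ p * ∑ Q ∈ T with cs Q' ⊆ R Q, (a Q : ℝ≥0∞) ^ p) *
          sd Q'.1 ^ d := by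
          rw [hX]
          exact Finset.sum_le_sum fun Q' hQ' => by gcongr; exact hpt Q' hQ'
      _ = Y + (C : ℝ≥0∞) ^ p * ∑ Q' ∈ T, (∑ Q ∈ T with cs Q' ⊆ R Q, (a Q : ℝ≥0∞) ^ p) *
          sd Q'.1 ^ d := by
          rw [hY, Finset.mul_sum, ← Finset.sum_add_distrib]
          refine Finset.sum_congr rfl fun Q' _ => ?_
          ring
      _ = Y + Z := by
          rw [hZ]
          congr 2
          simp_rw [Finset.sum_mul, Finset.mul_sum, Finset.sum_filter]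
          rw [Finset.sum_comm]
  have h2 : 2 * Z ≤ X := by
    have h3 : (2 ^ m : ℝ≥0∞) ^ n ≠ 0 := by positivity
    have h4 : (2 ^ m : ℝ≥0∞) ^ n ≠ ∞ := ENNReal.pow_ne_top (ENNReal.pow_ne_top (by norm_num))
    have h5 : (2 ^ m : ℝ≥0∞) ^ n * (2 * Z) ≤ (2 ^ m : ℝ≥0∞) ^ n * X := by
      calc (2 ^ m : ℝ≥0∞) ^ n * (2 * Z)
          = 2 * (C : ℝ≥0∞) ^ p * ∑ Q ∈ T, (a Q : ℝ≥0∞) ^ p *
            ((2 ^ m) ^ n * ∑ Q' ∈ T with cs Q' ⊆ R Q, sd Q'.1 ^ d) := by
            rw [hZ]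
            simp_rw [Finset.mul_sum]
            refine Finset.sum_congr rfl fun Q _ => Finset.sum_congr rfl fun Q' _ => ?_
            ring
        _ ≤ 2 * (C : ℝ≥0∞) ^ p * ∑ Q ∈ T, (a Q : ℝ≥0∞) ^ p * sd (Q.1 + 1) ^ d := by
            gcongr with Q hQ
            exact hsum Q hQ
        _ = (2 * ((C : ℝ≥0∞) ^ p * 2 ^ d)) * X := by
            rw [hX, Finset.mul_sum, Finset.mul_sum]
            refine Finset.sum_congr rfl fun Q _ => ?_
            have h6 : sd (Q.1 + 1) = 2 * sd Q.1 := by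
              have := sd_sub (Q.1 + 1) 1
              simpa using this
            rw [h6, ENNReal.mul_rpow_of_nonneg _ _ hd.le]
            ring
        _ ≤ _ := by gcongr
    exact (ENNReal.mul_le_mul_iff_right h3 h4).mp h5
  have h3 : X + X ≤ 2 * Y + X := by
    calc X + X ≤ (Y + Z) + (Y + Z) := by gcongr
      _ = 2 * Y + 2 * Z := by ring
      _ ≤ 2 * Y + X := by gcongr
  exact (ENNReal.add_le_add_iff_right hXt).mp h3

end Pool.Agent.Work.MP_4ab57e_an
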