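import Pool.Agent.Work.MP_4ab57e_an.Subord

/-!
Cutting off the heat kernel away from its centre.
-/

set_option autoImplicit false

namespace Pool.Agent.Work.MP_4ab57e_an

open MeasureTheory FourierTransform SchwartzMap Real Set Filter Topology
open scoped ENNReal NNReal ContDiff RealInnerProductSpace

variable {n : ℕ}

/-- a bump function centred at `0` as a Schwartz function -/
noncomputable def bumpS (b : ContDiffBump (0 : Eu n)) : 𝓢(Eu n, ℂ) :=
  HasCompactSupport.toSchwartzMap (f := fun z => ((b z : ℝ) : ℂ))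
    (b.hasCompactSupport.comp_left (g := fun t : ℝ => (t : ℂ)) (by simp))
    (Complex.ofRealCLM.contDiff.comp b.contDiff)

lemma bumpS_apply (b : ContDiffBump (0 : Eu n)) (z : Eu n) : bumpS b z = ((b z : ℝ) : ℂ) := rfl

/-- the localized heat kernel -/
noncomputable def hkA (b : ContDiffBump (0 : Eu n)) (ε : ℝ) (x : Eu n) : 𝓢(Eu n, ℂ) :=
  SchwartzMap.smulLeftCLM ℂ (SchwartzMap.compSubConstCLM ℂ x (bumpS b)) (dil (gauss n) ε x)

lemma hkA_apply (b : ContDiffBump (0 : Eu n)) (ε : ℝ) (x z : Eu n) :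
    hkA b ε x z = ((b (z - x) : ℝ) : ℂ) * dil (gauss n) ε x z := by
  unfold hkA
  rw [SchwartzMap.smulLeftCLM_apply_apply (SchwartzMap.hasTemperateGrowth _)]
  rfl

/-- the remaining part of the heat kernel -/
noncomputable def hkB (b : ContDiffBump (0 : Eu n)) (ε : ℝ) (x : Eu n) : 𝓢(Eu n, ℂ) :=
  dil (gauss n) ε x - hkA b ε x

lemma hkB_apply (b : ContDiffBump (0 : Eu n)) (ε : ℝ) (x z : Eu n) :
    hkB b ε x z = (1 - ((b (z - x) : ℝ) : ℂ)) * dil (gauss n) ε x z := by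
  have : hkB b ε x z = dil (gauss n) ε x z - hkA b ε x z := rfl
  rw [this, hkA_apply]
  ring

lemma hasCompactSupport_hkA (b : ContDiffBump (0 : Eu n)) (ε : ℝ) (x : Eu n) :
    HasCompactSupport (hkA b ε x) := by
  apply HasCompactSupport.intro (isCompact_closedBall x b.rOut)
  intro z hz
  rw [hkA_apply]
  have : b (z - x) = 0 := by
    apply b.zero_of_le_dist
    rw [dist_zero_right, ← dist_eq_norm]
    rw [Metric.mem_closedBall, not_le] at hz
    exact hz.le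
  rw [this]; simp

lemma iteratedFDeriv_hkB_eq_zero (b : ContDiffBump (0 : Eu n)) (ε : ℝ) (x z : Eu n) (l : ℕ)
    (hz : ‖x - z‖ < b.rIn) : iteratedFDeriv ℝ l (hkB b ε x) z = 0 := by
  have h : (hkB b ε x : Eu n → ℂ) =ᶠ[𝓝 z] fun _ => 0 := by
    have hmem : Metric.ball x b.rIn ∈ 𝓝 z := by
      apply Metric.isOpen_ball.mem_nhds
      rw [Metric.mem_ball, dist_comm, dist_eq_norm]; exact hz
    filter_upwards [hmem] with w hw
    rw [hkB_apply, b.one_of_mem_closedBall]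
    · simp
    · rw [mem_closedBall_zero_iff, ← dist_eq_norm]
      exact (Metric.mem_ball.mp hw).le
  have h2 := (Filter.EventuallyEq.iteratedFDeriv ℝ h l).eq_of_nhds
  rw [h2]
  simp

/-- The seminorms of the far part of the heat kernel are `O(ε)`, uniformly for `x` bounded. -/
lemma hkB_seminorm_le (b : ContDiffBump (0 : Eu n)) (R : ℝ) (hR : 0 ≤ R) (a l : ℕ) :
    ∃ C : ℝ, 0 ≤ C ∧ ∀ ε : ℝ, 0 < ε → ε ≤ 1 → ∀ x : Eu n, ‖x‖ ≤ R →
      SchwartzMap.seminorm ℂ a l (hkB b ε x) ≤ C * ε := by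
  set ρ := b.rIn with hρ
  have hρ0 : 0 < ρ := b.rIn_pos
  set P : ℝ := ∑ j ∈ Finset.range (l + 1), SchwartzMap.seminorm ℝ (a + n + l + 1) j (gauss n) with hP
  have hP0 : 0 ≤ P := Finset.sum_nonneg fun j _ => apply_nonneg _ _
  set Q : ℝ := 1 + ∑ i ∈ Finset.range (l + 1), (l.choose i : ℝ) *
    SchwartzMap.seminorm ℝ 0 i (bumpS b) with hQ
  have hQ0 : 0 ≤ Q := by
    rw [hQ]
    have : 0 ≤ ∑ i ∈ Finset.range (l + 1), (l.choose i : ℝ) *
      SchwartzMap.seminorm ℝ 0 i (bumpS b) :=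
      Finset.sum_nonneg fun i _ => mul_nonneg (by positivity) (apply_nonneg _ _)
    linarith
  refine ⟨(1 + R / ρ) ^ a * (ρ⁻¹ ^ (n + l + 1) * P) * Q, by positivity, ?_⟩
  intro ε hε hε1 x hx
  apply SchwartzMap.seminorm_le_bound ℂ a l (hkB b ε x) (by positivity)
  intro z
  by_cases hz : ‖x - z‖ < ρ
  · rw [iteratedFDeriv_hkB_eq_zero b ε x z l hz, norm_zero, mul_zero]
    positivity
  push Not at hz
  -- bound on derivatives of the heat kernel
  have hW : ∀ j ≤ l, ‖z‖ ^ a * ‖iteratedFDeriv ℝ j (dil (gauss n) ε x) z‖ ≤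
      (1 + R / ρ) ^ a * (ρ⁻¹ ^ (n + l + 1) * P) * ε := by
    intro j hj
    have h1 := dil_decay (gauss n) hε x z (a + n + l + 1) j
    have h2 : SchwartzMap.seminorm ℝ (a + n + l + 1) j (gauss n) ≤ P :=
      Finset.single_le_sum (f := fun j => SchwartzMap.seminorm ℝ (a + n + l + 1) j (gauss n))
        (fun j _ => apply_nonneg _ _) (Finset.mem_range.mpr (by omega))
    have h3 : (ε ^ n)⁻¹ * (ε⁻¹ ^ j * (ε ^ (a + n + l + 1) *
        SchwartzMap.seminorm ℝ (a + n + l + 1) j (gauss n))) ≤ ε * P := by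
      have e1 : (ε ^ n)⁻¹ * (ε⁻¹ ^ j * ε ^ (a + n + l + 1)) ≤ ε := by
        have e2 : ε ^ (a + n + l + 1) = ε ^ n * (ε ^ j * ε ^ (a + (l - j) + 1)) := by
          rw [← pow_add, ← pow_add]; congr 1; omega
        rw [e2, inv_pow]
        have e3 : (ε ^ n)⁻¹ * ((ε ^ j)⁻¹ * (ε ^ n * (ε ^ j * ε ^ (a + (l - j) + 1)))) =
            ε ^ (a + (l - j) + 1) := by
          field_simp
        rw [e3, pow_succ]
        exact mul_le_of_le_one_left hε.le (pow_le_one₀ hε.le hε1)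
      calc _ = ((ε ^ n)⁻¹ * (ε⁻¹ ^ j * ε ^ (a + n + l + 1))) *
            SchwartzMap.seminorm ℝ (a + n + l + 1) j (gauss n) := by ring
        _ ≤ ε * P := by
            apply mul_le_mul e1 h2 (apply_nonneg _ _) hε.le
    have h4 : ‖x - z‖ ^ (a + n + l + 1) * ‖iteratedFDeriv ℝ j (dil (gauss n) ε x) z‖ ≤ ε * P :=
      h1.trans h3
    have h5 : ‖z‖ ≤ (1 + R / ρ) * ‖x - z‖ := by
      have e1 : ‖z‖ ≤ ‖x - z‖ + ‖x‖ := by
        calc ‖z‖ = ‖x - (x - z)‖ := by rw [sub_sub_cancel]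
          _ ≤ ‖x‖ + ‖x - z‖ := norm_sub_le _ _
          _ = _ := add_comm _ _
      have e2 : ‖x‖ ≤ R / ρ * ‖x - z‖ := by
        calc ‖x‖ ≤ R := hx
          _ = R / ρ * ρ := by field_simp
          _ ≤ R / ρ * ‖x - z‖ := by gcongr
      linarith
    have hxz : 0 < ‖x - z‖ := lt_of_lt_of_le hρ0 hz
    have h6 : 1 ≤ ρ⁻¹ ^ (n + l + 1) * ‖x - z‖ ^ (n + l + 1) := by
      rw [← mul_pow]
      apply one_le_pow₀
      rw [inv_mul_eq_div, one_le_div hρ0]
      exact hz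
    calc ‖z‖ ^ a * ‖iteratedFDeriv ℝ j (dil (gauss n) ε x) z‖
        ≤ ((1 + R / ρ) * ‖x - z‖) ^ a * ‖iteratedFDeriv ℝ j (dil (gauss n) ε x) z‖ := by gcongr
      _ ≤ ((1 + R / ρ) * ‖x - z‖) ^ a * ‖iteratedFDeriv ℝ j (dil (gauss n) ε x) z‖ *
          (ρ⁻¹ ^ (n + l + 1) * ‖x - z‖ ^ (n + l + 1)) := by
          exact le_mul_of_one_le_right (by positivity) h6
      _ = (1 + R / ρ) ^ a * ρ⁻¹ ^ (n + l + 1) *
          (‖x - z‖ ^ (a + n + l + 1) * ‖iteratedFDeriv ℝ j (dil (gauss n) ε x) z‖) := by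
          rw [mul_pow]; ring
      _ ≤ (1 + R / ρ) ^ a * ρ⁻¹ ^ (n + l + 1) * (ε * P) := by gcongr
      _ = _ := by ring
  -- product rule
  have hA : ‖iteratedFDeriv ℝ l (hkA b ε x) z‖ ≤ ∑ i ∈ Finset.range (l + 1), (l.choose i : ℝ) *
      ‖iteratedFDeriv ℝ i (SchwartzMap.compSubConstCLM ℂ x (bumpS b)) z‖ *
      ‖iteratedFDeriv ℝ (l - i) (dil (gauss n) ε x) z‖ := by
    have e1 : (hkA b ε x : Eu n → ℂ) = fun z => (SchwartzMap.compSubConstCLM ℂ x (bumpS b)) z *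
        dil (gauss n) ε x z := by
      funext w
      rw [hkA_apply]
      rfl
    rw [e1]
    exact norm_iteratedFDeriv_mul_le (N := ∞) ((SchwartzMap.compSubConstCLM ℂ x (bumpS b)).smooth ⊤)
      ((dil (gauss n) ε x).smooth ⊤) z (by exact_mod_cast le_top)
  have hbx : ∀ i, ‖iteratedFDeriv ℝ i (SchwartzMap.compSubConstCLM ℂ x (bumpS b)) z‖ ≤
      SchwartzMap.seminorm ℝ 0 i (bumpS b) := by
    intro i
    have e1 : (SchwartzMap.compSubConstCLM ℂ x (bumpS b) : Eu n → ℂ) =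
        fun z => bumpS b (z - x) := by
      funext w; rfl
    rw [e1, iteratedFDeriv_comp_sub]
    have := SchwartzMap.le_seminorm ℝ 0 i (bumpS b) (z - x)
    simpa using this
  have hB : ‖iteratedFDeriv ℝ l (hkB b ε x) z‖ ≤
      ‖iteratedFDeriv ℝ l (dil (gauss n) ε x) z‖ + ‖iteratedFDeriv ℝ l (hkA b ε x) z‖ := by
    have e1 : (hkB b ε x : Eu n → ℂ) = (dil (gauss n) ε x : Eu n → ℂ) - (hkA b ε x : Eu n → ℂ) := rfl
    rw [e1, iteratedFDeriv_sub_apply]
    · exact norm_sub_le _ _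
    · exact ((dil (gauss n) ε x).smooth l).contDiffAt
    · exact ((hkA b ε x).smooth l).contDiffAt
  set T : ℝ := (1 + R / ρ) ^ a * (ρ⁻¹ ^ (n + l + 1) * P) * ε with hT
  calc ‖z‖ ^ a * ‖iteratedFDeriv ℝ l (hkB b ε x) z‖
      ≤ ‖z‖ ^ a * (‖iteratedFDeriv ℝ l (dil (gauss n) ε x) z‖ +
        ∑ i ∈ Finset.range (l + 1), (l.choose i : ℝ) *
        ‖iteratedFDeriv ℝ i (SchwartzMap.compSubConstCLM ℂ x (bumpS b)) z‖ *
        ‖iteratedFDeriv ℝ (l - i) (dil (gauss n) ε x) z‖) := by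
        gcongr
        exact hB.trans (by gcongr)
    _ = ‖z‖ ^ a * ‖iteratedFDeriv ℝ l (dil (gauss n) ε x) z‖ +
        ∑ i ∈ Finset.range (l + 1), (l.choose i : ℝ) *
        ‖iteratedFDeriv ℝ i (SchwartzMap.compSubConstCLM ℂ x (bumpS b)) z‖ *
        (‖z‖ ^ a * ‖iteratedFDeriv ℝ (l - i) (dil (gauss n) ε x) z‖) := by
        rw [mul_add, Finset.mul_sum]
        congr 1
        apply Finset.sum_congr rfl
        intro i _
        ring
    _ ≤ T + ∑ i ∈ Finset.range (l + 1), (l.choose i : ℝ) *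
        SchwartzMap.seminorm ℝ 0 i (bumpS b) * T := by
        gcongr with i hi
        · exact hW l le_rfl
        · exact hbx i
        · exact hW (l - i) (by omega)
    _ = T * Q := by
        rw [← Finset.sum_mul, hQ]; ring
    _ = _ := by rw [hT]; ring

/-- A continuous functional is small on the far part of the heat kernel. -/
lemma functional_hkB_le (b : ContDiffBump (0 : Eu n)) (R : ℝ) (hR : 0 ≤ R)
    (q : Seminorm ℂ 𝓢(Eu n, ℂ)) (hq : Continuous q) :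
    ∃ C : ℝ, 0 ≤ C ∧ ∀ ε : ℝ, 0 < ε → ε ≤ 1 → ∀ x : Eu n, ‖x‖ ≤ R → q (hkB b ε x) ≤ C * ε := by
  obtain ⟨s, C, -, hC⟩ := Seminorm.bound_of_continuous (schwartz_withSeminorms ℂ (Eu n) ℂ) q hq
  choose D hD0 hD using fun i : ℕ × ℕ => hkB_seminorm_le b R hR i.1 i.2
  refine ⟨C * ∑ i ∈ s, D i, by
    have := Finset.sum_nonneg fun i (_ : i ∈ s) => hD0 i
    positivity, ?_⟩
  intro ε hε hε1 x hx
  have h1 : q (hkB b ε x) ≤ (C • s.sup (schwartzSeminormFamily ℂ (Eu n) ℂ)) (hkB b ε x) := hC _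
  have h2 : (C • s.sup (schwartzSeminormFamily ℂ (Eu n) ℂ)) (hkB b ε x) =
      C * (s.sup (schwartzSeminormFamily ℂ (Eu n) ℂ)) (hkB b ε x) := rfl
  have h3 : ∀ s' : Finset (ℕ × ℕ), (s'.sup (schwartzSeminormFamily ℂ (Eu n) ℂ)) (hkB b ε x) ≤
      ∑ i ∈ s', schwartzSeminormFamily ℂ (Eu n) ℂ i (hkB b ε x) := by
    intro s'
    induction s' using Finset.induction_on with
    | empty => simp
    | insert i s' hi ih =>
      rw [Finset.sup_insert, Finset.sum_insert hi, Seminorm.sup_apply]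
      have e1 : 0 ≤ schwartzSeminormFamily ℂ (Eu n) ℂ i (hkB b ε x) := apply_nonneg _ _
      have e2 : 0 ≤ (s'.sup (schwartzSeminormFamily ℂ (Eu n) ℂ)) (hkB b ε x) := apply_nonneg _ _
      exact max_le (by linarith) (by linarith)
  have h5 : ∑ i ∈ s, schwartzSeminormFamily ℂ (Eu n) ℂ i (hkB b ε x) ≤ ∑ i ∈ s, D i * ε :=
    Finset.sum_le_sum fun i _ => hD i ε hε hε1 x hx
  rw [h2] at h1
  calc q (hkB b ε x) ≤ C * (s.sup (schwartzSeminormFamily ℂ (Eu n) ℂ)) (hkB b ε x) := h1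
    _ ≤ C * ∑ i ∈ s, D i * ε := by
        gcongr
        exact (h3 s).trans h5
    _ = _ := by rw [← Finset.sum_mul]; ring

end Pool.Agent.Work.MP_4ab57e_an
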