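import Pool.Agent.Work.MP_4ab57e_an.Content

/-!
The tree covering lemma and the combinatorial part of the lower bound.
-/

set_option autoImplicit false

namespace Pool.Agent.Work.MP_4ab57e_an

open MeasureTheory Set
open scoped ENNReal NNReal

variable {n : ℕ}

/-- side length of cubes of level `k`, as extended nonnegative real -/
noncomputable def sd (k : ℤ) : ℝ≥0∞ := ENNReal.ofReal (2 ^ k)

lemma sd_ne_zero (k : ℤ) : sd k ≠ 0 := by
  unfold sd
  simpa using two_zpow_pos k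

lemma sd_ne_top (k : ℤ) : sd k ≠ ∞ := ENNReal.ofReal_ne_top

lemma min_ineq {lam a S T : ℝ≥0∞} (h : a < lam) (hl : lam ≠ ∞) :
    min T ((lam - a)⁻¹ * S) ≤ lam⁻¹ * (S + a * T) := by
  set b := lam - a with hb
  have hb0 : b ≠ 0 := (tsub_pos_of_lt h).ne'
  have hbt : b ≠ ∞ := ne_top_of_le_ne_top hl tsub_le_self
  have hba : b + a = lam := tsub_add_cancel_of_le h.le
  have hl0 : lam ≠ 0 := (pos_of_gt h).ne'
  set Y := min T (b⁻¹ * S) with hY
  have h1 : Y ≤ T := min_le_left _ _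
  have h2 : Y ≤ b⁻¹ * S := min_le_right _ _
  have h3 : b * Y ≤ S := by
    calc b * Y ≤ b * (b⁻¹ * S) := by gcongr
      _ = S := by rw [← mul_assoc, ENNReal.mul_inv_cancel hb0 hbt, one_mul]
  calc Y = lam⁻¹ * (lam * Y) := by
        rw [← mul_assoc, ENNReal.inv_mul_cancel hl0 hl, one_mul]
    _ = lam⁻¹ * (b * Y + a * Y) := by rw [← hba, add_mul]
    _ ≤ lam⁻¹ * (S + a * T) := by gcongr

lemma measurable_idx (k : ℤ) : Measurable (idx k : Eu n → Fin n → ℤ) := by
  apply measurable_pi_lambda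
  intro i
  have hm : Measurable (fun x : Eu n => x i) :=
    (EuclideanSpace.proj (𝕜 := ℝ) i).continuous.measurable
  exact Int.measurable_floor.comp (hm.div_const _)

lemma measurable_comp_idx (k : ℤ) (W : (Fin n → ℤ) → ℝ≥0∞) :
    Measurable (fun x : Eu n => W (idx k x)) :=
  (measurable_of_countable W).comp (measurable_idx k)

lemma lintegral_cube_const (k : ℤ) (m : Fin n → ℤ) (W : (Fin n → ℤ) → ℝ≥0∞) :
    ∫⁻ x in cube k m, W (idx k x) = W m * sd k ^ n := by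
  have h : ∫⁻ x in cube k m, W (idx k x) = ∫⁻ _x in cube k m, W m := by
    apply setLIntegral_congr_fun (measurableSet_cube k m)
    intro x hx
    show W (idx k x) = W m
    rw [show idx k x = m from hx]
  rw [h, setLIntegral_const, volume_cube]
  rfl

/-- Tree covering lemma. -/
theorem tree_cover {c d : ℝ} (hd : 0 < d) (hcd : c + d = n)
    (W : ℤ → (Fin n → ℤ) → ℝ≥0∞) (k0 : ℤ) (j : ℕ) :
    ∀ (m : Fin n → ℤ) (lam : ℝ≥0∞), lam ≠ 0 → lam ≠ ∞ →
      hContent d {x : Eu n | x ∈ cube (k0 + j) m ∧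
        lam ≤ ∑ i ∈ Finset.range j, sd (k0 + i) ^ c * W (k0 + i) (idx (k0 + i) x)} ≤
      ENNReal.ofReal (n + 1) ^ d * (lam⁻¹ *
        ∫⁻ x in cube (k0 + j) m, ∑ i ∈ Finset.range j, W (k0 + i) (idx (k0 + i) x)) := by
  induction j with
  | zero =>
    intro m lam h0 h1
    have : {x : Eu n | x ∈ cube (k0 + (0 : ℕ)) m ∧
        lam ≤ ∑ i ∈ Finset.range 0, sd (k0 + i) ^ c * W (k0 + i) (idx (k0 + i) x)} = ∅ := by
      ext x
      simp only [Finset.range_zero, Finset.sum_empty, nonpos_iff_eq_zero, mem_ofPred_eq,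
        mem_empty_iff_false, iff_false, not_and]
      exact fun _ => h0
    rw [this, hContent_empty hd]
    exact zero_le
  | succ j ih =>
    intro m lam h0 h1
    -- the claim for subcubes
    have key : ∀ m' : Fin n → ℤ,
        hContent d {x : Eu n | x ∈ cube (k0 + j) m' ∧
          lam ≤ ∑ i ∈ Finset.range (j + 1), sd (k0 + i) ^ c * W (k0 + i) (idx (k0 + i) x)} ≤
        ENNReal.ofReal (n + 1) ^ d * (lam⁻¹ *
          ∫⁻ x in cube (k0 + j) m', ∑ i ∈ Finset.range (j + 1), W (k0 + i) (idx (k0 + i) x)) := by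
      intro m'
      set a : ℝ≥0∞ := sd (k0 + j) ^ c * W (k0 + j) m' with ha
      set S : ℝ≥0∞ := ∫⁻ x in cube (k0 + j) m',
        ∑ i ∈ Finset.range j, W (k0 + i) (idx (k0 + i) x) with hS
      have hmeas : Measurable (fun x : Eu n => ∑ i ∈ Finset.range j, W (k0 + i) (idx (k0 + i) x)) :=
        Finset.measurable_sum _ fun i _ => measurable_comp_idx _ _
      have hint : ∫⁻ x in cube (k0 + j) m', ∑ i ∈ Finset.range (j + 1),
          W (k0 + i) (idx (k0 + i) x) = S + a * sd (k0 + j) ^ d := by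
        simp only [Finset.sum_range_succ]
        rw [lintegral_add_left hmeas, lintegral_cube_const, ← hS, ha]
        congr 1
        rw [mul_comm (sd (k0 + j) ^ c), mul_assoc, ← ENNReal.rpow_add _ _ (sd_ne_zero _)
          (sd_ne_top _), hcd, ENNReal.rpow_natCast]
      have hcube : hContent d (cube (k0 + j) m') ≤
          ENNReal.ofReal (n + 1) ^ d * sd (k0 + j) ^ d := by
        refine (hContent_cube_le hd _ _).trans ?_
        rw [ENNReal.ofReal_mul (by positivity), ENNReal.mul_rpow_of_nonneg _ _ hd.le]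
        rfl
      rw [hint]
      by_cases hla : lam ≤ a
      · calc _ ≤ hContent d (cube (k0 + j) m') := hContent_mono fun x hx => hx.1
          _ ≤ ENNReal.ofReal (n + 1) ^ d * sd (k0 + j) ^ d := hcube
          _ ≤ _ := by
            gcongr
            calc sd (k0 + j) ^ d = lam⁻¹ * (lam * sd (k0 + j) ^ d) := by
                  rw [← mul_assoc, ENNReal.inv_mul_cancel h0 h1, one_mul]
              _ ≤ lam⁻¹ * (S + a * sd (k0 + j) ^ d) := by
                  gcongr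
                  calc lam * sd (k0 + j) ^ d ≤ a * sd (k0 + j) ^ d := by gcongr
                    _ ≤ _ := le_add_self
      · push Not at hla
        have hsub : {x : Eu n | x ∈ cube (k0 + j) m' ∧
            lam ≤ ∑ i ∈ Finset.range (j + 1), sd (k0 + i) ^ c * W (k0 + i) (idx (k0 + i) x)} ⊆
            {x : Eu n | x ∈ cube (k0 + j) m' ∧
            lam - a ≤ ∑ i ∈ Finset.range j, sd (k0 + i) ^ c * W (k0 + i) (idx (k0 + i) x)} := by
          rintro x ⟨hx1, hx2⟩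
          refine ⟨hx1, ?_⟩
          rw [Finset.sum_range_succ, show idx (k0 + j) x = m' from hx1] at hx2
          exact tsub_le_iff_right.mpr hx2
        have e1 := ih m' (lam - a) (tsub_pos_of_lt hla).ne'
          (ne_top_of_le_ne_top h1 tsub_le_self)
        have e2 := (hContent_mono (d := d) hsub).trans e1
        have e3 : hContent d {x : Eu n | x ∈ cube (k0 + j) m' ∧
            lam ≤ ∑ i ∈ Finset.range (j + 1), sd (k0 + i) ^ c * W (k0 + i) (idx (k0 + i) x)} ≤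
            ENNReal.ofReal (n + 1) ^ d * sd (k0 + j) ^ d :=
          (hContent_mono fun x hx => hx.1).trans hcube
        have e4 := le_min e3 e2
        rw [← mul_min] at e4
        refine e4.trans ?_
        gcongr
        exact min_ineq hla h1
    -- sum over subcubes
    have hcov : {x : Eu n | x ∈ cube (k0 + ((j + 1 : ℕ) : ℤ)) m ∧
        lam ≤ ∑ i ∈ Finset.range (j + 1), sd (k0 + i) ^ c * W (k0 + i) (idx (k0 + i) x)} ⊆
        ⋃ m' : {m' : Fin n → ℤ // par m' = m}, {x : Eu n | x ∈ cube (k0 + j) m'.1 ∧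
          lam ≤ ∑ i ∈ Finset.range (j + 1), sd (k0 + i) ^ c * W (k0 + i) (idx (k0 + i) x)} := by
      rintro x ⟨hx1, hx2⟩
      refine mem_iUnion.mpr ⟨⟨idx (k0 + j) x, ?_⟩, mem_cube_idx _ _, hx2⟩
      rw [← idx_succ]
      have : k0 + ((j + 1 : ℕ) : ℤ) = k0 + j + 1 := by push_cast; ring
      rw [this] at hx1
      exact hx1
    have hUnion : (⋃ m' : {m' : Fin n → ℤ // par m' = m}, cube (k0 + j) m'.1) ⊆
        (cube (k0 + ((j + 1 : ℕ) : ℤ)) m : Set (Eu n)) := by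
      refine iUnion_subset fun m' => ?_
      have h2 := cube_subset_par (k0 + j) m'.1
      rw [m'.2] at h2
      have : k0 + ((j + 1 : ℕ) : ℤ) = k0 + j + 1 := by push_cast; ring
      rw [this]
      exact h2
    calc _ ≤ hContent d (⋃ m' : {m' : Fin n → ℤ // par m' = m},
          {x : Eu n | x ∈ cube (k0 + j) m'.1 ∧
          lam ≤ ∑ i ∈ Finset.range (j + 1), sd (k0 + i) ^ c * W (k0 + i) (idx (k0 + i) x)}) :=
          hContent_mono hcov
      _ ≤ ∑' m' : {m' : Fin n → ℤ // par m' = m}, hContent d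
          {x : Eu n | x ∈ cube (k0 + j) m'.1 ∧
          lam ≤ ∑ i ∈ Finset.range (j + 1), sd (k0 + i) ^ c * W (k0 + i) (idx (k0 + i) x)} :=
          hContent_iUnion_le hd _
      _ ≤ ∑' m' : {m' : Fin n → ℤ // par m' = m}, ENNReal.ofReal (n + 1) ^ d * (lam⁻¹ *
          ∫⁻ x in cube (k0 + j) m'.1, ∑ i ∈ Finset.range (j + 1), W (k0 + i) (idx (k0 + i) x)) :=
          ENNReal.tsum_le_tsum fun m' => key m'.1
      _ = ENNReal.ofReal (n + 1) ^ d * (lam⁻¹ * ∑' m' : {m' : Fin n → ℤ // par m' = m},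
          ∫⁻ x in cube (k0 + j) m'.1, ∑ i ∈ Finset.range (j + 1), W (k0 + i) (idx (k0 + i) x)) := by
          rw [ENNReal.tsum_mul_left, ENNReal.tsum_mul_left]
      _ = ENNReal.ofReal (n + 1) ^ d * (lam⁻¹ *
          ∫⁻ x in ⋃ m' : {m' : Fin n → ℤ // par m' = m}, cube (k0 + j) m'.1,
            ∑ i ∈ Finset.range (j + 1), W (k0 + i) (idx (k0 + i) x)) := by
          rw [lintegral_iUnion (fun m' => measurableSet_cube _ _)]
          intro m1 m2 h12
          rw [Function.onFun, Set.disjoint_left]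
          intro x h1 h2
          apply h12
          apply Subtype.ext
          rw [← show idx (k0 + j) x = m1.1 from h1, ← show idx (k0 + j) x = m2.1 from h2]
      _ ≤ _ := by
          gcongr

/-- infimum of `M` over a cube -/
noncomputable def infCube (M : Eu n → ℝ≥0∞) (k : ℤ) (m : Fin n → ℤ) : ℝ≥0∞ :=
  ⨅ y ∈ cube k m, M y

lemma infCube_le {M : Eu n → ℝ≥0∞} {k : ℤ} {m : Fin n → ℤ} {y : Eu n} (hy : y ∈ cube k m) :
    infCube M k m ≤ M y := iInf₂_le y hy

lemma infCube_par_le {M : Eu n → ℝ≥0∞} {k : ℤ} {m : Fin n → ℤ} :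
    infCube M (k + 1) (par m) ≤ infCube M k m :=
  le_iInf₂ fun y hy => iInf₂_le y (cube_subset_par k m hy)

lemma infCube_rpow_mul_le {p : ℝ} (hp : 0 < p) (M : Eu n → ℝ≥0∞) (k : ℤ) (m : Fin n → ℤ) :
    infCube M k m ^ p * sd k ^ n ≤ ∫⁻ x, M x ^ p := by
  calc infCube M k m ^ p * sd k ^ n = ∫⁻ _x in cube k m, infCube M k m ^ p := by
        rw [setLIntegral_const, volume_cube]; rfl
    _ ≤ ∫⁻ x in cube k m, M x ^ p := by
        apply setLIntegral_mono' (measurableSet_cube k m)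
        intro x hx
        exact ENNReal.rpow_le_rpow (infCube_le hx) hp.le
    _ ≤ ∫⁻ x, M x ^ p := setLIntegral_le_lintegral _ _


lemma rpow_tsum_le {p : ℝ} (hp : 0 < p) (hp1 : p ≤ 1) (a : ℕ → ℝ≥0∞) :
    (∑' j, a j) ^ p ≤ ∑' j, a j ^ p := by
  have hfin : ∀ s : Finset ℕ, (∑ j ∈ s, a j) ^ p ≤ ∑ j ∈ s, a j ^ p := by
    intro s
    induction s using Finset.induction_on with
    | empty => simp [ENNReal.zero_rpow_of_pos hp]
    | insert i s hi ih =>
      rw [Finset.sum_insert hi, Finset.sum_insert hi]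
      exact (ENNReal.rpow_add_le_add_rpow _ _ hp.le hp1).trans (by gcongr)
  have h1 : Filter.Tendsto (fun N => (∑ j ∈ Finset.range N, a j) ^ p) Filter.atTop
      (nhds ((∑' j, a j) ^ p)) :=
    (ENNReal.continuous_rpow_const.tendsto _).comp (ENNReal.tendsto_nat_tsum a)
  refine le_of_tendsto' h1 fun N => (hfin _).trans (ENNReal.sum_le_tsum _)

/-- Summation by parts for a nonincreasing sequence tending to zero. -/
lemma abel_tsum {tau : ℝ≥0∞} (ht1 : tau ≠ 0) (htt : tau ≠ ∞) (a : ℕ → ℝ≥0∞)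
    (ha : ∀ j, a (j + 1) ≤ a j)
    (ha0 : Filter.Tendsto a Filter.atTop (nhds 0)) :
    ∑' j, tau ^ j * a j ≤ (1 - tau⁻¹)⁻¹ * ∑' j, tau ^ j * (a j - a (j + 1)) := by
  set w : ℕ → ℝ≥0∞ := fun j => a j - a (j + 1) with hw
  have hstep : ∀ j I, a j = ∑ i ∈ Finset.range I, w (j + i) + a (j + I) := by
    intro j I
    induction I with
    | zero => simp
    | succ I ih =>
      rw [Finset.sum_range_succ, add_assoc]
      have : w (j + I) + a (j + (I + 1)) = a (j + I) := tsub_add_cancel_of_le (ha (j + I))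
      rw [this]; exact ih
  have hle : ∀ j, a j ≤ ∑' i, w (j + i) := by
    intro j
    have h1 : Filter.Tendsto (fun I => ∑' i, w (j + i) + a (j + I)) Filter.atTop
        (nhds (∑' i, w (j + i) + 0)) := by
      apply tendsto_const_nhds.add
      have := (Filter.tendsto_add_atTop_iff_nat (f := a) (l := nhds 0) j).mpr ha0
      simpa [add_comm] using this
    rw [add_zero] at h1
    refine ge_of_tendsto' h1 fun I => ?_
    conv_lhs => rw [hstep j I]
    gcongr
    exact ENNReal.sum_le_tsum _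
  calc ∑' j, tau ^ j * a j ≤ ∑' j, tau ^ j * ∑' i, w (j + i) := by
        gcongr with j
        exact hle j
    _ = ∑' j, ∑' i, tau⁻¹ ^ i * (tau ^ (i + j) * w (i + j)) := by
        congr 1
        funext j
        rw [← ENNReal.tsum_mul_left]
        congr 1
        funext i
        rw [pow_add, add_comm j i, ← mul_assoc, ← mul_assoc, ← mul_pow,
          ENNReal.inv_mul_cancel ht1 htt, one_pow, one_mul]
    _ = ∑' i, ∑' j, tau⁻¹ ^ i * (tau ^ (i + j) * w (i + j)) := ENNReal.tsum_comm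
    _ = ∑' i, tau⁻¹ ^ i * ∑' j, (tau ^ (i + j) * w (i + j)) := by
        congr 1
        funext i
        rw [ENNReal.tsum_mul_left]
    _ ≤ ∑' i, tau⁻¹ ^ i * ∑' l, (tau ^ l * w l) := by
        exact ENNReal.tsum_le_tsum fun i => mul_le_mul' le_rfl
          (ENNReal.tsum_comp_le_tsum_of_injective (add_right_injective i)
            (fun l => tau ^ l * w l))
    _ = (1 - tau⁻¹)⁻¹ * ∑' j, tau ^ j * w j := by
        rw [ENNReal.tsum_mul_right, ENNReal.tsum_geometric]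

/-- The combinatorial lower bound. -/
theorem lower_comb {α p d : ℝ} (hp : 0 < p) (hp1 : p ≤ 1) (hα : 0 < α) (hd : 0 < d)
    (hdn : α * p + d = n) :
    ∃ C : ℝ≥0, ∀ (M : Eu n → ℝ≥0∞) (K : Set (Eu n)) (k0 : ℤ) (c1 : ℝ≥0∞), c1 ≠ 0 → c1 ≠ ∞ →
      (∀ x ∈ K, c1 ≤ ∑' j : ℕ, sd (k0 + j) ^ α * infCube M (k0 + j) (idx (k0 + j) x)) →
      hContent d K ≤ C * (c1 ^ p)⁻¹ * ∫⁻ x, M x ^ p := by
  set c := α * p with hc
  have hcpos : 0 < c := mul_pos hα hp
  -- the ratio
  set tau : ℝ≥0∞ := 2 ^ c with htau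
  have ht0 : tau ≠ 0 := by
    rw [htau]; exact (ENNReal.rpow_pos (by norm_num) (by norm_num)).ne'
  have htt : tau ≠ ∞ := ENNReal.rpow_ne_top_of_nonneg hcpos.le (by norm_num)
  have ht1 : tau⁻¹ < 1 := by
    rw [ENNReal.inv_lt_one, htau]
    exact ENNReal.one_lt_rpow (by norm_num) hcpos
  set Ct : ℝ≥0∞ := (1 - tau⁻¹)⁻¹ with hCt
  have hCt1 : Ct ≠ ∞ := by
    rw [hCt, ENNReal.inv_ne_top]
    exact (tsub_pos_of_lt ht1).ne'
  have hCt0 : Ct ≠ 0 := by
    rw [hCt, ENNReal.inv_ne_zero]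
    exact ne_top_of_le_ne_top (by norm_num) tsub_le_self
  set Cn : ℝ≥0∞ := ENNReal.ofReal (n + 1) ^ d with hCn
  have hCn1 : Cn ≠ ∞ := ENNReal.rpow_ne_top_of_nonneg hd.le ENNReal.ofReal_ne_top
  have hCn0 : Cn ≠ 0 := by
    rw [hCn]
    exact (ENNReal.rpow_pos (by simp; positivity) ENNReal.ofReal_ne_top).ne'
  refine ⟨(Cn * (2 * Ct)).toNNReal, ?_⟩
  intro M K k0 c1 hc10 hc1t hK
  rw [ENNReal.coe_toNNReal (ENNReal.mul_ne_top hCn1 (ENNReal.mul_ne_top (by norm_num) hCt1))]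
  set A : ℝ≥0∞ := ∫⁻ x, M x ^ p with hA
  have hc1p0 : c1 ^ p ≠ 0 := (ENNReal.rpow_pos (pos_iff_ne_zero.mpr hc10) hc1t).ne'
  have hc1pt : c1 ^ p ≠ ∞ := ENNReal.rpow_ne_top_of_nonneg hp.le hc1t
  by_cases hAt : A = ∞
  · rw [hAt, ENNReal.mul_top]
    · exact le_top
    · refine mul_ne_zero (mul_ne_zero hCn0 (mul_ne_zero (by norm_num) hCt0)) ?_
      exact ENNReal.inv_ne_zero.mpr hc1pt
  -- sequences
  let a : Eu n → ℕ → ℝ≥0∞ := fun x j => infCube M (k0 + j) (idx (k0 + j) x) ^ p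
  have hidx : ∀ (x : Eu n) (j : ℕ), idx (k0 + ((j + 1 : ℕ) : ℤ)) x = par (idx (k0 + j) x) := by
    intro x j
    have : k0 + ((j + 1 : ℕ) : ℤ) = k0 + j + 1 := by push_cast; ring
    rw [this, idx_succ]
  have ha : ∀ x j, a x (j + 1) ≤ a x j := by
    intro x j
    apply ENNReal.rpow_le_rpow _ hp.le
    rw [hidx]
    have : k0 + ((j + 1 : ℕ) : ℤ) = k0 + j + 1 := by push_cast; ring
    rw [this]
    exact infCube_par_le
  have haM : ∀ x, a x 0 ≤ M x ^ p := by
    intro x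
    apply ENNReal.rpow_le_rpow _ hp.le
    exact infCube_le (mem_cube_idx _ _)
  -- scaling of side lengths
  have hsd : ∀ j : ℕ, sd (k0 + j) = sd k0 * 2 ^ j := by
    intro j
    unfold sd
    rw [zpow_add₀ (by norm_num : (2 : ℝ) ≠ 0), ENNReal.ofReal_mul (two_zpow_pos k0).le,
      zpow_natCast, ENNReal.ofReal_pow (by norm_num)]
    norm_num
  have hsdc : ∀ j : ℕ, sd (k0 + j) ^ c = sd k0 ^ c * tau ^ j := by
    intro j
    rw [hsd, ENNReal.mul_rpow_of_nonneg _ _ hcpos.le, htau, ← ENNReal.rpow_natCast,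
      ← ENNReal.rpow_natCast, ← ENNReal.rpow_mul, ← ENNReal.rpow_mul, mul_comm c]
  -- pointwise size of the sequence
  have hsize : ∀ x (j : ℕ), sd (k0 + j) ^ c * a x j ≤ A * (sd k0 ^ d)⁻¹ * ((2 : ℝ≥0∞) ^ d)⁻¹ ^ j := by
    intro x j
    have h1 := infCube_rpow_mul_le hp M (k0 + j) (idx (k0 + j) x)
    have hsn : sd (k0 + j) ^ n = sd (k0 + j) ^ c * sd (k0 + j) ^ d := by
      rw [← ENNReal.rpow_add _ _ (sd_ne_zero _) (sd_ne_top _), hdn, ENNReal.rpow_natCast]
    have hsd0 : sd (k0 + j) ^ d ≠ 0 :=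
      (ENNReal.rpow_pos (pos_iff_ne_zero.mpr (sd_ne_zero _)) (sd_ne_top _)).ne'
    have hsdt : sd (k0 + j) ^ d ≠ ∞ := ENNReal.rpow_ne_top_of_nonneg hd.le (sd_ne_top _)
    have h2 : sd (k0 + j) ^ c * a x j * sd (k0 + j) ^ d ≤ A := by
      calc _ = infCube M (k0 + j) (idx (k0 + j) x) ^ p * sd (k0 + j) ^ n := by
            rw [hsn]; ring
        _ ≤ A := h1
    have h3 : sd (k0 + j) ^ c * a x j ≤ A * (sd (k0 + j) ^ d)⁻¹ := by
      rw [← div_eq_mul_inv]
      exact (ENNReal.le_div_iff_mul_le (Or.inl hsd0) (Or.inl hsdt)).mpr h2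
    refine h3.trans (le_of_eq ?_)
    rw [mul_assoc, hsd, ENNReal.mul_rpow_of_nonneg _ _ hd.le]
    congr 1
    rw [ENNReal.mul_inv, ← ENNReal.inv_pow]
    · congr 2
      rw [← ENNReal.rpow_natCast, ← ENNReal.rpow_natCast, ← ENNReal.rpow_mul, ← ENNReal.rpow_mul,
        mul_comm]
    · right
      exact ENNReal.rpow_ne_top_of_nonneg hd.le (by simp)
    · left
      exact ENNReal.rpow_ne_top_of_nonneg hd.le (sd_ne_top _)
  have hq1 : ((2 : ℝ≥0∞) ^ d)⁻¹ < 1 := by
    rw [ENNReal.inv_lt_one]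
    exact ENNReal.one_lt_rpow (by norm_num) hd
  set B : ℝ≥0∞ := A * (sd k0 ^ d)⁻¹ with hB
  have hBt : B ≠ ∞ := by
    refine ENNReal.mul_ne_top hAt ?_
    rw [ENNReal.inv_ne_top]
    exact (ENNReal.rpow_pos (pos_iff_ne_zero.mpr (sd_ne_zero _)) (sd_ne_top _)).ne'
  have hq0 : Filter.Tendsto (fun j : ℕ => B * ((2 : ℝ≥0∞) ^ d)⁻¹ ^ j) Filter.atTop (nhds 0) := by
    have := ENNReal.Tendsto.const_mul (ENNReal.tendsto_pow_atTop_nhds_zero_of_lt_one hq1)
      (a := B) (Or.inr hBt)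
    simpa using this
  -- `a x j → 0`
  have ha0 : ∀ x, Filter.Tendsto (a x) Filter.atTop (nhds 0) := by
    intro x
    have h1 : ∀ j, a x j ≤ (sd k0 ^ c)⁻¹ * (B * ((2 : ℝ≥0∞) ^ d)⁻¹ ^ j) := by
      intro j
      have h2 := hsize x j
      have h3 : sd k0 ^ c * a x j ≤ sd (k0 + j) ^ c * a x j := by
        rw [hsdc]
        gcongr
        exact le_mul_of_one_le_right zero_le (one_le_pow₀ (by
          rw [htau]; exact (ENNReal.one_lt_rpow (by norm_num) hcpos).le))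
      have hsc0 : sd k0 ^ c ≠ 0 :=
        (ENNReal.rpow_pos (pos_iff_ne_zero.mpr (sd_ne_zero _)) (sd_ne_top _)).ne'
      have hsct : sd k0 ^ c ≠ ∞ := ENNReal.rpow_ne_top_of_nonneg hcpos.le (sd_ne_top _)
      calc a x j = (sd k0 ^ c)⁻¹ * (sd k0 ^ c * a x j) := by
            rw [← mul_assoc, ENNReal.inv_mul_cancel hsc0 hsct, one_mul]
        _ ≤ _ := mul_le_mul' le_rfl (h3.trans h2)
    have h2 : Filter.Tendsto (fun j : ℕ => (sd k0 ^ c)⁻¹ * (B * ((2 : ℝ≥0∞) ^ d)⁻¹ ^ j))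
        Filter.atTop (nhds 0) := by
      have := ENNReal.Tendsto.const_mul hq0 (a := (sd k0 ^ c)⁻¹) (Or.inr (by
        rw [ENNReal.inv_ne_top]
        exact (ENNReal.rpow_pos (pos_iff_ne_zero.mpr (sd_ne_zero _)) (sd_ne_top _)).ne'))
      simpa using this
    exact tendsto_of_tendsto_of_tendsto_of_le_of_le tendsto_const_nhds h2 (fun _ => zero_le) h1
  -- lower bound for the difference sums
  have hS2 : ∀ x ∈ K, c1 ^ p * Ct⁻¹ ≤ ∑' j : ℕ, sd (k0 + j) ^ c * (a x j - a x (j + 1)) := by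
    intro x hx
    have h1 : c1 ^ p ≤ ∑' j : ℕ, sd (k0 + j) ^ c * a x j := by
      refine (ENNReal.rpow_le_rpow (hK x hx) hp.le).trans ?_
      refine (rpow_tsum_le hp hp1 _).trans (le_of_eq ?_)
      congr 1
      funext j
      rw [ENNReal.mul_rpow_of_nonneg _ _ hp.le, ← ENNReal.rpow_mul]
    have h2 : ∑' j : ℕ, sd (k0 + j) ^ c * a x j ≤
        Ct * ∑' j : ℕ, sd (k0 + j) ^ c * (a x j - a x (j + 1)) := by
      have h3 := abel_tsum ht0 htt (a x) (ha x) (ha0 x)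
      simp only [hsdc, mul_assoc]
      rw [ENNReal.tsum_mul_left, ENNReal.tsum_mul_left]
      calc sd k0 ^ c * ∑' j : ℕ, tau ^ j * a x j
          ≤ sd k0 ^ c * (Ct * ∑' j : ℕ, tau ^ j * (a x j - a x (j + 1))) := by gcongr
        _ = _ := by ring
    rw [← div_eq_mul_inv]
    exact ENNReal.div_le_of_le_mul' (h1.trans h2)
  -- choice of the cutoff
  set lam : ℝ≥0∞ := c1 ^ p * Ct⁻¹ / 2 with hlam
  have hlam0 : lam ≠ 0 := by
    rw [hlam]
    exact (ENNReal.div_pos (mul_ne_zero hc1p0 (ENNReal.inv_ne_zero.mpr hCt1)) (by norm_num)).ne'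
  have hlamt : lam ≠ ∞ := by
    rw [hlam]
    exact ENNReal.div_ne_top (ENNReal.mul_ne_top hc1pt (ENNReal.inv_ne_top.mpr hCt0)) (by norm_num)
  have hcut : ∃ J : ℕ, B * ((2 : ℝ≥0∞) ^ d)⁻¹ ^ J * (1 - ((2 : ℝ≥0∞) ^ d)⁻¹)⁻¹ ≤ lam := by
    have h1 : Filter.Tendsto (fun J : ℕ => B * ((2 : ℝ≥0∞) ^ d)⁻¹ ^ J *
        (1 - ((2 : ℝ≥0∞) ^ d)⁻¹)⁻¹) Filter.atTop (nhds 0) := by
      have := ENNReal.Tendsto.mul_const hq0 (b := (1 - ((2 : ℝ≥0∞) ^ d)⁻¹)⁻¹) (Or.inr (by
        rw [ENNReal.inv_ne_top]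
        exact (tsub_pos_of_lt hq1).ne'))
      simpa using this
    have h2 := (h1.eventually (ge_mem_nhds (pos_iff_ne_zero.mpr hlam0)))
    exact h2.exists
  obtain ⟨J, hJ⟩ := hcut
  let W : ℤ → (Fin n → ℤ) → ℝ≥0∞ := fun k m => infCube M k m ^ p - infCube M (k + 1) (par m) ^ p
  have hW : ∀ x (j : ℕ), W (k0 + j) (idx (k0 + j) x) = a x j - a x (j + 1) := by
    intro x j
    show infCube M (k0 + j) (idx (k0 + j) x) ^ p - infCube M (k0 + j + 1) (par (idx (k0 + j) x)) ^ p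
      = infCube M (k0 + j) (idx (k0 + j) x) ^ p -
        infCube M (k0 + ((j + 1 : ℕ) : ℤ)) (idx (k0 + ((j + 1 : ℕ) : ℤ)) x) ^ p
    rw [hidx]
    have : k0 + ((j + 1 : ℕ) : ℤ) = k0 + j + 1 := by push_cast; ring
    rw [this]
  have hlow : ∀ x ∈ K, lam ≤ ∑ i ∈ Finset.range J, sd (k0 + i) ^ c * W (k0 + i) (idx (k0 + i) x) := by
    intro x hx
    have h1 := hS2 x hx
    have h2 : ∑' j : ℕ, sd (k0 + j) ^ c * (a x j - a x (j + 1)) =
        ∑ i ∈ Finset.range J, sd (k0 + i) ^ c * (a x i - a x (i + 1)) +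
        ∑' j : ℕ, sd (k0 + ((j + J : ℕ) : ℤ)) ^ c * (a x (j + J) - a x (j + J + 1)) :=
      (ENNReal.summable.sum_add_tsum_nat_add' (f := fun j : ℕ =>
        sd (k0 + j) ^ c * (a x j - a x (j + 1)))).symm
    have h3 : ∑' j : ℕ, sd (k0 + ((j + J : ℕ) : ℤ)) ^ c * (a x (j + J) - a x (j + J + 1)) ≤ lam := by
      refine le_trans ?_ hJ
      calc _ ≤ ∑' j : ℕ, B * ((2 : ℝ≥0∞) ^ d)⁻¹ ^ J * ((2 : ℝ≥0∞) ^ d)⁻¹ ^ j := by
            refine ENNReal.tsum_le_tsum fun j => ?_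
            calc _ ≤ sd (k0 + ((j + J : ℕ) : ℤ)) ^ c * a x (j + J) := by
                  gcongr; exact tsub_le_self
              _ ≤ B * ((2 : ℝ≥0∞) ^ d)⁻¹ ^ (j + J) := hsize x (j + J)
              _ = _ := by rw [pow_add]; ring
        _ = _ := by rw [ENNReal.tsum_mul_left, ENNReal.tsum_geometric]
    have h4 : lam + lam ≤ ∑ i ∈ Finset.range J, sd (k0 + i) ^ c * (a x i - a x (i + 1)) + lam := by
      calc lam + lam = c1 ^ p * Ct⁻¹ := ENNReal.add_halves _
        _ ≤ _ := h1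
        _ ≤ _ := by rw [h2]; gcongr
    have h5 := (ENNReal.add_le_add_iff_right hlamt).mp h4
    refine h5.trans (le_of_eq ?_)
    apply Finset.sum_congr rfl
    intro i _
    rw [hW]
  -- telescoping
  have htel : ∀ x, ∑ i ∈ Finset.range J, W (k0 + i) (idx (k0 + i) x) ≤ M x ^ p := by
    intro x
    have h1 : ∀ I, ∑ i ∈ Finset.range I, (a x i - a x (i + 1)) + a x I = a x 0 := by
      intro I
      induction I with
      | zero => simp
      | succ I ih =>
        rw [Finset.sum_range_succ, add_assoc, tsub_add_cancel_of_le (ha x I)]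
        exact ih
    calc ∑ i ∈ Finset.range J, W (k0 + i) (idx (k0 + i) x)
        = ∑ i ∈ Finset.range J, (a x i - a x (i + 1)) := by
          apply Finset.sum_congr rfl
          intro i _
          rw [hW]
      _ ≤ ∑ i ∈ Finset.range J, (a x i - a x (i + 1)) + a x J := le_self_add
      _ = a x 0 := h1 J
      _ ≤ M x ^ p := haM x
  -- conclusion
  have hcov : K ⊆ ⋃ m : Fin n → ℤ, {x : Eu n | x ∈ cube (k0 + J) m ∧
      lam ≤ ∑ i ∈ Finset.range J, sd (k0 + i) ^ c * W (k0 + i) (idx (k0 + i) x)} := by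
    intro x hx
    exact mem_iUnion.mpr ⟨idx (k0 + J) x, mem_cube_idx _ _, hlow x hx⟩
  calc hContent d K ≤ ∑' m : Fin n → ℤ, hContent d {x : Eu n | x ∈ cube (k0 + J) m ∧
        lam ≤ ∑ i ∈ Finset.range J, sd (k0 + i) ^ c * W (k0 + i) (idx (k0 + i) x)} :=
        (hContent_mono hcov).trans (hContent_iUnion_le hd _)
    _ ≤ ∑' m : Fin n → ℤ, Cn * (lam⁻¹ * ∫⁻ x in cube (k0 + J) m,
        ∑ i ∈ Finset.range J, W (k0 + i) (idx (k0 + i) x)) :=
        ENNReal.tsum_le_tsum fun m => tree_cover hd hdn W k0 J m lam hlam0 hlamt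
    _ = Cn * (lam⁻¹ * ∑' m : Fin n → ℤ, ∫⁻ x in cube (k0 + J) m,
        ∑ i ∈ Finset.range J, W (k0 + i) (idx (k0 + i) x)) := by
        rw [ENNReal.tsum_mul_left, ENNReal.tsum_mul_left]
    _ = Cn * (lam⁻¹ * ∫⁻ x in ⋃ m : Fin n → ℤ, cube (k0 + J) m,
        ∑ i ∈ Finset.range J, W (k0 + i) (idx (k0 + i) x)) := by
        rw [lintegral_iUnion (fun m => measurableSet_cube _ _)]
        intro m1 m2 h12
        rw [Function.onFun, Set.disjoint_left]
        intro x h1 h2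
        apply h12
        rw [← show idx (k0 + J) x = m1 from h1, ← show idx (k0 + J) x = m2 from h2]
    _ ≤ Cn * (lam⁻¹ * A) := by
        gcongr
        refine (setLIntegral_le_lintegral _ _).trans ?_
        exact lintegral_mono fun x => htel x
    _ = Cn * (2 * Ct) * (c1 ^ p)⁻¹ * A := by
        have : lam⁻¹ = 2 * Ct * (c1 ^ p)⁻¹ := by
          rw [hlam, ENNReal.inv_div (Or.inl (by norm_num)) (Or.inl (by norm_num)),
            div_eq_mul_inv, ENNReal.mul_inv (Or.inl hc1p0) (Or.inl hc1pt), inv_inv]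
          ring
        rw [this]; ring

end Pool.Agent.Work.MP_4ab57e_an
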