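import Pool.Agent.Work.MP_4ab57e_an.Cutoff
import Pool.Agent.Work.MP_4ab57e_an.Tree

/-!
The lower bound for the capacity.
-/

set_option autoImplicit false

namespace Pool.Agent.Work.MP_4ab57e_an

open MeasureTheory FourierTransform SchwartzMap Real Set Filter Topology
open scoped ENNReal NNReal RealInnerProductSpace

variable {n : ℕ}

lemma apply_eq_fourier (u : 𝓢'(Eu n, ℂ)) (φ : 𝓢(Eu n, ℂ)) : u φ = 𝓕 u (𝓕⁻ φ) := by
  rw [TemperedDistribution.fourier_apply, fourier_fourierInv_eq]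

/-- The heat extension of `h` in terms of the Fourier transform. -/
lemma heat_mul (ε t : ℝ) (hε : 0 < ε) (x ξ : Eu n) :
    ((Real.exp (-π * (t ^ 2 * ‖ξ‖ ^ 2)) : ℝ) : ℂ) * 𝓕⁻ (dil (gauss n) ε x) ξ =
      𝓕⁻ (dil (gauss n) (Real.sqrt (t ^ 2 + ε ^ 2)) x) ξ := by
  have hr : 0 < Real.sqrt (t ^ 2 + ε ^ 2) := Real.sqrt_pos.mpr (by positivity)
  rw [fourierInv_heat hε, fourierInv_heat hr, Real.sq_sqrt (by positivity)]
  have h1 : Real.exp (-π * ((t ^ 2 + ε ^ 2) * ‖ξ‖ ^ 2)) =
      Real.exp (-π * (t ^ 2 * ‖ξ‖ ^ 2)) * Real.exp (-π * (ε ^ 2 * ‖ξ‖ ^ 2)) := by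
    rw [← Real.exp_add]; congr 1; ring
  have h2 : ((Real.exp (-π * ((t ^ 2 + ε ^ 2) * ‖ξ‖ ^ 2)) : ℝ) : ℂ) =
      ((Real.exp (-π * (t ^ 2 * ‖ξ‖ ^ 2)) : ℝ) : ℂ) *
        ((Real.exp (-π * (ε ^ 2 * ‖ξ‖ ^ 2)) : ℝ) : ℂ) := by
    rw [← Complex.ofReal_mul, ← h1]
  rw [h2]
  generalize ((Real.exp (-π * (t ^ 2 * ‖ξ‖ ^ 2)) : ℝ) : ℂ) = A
  generalize ((Real.exp (-π * (ε ^ 2 * ‖ξ‖ ^ 2)) : ℝ) : ℂ) = B
  ring

theorem riesz_heat_le {α : ℝ} (hα : 0 < α) (hn : 1 ≤ n) {h u : 𝓢'(Eu n, ℂ)}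
    (hR : IsRieszPotential α h u) {ε : ℝ} (hε : 0 < ε) (x : Eu n) :
    ENNReal.ofReal (cG α) * ‖u (dil (gauss n) ε x)‖ₑ ≤
      ∫⁻ t in Ioi (0 : ℝ), ENNReal.ofReal (t ^ (α - 1)) *
        ‖h (dil (gauss n) (Real.sqrt (t ^ 2 + ε ^ 2)) x)‖ₑ := by
  obtain ⟨H, h1, h2⟩ := hR
  replace h1 : ∀ φ : 𝓢(Eu n, ℂ), Integrable (fun ξ => φ ξ * H ξ) ∧ 𝓕 h φ = ∫ ξ, φ ξ * H ξ := h1
  replace h2 : ∀ φ : 𝓢(Eu n, ℂ), Integrable (fun ξ => φ ξ * (((‖ξ‖ ^ (-α) : ℝ) : ℂ) * H ξ)) ∧
      𝓕 u φ = ∫ ξ, φ ξ * (((‖ξ‖ ^ (-α) : ℝ) : ℂ) * H ξ) := h2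
  set φ : 𝓢(Eu n, ℂ) := 𝓕⁻ (dil (gauss n) ε x) with hφ
  have e1 : u (dil (gauss n) ε x) = ∫ ξ, ((‖ξ‖ ^ (-α) : ℝ) : ℂ) * (φ ξ * H ξ) := by
    rw [apply_eq_fourier, (h2 φ).2]
    congr 1
    funext ξ
    ring
  have hint : Integrable (fun ξ => ((‖ξ‖ ^ (-α) : ℝ) : ℂ) * (φ ξ * H ξ)) := by
    refine (h2 φ).1.congr (Eventually.of_forall fun ξ => ?_)
    simp only
    ring
  rw [e1]
  refine (subord_enorm_le hα hn (h1 φ).1.aestronglyMeasurable hint).trans (le_of_eq ?_)
  apply setLIntegral_congr_fun measurableSet_Ioi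
  intro t _
  simp only
  congr 2
  rw [apply_eq_fourier, (h1 _).2]
  congr 1
  funext ξ
  rw [← mul_assoc, hφ, heat_mul ε t hε]

/-- Uniform positivity of the heat regularization near `K`. -/
theorem exists_eps {K U : Set (Eu n)} (hK : IsCompact K) (hU : IsOpen U) (hKU : K ⊆ U)
    {u : 𝓢'(Eu n, ℂ)} {g : Eu n → ℝ} (hg : LocallyIntegrable g)
    (hug : ∀ φ : 𝓢(Eu n, ℂ), HasCompactSupport φ → u φ = ∫ x, φ x * (g x : ℂ))
    (hgU : ∀ᵐ x : Eu n, x ∈ U → 1 ≤ g x) :
    ∃ ε : ℝ, 0 < ε ∧ ∀ x ∈ K, 1 / 2 ≤ ‖u (dil (gauss n) ε x)‖ := by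
  obtain ⟨δ, hδ, hthick⟩ := hK.exists_thickening_subset_open hU hKU
  obtain ⟨R, hR⟩ := hK.isBounded.exists_norm_le
  have hR' : ∀ x ∈ K, ‖x‖ ≤ max R 0 := fun x hx => (hR x hx).trans (le_max_left _ _)
  let b : ContDiffBump (0 : Eu n) := ⟨δ / 2, δ, half_pos hδ, half_lt_self hδ⟩
  -- two functionals
  let q1 : Seminorm ℂ 𝓢(Eu n, ℂ) := (normSeminorm ℂ ℂ).comp (u : 𝓢(Eu n, ℂ) →ₗ[ℂ] ℂ)
  have hq1 : Continuous q1 := continuous_norm.comp (map_continuous u)
  let v : 𝓢(Eu n, ℂ) →L[ℂ] ℂ := SchwartzMap.integralCLM ℂ volume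
  let q2 : Seminorm ℂ 𝓢(Eu n, ℂ) := (normSeminorm ℂ ℂ).comp (v : 𝓢(Eu n, ℂ) →ₗ[ℂ] ℂ)
  have hq2 : Continuous q2 := continuous_norm.comp v.continuous
  obtain ⟨C1, hC10, hC1⟩ := functional_hkB_le b (max R 0) (le_max_right _ _) q1 hq1
  obtain ⟨C2, hC20, hC2⟩ := functional_hkB_le b (max R 0) (le_max_right _ _) q2 hq2
  set ε : ℝ := min 1 (1 / (4 * (C1 + C2 + 1))) with hε
  have hCpos : 0 < C1 + C2 + 1 := by linarith
  have hε0 : 0 < ε := by
    rw [hε]; exact lt_min one_pos (by positivity)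
  have hε1 : ε ≤ 1 := min_le_left _ _
  have hε4 : (C1 + C2) * ε ≤ 1 / 4 := by
    have h1 : ε ≤ 1 / (4 * (C1 + C2 + 1)) := min_le_right _ _
    calc (C1 + C2) * ε ≤ (C1 + C2 + 1) * (1 / (4 * (C1 + C2 + 1))) :=
          mul_le_mul (by linarith) h1 hε0.le hCpos.le
      _ = 1 / 4 := by field_simp
  refine ⟨ε, hε0, ?_⟩
  intro x hx
  have hxR := hR' x hx
  have hB1 : ‖u (hkB b ε x)‖ ≤ C1 * ε := hC1 ε hε0 hε1 x hxR
  have hB2 : ‖v (hkB b ε x)‖ ≤ C2 * ε := hC2 ε hε0 hε1 x hxR
  have hsplit : dil (gauss n) ε x = hkA b ε x + hkB b ε x := by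
    unfold hkB; abel
  -- real kernel
  set w : Eu n → ℝ := fun z => (ε ^ n)⁻¹ * Real.exp (-π * (‖x - z‖ ^ 2 / ε ^ 2)) with hw
  have hwval : ∀ z, dil (gauss n) ε x z = ((w z : ℝ) : ℂ) := fun z => isHeatKernel_dil hε0 x z
  have hw0 : ∀ z, 0 ≤ w z := fun z => by positivity
  have hwc : Continuous w := by
    rw [hw]; fun_prop
  -- total integral of the kernel
  have hvW : v (dil (gauss n) ε x) = 1 := by
    have h1 : v (dil (gauss n) ε x) = ∫ z, dil (gauss n) ε x z := rfl
    have h2 : 𝓕⁻ (dil (gauss n) ε x) (0 : Eu n) = 1 := by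
      rw [fourierInv_heat hε0]
      simp
    rw [SchwartzMap.fourierInv_coe, Real.fourierInv_eq'] at h2
    rw [h1, ← h2]
    congr 1
    funext z
    simp
  have hvA : v (hkA b ε x) = ((∫ z, b (z - x) * w z : ℝ) : ℂ) := by
    have h1 : v (hkA b ε x) = ∫ z, hkA b ε x z := rfl
    rw [h1, ← integral_complex_ofReal]
    congr 1
    funext z
    rw [hkA_apply, hwval]
    push_cast
    rfl
  have hbcont : Continuous (fun z : Eu n => b (z - x)) := b.continuous.comp (continuous_id.sub continuous_const)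
  have hbsupp : HasCompactSupport (fun z : Eu n => b (z - x)) := by
    apply HasCompactSupport.intro (isCompact_closedBall x b.rOut)
    intro z hz
    apply b.zero_of_le_dist
    rw [dist_zero_right, ← dist_eq_norm]
    rw [Metric.mem_closedBall, not_le] at hz
    exact hz.le
  have hbwsupp : HasCompactSupport (fun z : Eu n => b (z - x) * w z) := hbsupp.mul_right
  have hbwcont : Continuous (fun z : Eu n => b (z - x) * w z) := hbcont.mul hwc
  have hI1 : 1 - C2 * ε ≤ ∫ z, b (z - x) * w z := by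
    have h1 : v (hkA b ε x) = 1 - v (hkB b ε x) := by
      rw [← hvW, hsplit, map_add]; ring
    have h2 : (∫ z, b (z - x) * w z) = (1 - v (hkB b ε x)).re := by
      rw [← h1, hvA, Complex.ofReal_re]
    rw [h2, Complex.sub_re, Complex.one_re]
    have h3 : (v (hkB b ε x)).re ≤ C2 * ε := (Complex.re_le_norm _).trans hB2
    linarith
  have huA : u (hkA b ε x) = ((∫ z, b (z - x) * w z * g z : ℝ) : ℂ) := by
    rw [hug _ (hasCompactSupport_hkA b ε x), ← integral_complex_ofReal]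
    congr 1
    funext z
    rw [hkA_apply, hwval]
    push_cast
    ring
  have hint1 : Integrable (fun z => b (z - x) * w z) :=
    hbwcont.integrable_of_hasCompactSupport hbwsupp
  have hint2 : Integrable (fun z => b (z - x) * w z * g z) :=
    hg.integrable_smul_left_of_hasCompactSupport hbwcont hbwsupp
  have hI2 : ∫ z, b (z - x) * w z ≤ ∫ z, b (z - x) * w z * g z := by
    apply integral_mono_ae hint1 hint2
    filter_upwards [hgU] with z hz
    by_cases hzU : z ∈ U
    · have h1 := hz hzU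
      have h2 : 0 ≤ b (z - x) * w z := mul_nonneg b.nonneg (hw0 z)
      nlinarith
    · have h3 : b (z - x) = 0 := by
        apply b.zero_of_le_dist
        by_contra hlt
        push Not at hlt
        rw [dist_zero_right, ← dist_eq_norm] at hlt
        exact hzU (hthick (Metric.mem_thickening_iff.mpr ⟨x, hx, hlt⟩))
      simp only [h3, zero_mul, le_refl]
  have h1 : ‖u (hkA b ε x)‖ ≥ 1 - C2 * ε := by
    rw [huA, Complex.norm_real, Real.norm_eq_abs]
    exact (hI1.trans hI2).trans (le_abs_self _)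
  have h2 : ‖u (dil (gauss n) ε x)‖ ≥ ‖u (hkA b ε x)‖ - ‖u (hkB b ε x)‖ := by
    rw [hsplit, map_add]
    have := norm_sub_le (u (hkA b ε x) + u (hkB b ε x)) (u (hkB b ε x))
    rw [add_sub_cancel_right] at this
    linarith
  nlinarith

/-- heat kernels see the nontangential maximal function -/
lemma enorm_heat_le (h : 𝓢'(Eu n, ℂ)) {r : ℝ} (hr : 0 < r) {x y : Eu n} (hxy : ‖x - y‖ < r) :
    ‖h (dil (gauss n) r x)‖ₑ ≤ heatMax h y := by
  unfold heatMax
  refine le_iSup_of_le r (le_iSup_of_le hr (le_iSup_of_le x (le_iSup_of_le hxy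
    (le_iSup_of_le (dil (gauss n) r x) (le_iSup_of_le (isHeatKernel_dil hr x) le_rfl)))))

lemma enorm_heat_le_infCube (h : 𝓢'(Eu n, ℂ)) {r : ℝ} {k : ℤ} {x : Eu n}
    (hr : (n + 1) * 2 ^ k ≤ r) :
    ‖h (dil (gauss n) r x)‖ₑ ≤ infCube (heatMax h) k (idx k x) := by
  have hpos : 0 < r := lt_of_lt_of_le (mul_pos (by positivity) (two_zpow_pos k)) hr
  refine le_iInf₂ fun y hy => enorm_heat_le h hpos ?_
  exact lt_of_lt_of_le (norm_sub_lt_of_mem_cube (mem_cube_idx k x) hy) hr

lemma lintegral_rpow_Ioc {α : ℝ} (hα : 0 < α) {T : ℝ} (hT : 0 ≤ T) :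
    ∫⁻ t in Ioc (0 : ℝ) T, ENNReal.ofReal (t ^ (α - 1)) = ENNReal.ofReal (T ^ α / α) := by
  have h1 : IntervalIntegrable (fun t : ℝ => t ^ (α - 1)) volume 0 T :=
    intervalIntegral.intervalIntegrable_rpow' (by linarith)
  rw [← ofReal_integral_eq_lintegral_ofReal]
  · rw [← intervalIntegral.integral_of_le hT, integral_rpow (Or.inl (by linarith))]
    congr 1
    rw [sub_add_cancel, Real.zero_rpow hα.ne', sub_zero]
  · exact (intervalIntegrable_iff_integrableOn_Ioc_of_le hT).mp h1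
  · filter_upwards [self_mem_ae_restrict measurableSet_Ioc] with t ht
    exact Real.rpow_nonneg ht.1.le _

/-- The lower bound: Hausdorff content is controlled by the capacity. -/
theorem lower_bound (hn : 1 ≤ n) {α p : ℝ} (hα : 0 < α) (hp : 0 < p) (hp1 : p ≤ 1)
    (hαp : α * p < n) :
    ∃ C : ℝ≥0, ∀ K : Set (Eu n), IsCompact K →
      hContent (n - α * p) K ≤ C * rieszCap α p K := by
  have hd : 0 < (n : ℝ) - α * p := by linarith
  obtain ⟨C0, hC0⟩ := lower_comb (n := n) hp hp1 hα hd (by ring)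
  set D : ℝ≥0∞ := ENNReal.ofReal ((2 * (n + 1)) ^ α / α) with hD
  have hD0 : D ≠ 0 := by
    rw [hD]
    have : (0 : ℝ) < (2 * (n + 1)) ^ α / α := by positivity
    simpa using this
  have hDt : D ≠ ∞ := ENNReal.ofReal_ne_top
  set c1 : ℝ≥0∞ := ENNReal.ofReal (cG α) * ENNReal.ofReal (1 / 2) / (2 * D) with hc1
  have hc10 : c1 ≠ 0 := by
    rw [hc1]
    refine (ENNReal.div_pos (mul_ne_zero ?_ ?_) (ENNReal.mul_ne_top (by norm_num) hDt)).ne'
    · simpa using cG_pos hα
    · norm_num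
  have hc1t : c1 ≠ ∞ := by
    rw [hc1]
    exact ENNReal.div_ne_top (ENNReal.mul_ne_top ENNReal.ofReal_ne_top ENNReal.ofReal_ne_top)
      (mul_ne_zero (by norm_num) hD0)
  have hc1p : (c1 ^ p)⁻¹ ≠ ∞ :=
    ENNReal.inv_ne_top.mpr (ENNReal.rpow_pos (pos_iff_ne_zero.mpr hc10) hc1t).ne'
  set C1 : ℝ≥0∞ := C0 * (c1 ^ p)⁻¹ + 1 with hC1
  have hC1t : C1 ≠ ∞ := ENNReal.add_ne_top.mpr ⟨ENNReal.mul_ne_top ENNReal.coe_ne_top hc1p,
    ENNReal.one_ne_top⟩
  have hC10 : C1 ≠ 0 := by
    rw [hC1]; simp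
  refine ⟨C1.toNNReal, ?_⟩
  intro K hK
  rw [ENNReal.coe_toNNReal hC1t]
  -- the estimate for a fixed admissible `h`
  have key : ∀ h : 𝓢'(Eu n, ℂ), Admissible α K h →
      hContent (n - α * p) K ≤ C1 * hardyPow p h := by
    rintro h ⟨u, g, hR, hgl, hug, U, hU, hKU, hgU⟩
    obtain ⟨ε, hε, hεK⟩ := exists_eps hK hU hKU hgl hug hgU
    -- choose the bottom level
    obtain ⟨k0, hk0⟩ : ∃ k0 : ℤ, (n + 1) * (2 : ℝ) ^ k0 ≤ ε := by
      obtain ⟨m, hm⟩ := exists_pow_lt_of_lt_one (show (0 : ℝ) < ε / (n + 1) by positivity)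
        (by norm_num : (1 / 2 : ℝ) < 1)
      refine ⟨-(m : ℤ), ?_⟩
      have h1 : (2 : ℝ) ^ (-(m : ℤ)) = (1 / 2) ^ m := by
        rw [zpow_neg, zpow_natCast, one_div, inv_pow]
      rw [h1]
      have h2 := (lt_div_iff₀ (by positivity : (0 : ℝ) < n + 1)).mp hm
      linarith
    set M := heatMax h with hM
    have hKc : ∀ x ∈ K, c1 ≤ ∑' j : ℕ, sd (k0 + j) ^ α * infCube M (k0 + j) (idx (k0 + j) x) := by
      intro x hx
      set T : ℕ → ℝ := fun j => (n + 1) * 2 ^ (k0 + j) with hT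
      have hTpos : ∀ j, 0 < T j := fun j => mul_pos (by positivity) (two_zpow_pos _)
      have hTsucc : ∀ j, T (j + 1) = 2 * T j := by
        intro j
        simp only [hT]
        have : k0 + ((j + 1 : ℕ) : ℤ) = (k0 + j) + 1 := by push_cast; ring
        rw [this, zpow_add₀ (by norm_num : (2 : ℝ) ≠ 0), zpow_one]; ring
      set f : ℝ → ℝ≥0∞ := fun t => ENNReal.ofReal (t ^ (α - 1)) *
        ‖h (dil (gauss n) (Real.sqrt (t ^ 2 + ε ^ 2)) x)‖ₑ with hf
      have h1 : ENNReal.ofReal (cG α) * ENNReal.ofReal (1 / 2) ≤ ∫⁻ t in Ioi (0 : ℝ), f t := by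
        refine le_trans ?_ (riesz_heat_le hα hn hR hε x)
        gcongr
        rw [← ofReal_norm]
        exact ENNReal.ofReal_le_ofReal (hεK x hx)
      -- splitting
      have hcov : Ioi (0 : ℝ) ⊆ Ioc 0 (T 0) ∪ ⋃ j : ℕ, Ioc (T j) (T (j + 1)) := by
        intro t ht
        by_cases h0 : t ≤ T 0
        · exact Or.inl ⟨ht, h0⟩
        · right
          push Not at h0
          have hlim : ∃ j, t ≤ T j := by
            obtain ⟨j, hj⟩ := pow_unbounded_of_one_lt (t / T 0) (by norm_num : (1 : ℝ) < 2)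
            refine ⟨j, ?_⟩
            have hTj : T j = T 0 * 2 ^ j := by
              induction j with
              | zero => simp
              | succ j ih2 =>
                clear hj
                have : ∀ i, T i = T 0 * 2 ^ i := by
                  intro i
                  induction i with
                  | zero => simp
                  | succ i ih3 => rw [hTsucc, ih3]; ring
                exact this (j + 1)
            rw [hTj]
            have := (div_lt_iff₀ (hTpos 0)).mp hj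
            linarith
          classical
          set J := Nat.find hlim with hJ
          have hJ1 : t ≤ T J := Nat.find_spec hlim
          have hJ0 : J ≠ 0 := by
            intro hz
            rw [hz] at hJ1
            linarith
          obtain ⟨i, hi⟩ := Nat.exists_eq_succ_of_ne_zero hJ0
          have hi2 : ¬ t ≤ T i := Nat.find_min hlim (by omega)
          push Not at hi2
          refine mem_iUnion.mpr ⟨i, hi2, ?_⟩
          rw [hi] at hJ1
          exact hJ1
      have hpiece : ∀ (j : ℕ) (S : Set ℝ), MeasurableSet S → S ⊆ Ioc 0 (2 * T j) →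
          (∀ t ∈ S, T j ≤ Real.sqrt (t ^ 2 + ε ^ 2)) →
          ∫⁻ t in S, f t ≤ D * (sd (k0 + j) ^ α * infCube M (k0 + j) (idx (k0 + j) x)) := by
        intro j S hS hSsub hSr
        calc ∫⁻ t in S, f t ≤ ∫⁻ t in S, ENNReal.ofReal (t ^ (α - 1)) *
              infCube M (k0 + j) (idx (k0 + j) x) := by
              apply setLIntegral_mono' hS
              intro t ht
              simp only [hf]
              gcongr
              exact enorm_heat_le_infCube h (hSr t ht)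
          _ ≤ ∫⁻ t in Ioc 0 (2 * T j), ENNReal.ofReal (t ^ (α - 1)) *
              infCube M (k0 + j) (idx (k0 + j) x) := lintegral_mono_set hSsub
          _ = ENNReal.ofReal ((2 * T j) ^ α / α) * infCube M (k0 + j) (idx (k0 + j) x) := by
              rw [lintegral_mul_const _ (by fun_prop), lintegral_rpow_Ioc hα (by
                have := hTpos j; positivity)]
          _ = D * (sd (k0 + j) ^ α * infCube M (k0 + j) (idx (k0 + j) x)) := by
              have e1 : 2 * T j = 2 * (n + 1) * 2 ^ (k0 + j) := by simp only [hT]; ring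
              have e2 : ENNReal.ofReal ((2 * T j) ^ α / α) = D * sd (k0 + j) ^ α := by
                rw [e1, Real.mul_rpow (by positivity) (two_zpow_pos _).le, hD, sd,
                  ENNReal.ofReal_rpow_of_pos (two_zpow_pos _), ← ENNReal.ofReal_mul (by positivity)]
                congr 1
                ring
              rw [e2, mul_assoc]
      have h2 : ∫⁻ t in Ioi (0 : ℝ), f t ≤ 2 * D *
          ∑' j : ℕ, sd (k0 + j) ^ α * infCube M (k0 + j) (idx (k0 + j) x) := by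
        calc ∫⁻ t in Ioi (0 : ℝ), f t
            ≤ ∫⁻ t in Ioc 0 (T 0) ∪ ⋃ j : ℕ, Ioc (T j) (T (j + 1)), f t :=
              lintegral_mono_set hcov
          _ ≤ (∫⁻ t in Ioc 0 (T 0), f t) + ∫⁻ t in ⋃ j : ℕ, Ioc (T j) (T (j + 1)), f t :=
              lintegral_union_le _ _ _
          _ ≤ D * (sd (k0 + (0 : ℕ)) ^ α * infCube M (k0 + (0 : ℕ)) (idx (k0 + (0 : ℕ)) x)) +
              ∑' j : ℕ, D * (sd (k0 + j) ^ α * infCube M (k0 + j) (idx (k0 + j) x)) := by
              gcongr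
              · apply hpiece 0 _ measurableSet_Ioc
                · exact Ioc_subset_Ioc_right (by have := hTpos 0; linarith)
                · intro t _
                  apply Real.le_sqrt_of_sq_le
                  have : T 0 ≤ ε := by
                    simp only [hT]
                    simpa using hk0
                  have h0 := hTpos 0
                  nlinarith [sq_nonneg t]
              · refine (lintegral_iUnion_le _ _).trans ?_
                refine ENNReal.tsum_le_tsum fun j => ?_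
                apply hpiece j _ measurableSet_Ioc
                · intro t ht
                  rw [← hTsucc]
                  exact ⟨lt_trans (hTpos j) ht.1, ht.2⟩
                · intro t ht
                  apply Real.le_sqrt_of_sq_le
                  have h0 := hTpos j
                  have h3 := ht.1
                  nlinarith [sq_nonneg ε]
          _ ≤ D * ∑' j : ℕ, sd (k0 + j) ^ α * infCube M (k0 + j) (idx (k0 + j) x) +
              D * ∑' j : ℕ, sd (k0 + j) ^ α * infCube M (k0 + j) (idx (k0 + j) x) := by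
              rw [ENNReal.tsum_mul_left]
              gcongr
              exact ENNReal.le_tsum (f := fun j : ℕ =>
                sd (k0 + j) ^ α * infCube M (k0 + j) (idx (k0 + j) x)) 0
          _ = _ := by ring
      rw [hc1]
      exact ENNReal.div_le_of_le_mul' (h1.trans h2)
    refine (hC0 M K k0 c1 hc10 hc1t hKc).trans ?_
    unfold hardyPow
    gcongr
    rw [hC1]
    exact le_self_add
  -- pass to the infimum
  unfold rieszCap
  rw [ENNReal.mul_iInf_of_ne hC10 hC1t]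
  refine le_iInf fun h => ?_
  rw [ENNReal.mul_iInf_of_ne hC10 hC1t]
  exact le_iInf fun hadm => key h hadm

end Pool.Agent.Work.MP_4ab57e_an
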