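import Pool.Agent.Work.MP_4ab57e_an.Defs

/-!
Smooth functions supported in the open unit cube, dual to the monomials.
-/

set_option autoImplicit false

namespace Pool.Agent.Work.MP_4ab57e_an

open MeasureTheory Set
open scoped ENNReal NNReal ContDiff

variable {n : ℕ}

/-- monomials -/
noncomputable def mono (γ : Fin n → ℕ) (x : Eu n) : ℝ := ∏ i, x i ^ γ i

lemma continuous_mono (γ : Fin n → ℕ) : Continuous (mono γ) := by
  unfold mono
  refine continuous_finsetProd _ fun i _ => ?_
  exact ((EuclideanSpace.proj (𝕜 := ℝ) i).continuous).pow _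

/-- multi-indices of order `< M` -/
def mIdx (n M : ℕ) : Finset (Fin n → ℕ) :=
  (Fintype.piFinset fun _ => Finset.range M).filter (fun γ => ∑ i, γ i < M)

lemma mem_mIdx {M : ℕ} {γ : Fin n → ℕ} : γ ∈ mIdx n M ↔ ∑ i, γ i < M := by
  unfold mIdx
  rw [Finset.mem_filter, Fintype.mem_piFinset]
  constructor
  · exact fun h => h.2
  · intro h
    refine ⟨fun i => Finset.mem_range.mpr (lt_of_le_of_lt ?_ h), h⟩
    exact Finset.single_le_sum (fun _ _ => Nat.zero_le _) (Finset.mem_univ i)

/-- the open unit cube -/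
def openCube (n : ℕ) : Set (Eu n) := {x | ∀ i, 0 < x i ∧ x i < 1}

lemma isOpen_openCube : IsOpen (openCube n) := by
  have h : openCube n = ⋂ i : Fin n, {x : Eu n | 0 < x i} ∩ {x : Eu n | x i < 1} := by
    ext x
    simp [openCube, Set.mem_iInter]
  rw [h]
  refine isOpen_iInter_of_finite fun i => ?_
  have hc : Continuous (fun x : Eu n => x i) := (EuclideanSpace.proj (𝕜 := ℝ) i).continuous
  exact (isOpen_lt continuous_const hc).inter (isOpen_lt hc continuous_const)

/-- test functions supported in the open unit cube -/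
def IsTest (θ : Eu n → ℝ) : Prop :=
  ContDiff ℝ ∞ θ ∧ HasCompactSupport θ ∧ tsupport θ ⊆ openCube n

lemma IsTest.integrable_mul {θ : Eu n → ℝ} (h : IsTest θ) {g : Eu n → ℝ} (hg : Continuous g) :
    Integrable (fun x => θ x * g x) :=
  (h.1.continuous.mul hg).integrable_of_hasCompactSupport h.2.1.mul_right

lemma IsTest.add {θ θ' : Eu n → ℝ} (h : IsTest θ) (h' : IsTest θ') :
    IsTest (fun x => θ x + θ' x) :=
  ⟨h.1.add h'.1, h.2.1.add h'.2.1, (tsupport_add θ θ').trans (union_subset h.2.2 h'.2.2)⟩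

lemma IsTest.const_mul {θ : Eu n → ℝ} (h : IsTest θ) (c : ℝ) : IsTest (fun x => c * θ x) :=
  ⟨contDiff_const.mul h.1, h.2.1.mul_left, (tsupport_mul_subset_right).trans h.2.2⟩

lemma isTest_zero : IsTest (fun _ : Eu n => (0 : ℝ)) := by
  refine ⟨contDiff_const, HasCompactSupport.zero, ?_⟩
  have h : tsupport (fun _ : Eu n => (0 : ℝ)) = ∅ := by
    rw [tsupport_eq_empty_iff]; rfl
  rw [h]
  exact empty_subset _

/-- A polynomial (given by its coefficients) vanishing on the open unit cube is zero. -/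
lemma coeff_eq_zero {M : ℕ} (c : {γ // γ ∈ mIdx n M} → ℝ)
    (h : ∀ x ∈ openCube n, ∑ γ, c γ * mono γ.1 x = 0) : ∀ γ, c γ = 0 := by
  classical
  set p : MvPolynomial (Fin n) ℝ :=
    ∑ γ, MvPolynomial.monomial (Finsupp.equivFunOnFinite.symm γ.1) (c γ) with hp
  have hp0 : p = 0 := by
    apply MvPolynomial.funext_set (fun _ : Fin n => Ioo (0 : ℝ) 1)
      (fun _ => Set.Ioo_infinite (by norm_num))
    intro x hx
    rw [map_zero, hp, map_sum]
    rw [← h (WithLp.toLp 2 x) (fun i => hx i (mem_univ i))]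
    refine Finset.sum_congr rfl fun γ _ => ?_
    rw [MvPolynomial.eval_monomial, Finsupp.prod_fintype _ _ (fun i => pow_zero _)]
    rfl
  intro γ
  have h1 : MvPolynomial.coeff (Finsupp.equivFunOnFinite.symm γ.1) p = c γ := by
    rw [hp, MvPolynomial.coeff_sum]
    rw [Finset.sum_eq_single γ]
    · rw [MvPolynomial.coeff_monomial, if_pos rfl]
    · intro γ' _ hne
      rw [MvPolynomial.coeff_monomial, if_neg]
      intro he
      exact hne (Subtype.ext (Finsupp.equivFunOnFinite.symm.injective he))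
    · intro hn
      exact absurd (Finset.mem_univ γ) hn
  rw [← h1, hp0, MvPolynomial.coeff_zero]

/-- The moment map on test functions is onto. -/
theorem moment_surj (M : ℕ) (v : {γ // γ ∈ mIdx n M} → ℝ) :
    ∃ θ : Eu n → ℝ, IsTest θ ∧ ∀ γ, ∫ x, θ x * mono γ.1 x = v γ := by
  classical
  let S : Submodule ℝ ({γ // γ ∈ mIdx n M} → ℝ) :=
    { carrier := {v | ∃ θ : Eu n → ℝ, IsTest θ ∧ ∀ γ, ∫ x, θ x * mono γ.1 x = v γ}
      zero_mem' := ⟨fun _ => 0, isTest_zero, fun γ => by simp⟩
      add_mem' := by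
        rintro v w ⟨θ, hθ, h1⟩ ⟨θ', hθ', h2⟩
        refine ⟨_, hθ.add hθ', fun γ => ?_⟩
        simp only [add_mul]
        rw [integral_add (hθ.integrable_mul (continuous_mono _))
          (hθ'.integrable_mul (continuous_mono _)), h1, h2]
        rfl
      smul_mem' := by
        rintro c v ⟨θ, hθ, h1⟩
        refine ⟨_, hθ.const_mul c, fun γ => ?_⟩
        simp only [mul_assoc]
        rw [integral_const_mul, h1]
        rfl }
  have hS : S = ⊤ := by
    by_contra hne
    obtain ⟨f, hf0, hf⟩ := Submodule.exists_le_ker_of_lt_top S (lt_top_iff_ne_top.mpr hne)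
    apply hf0
    set c : {γ // γ ∈ mIdx n M} → ℝ := fun γ => f (fun γ' => if γ = γ' then 1 else 0) with hc
    have hfv : ∀ v, f v = ∑ γ, v γ * c γ := by
      intro v
      rw [LinearMap.pi_apply_eq_sum_univ f v]
      rfl
    have hPcont : Continuous (fun x : Eu n => ∑ γ, c γ * mono γ.1 x) :=
      continuous_finsetSum _ fun γ _ => continuous_const.mul (continuous_mono _)
    have hP : ∀ x ∈ openCube n, ∑ γ, c γ * mono γ.1 x = 0 := by
      have h1 : ∀ᵐ x : Eu n, x ∈ openCube n → ∑ γ, c γ * mono γ.1 x = 0 := by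
        apply IsOpen.ae_eq_zero_of_integral_contDiff_smul_eq_zero isOpen_openCube
        · exact hPcont.locallyIntegrable.locallyIntegrableOn _
        · intro g hg1 hg2 hg3
          have ht : IsTest g := ⟨hg1, hg2, hg3⟩
          have hmem : (fun γ : {γ // γ ∈ mIdx n M} => ∫ x, g x * mono γ.1 x) ∈ S :=
            ⟨g, ht, fun γ => rfl⟩
          have h2 := hf hmem
          rw [LinearMap.mem_ker, hfv] at h2
          simp only [smul_eq_mul, Finset.mul_sum]
          rw [integral_finsetSum]
          · rw [← h2]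
            refine Finset.sum_congr rfl fun γ _ => ?_
            rw [← integral_mul_const]
            congr 1
            funext x
            ring
          · intro γ _
            exact ht.integrable_mul (continuous_const.mul (continuous_mono _))
      have h2 : (fun x : Eu n => ∑ γ, c γ * mono γ.1 x) =ᵐ[volume.restrict (openCube n)]
          fun _ => (0 : ℝ) := by
        rw [Filter.EventuallyEq, ae_restrict_iff' isOpen_openCube.measurableSet]
        exact h1
      exact MeasureTheory.Measure.eqOn_open_of_ae_eq h2 isOpen_openCube hPcont.continuousOn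
        continuousOn_const
    have hc0 := coeff_eq_zero c hP
    ext v
    rw [LinearMap.comp_apply, hfv]
    simp [hc0]
  have hv : v ∈ S := by rw [hS]; exact Submodule.mem_top
  exact hv

open Classical in
/-- Dual functions to the monomials of order `< M`. -/
theorem exists_dual (n M : ℕ) : ∃ θ : (Fin n → ℕ) → Eu n → ℝ, ∀ γ ∈ mIdx n M, IsTest (θ γ) ∧
    ∀ γ' ∈ mIdx n M, ∫ x, θ γ x * mono γ' x = if γ' = γ then 1 else 0 := by
  have h : ∀ γ : Fin n → ℕ, ∃ θ : Eu n → ℝ, IsTest θ ∧
      ∀ γ' ∈ mIdx n M, ∫ x, θ x * mono γ' x = if γ' = γ then 1 else 0 := by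
    intro γ
    obtain ⟨θ, h1, h2⟩ := moment_surj (n := n) M (fun γ' => if γ'.1 = γ then 1 else 0)
    exact ⟨θ, h1, fun γ' hγ' => h2 ⟨γ', hγ'⟩⟩
  choose θ hθ using h
  exact ⟨θ, fun γ _ => hθ γ⟩

/-- Vanishing of moments implies vanishing against multilinear polynomials. -/
theorem multilinear_moment {j M : ℕ} (hj : j < M)
    (T : ContinuousMultilinearMap ℝ (fun _ : Fin j => Eu n) ℂ) {F : Eu n → ℂ}
    (hFc : Continuous F) (hFs : HasCompactSupport F)
    (hF : ∀ γ ∈ mIdx n M, ∫ z, F z * ((mono γ z : ℝ) : ℂ) = 0) :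
    ∫ z, F z * T (fun _ => z) = 0 := by
  classical
  have hz : ∀ z : Eu n, z = ∑ i, z i • EuclideanSpace.single i (1 : ℝ) := by
    intro z
    ext k
    simp [Finset.sum_apply, Pi.single_apply]
  let γ : (Fin j → Fin n) → Fin n → ℕ := fun σ i => (Finset.univ.filter (fun k => σ k = i)).card
  have hT : ∀ z : Eu n, T (fun _ => z) = ∑ σ : Fin j → Fin n,
      ((mono (γ σ) z : ℝ) : ℂ) * T (fun k => EuclideanSpace.single (σ k) (1 : ℝ)) := by
    intro z
    conv_lhs => rw [show (fun _ : Fin j => z) =
      fun _ : Fin j => ∑ i, z i • EuclideanSpace.single i (1 : ℝ) from funext fun _ => hz z]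
    rw [ContinuousMultilinearMap.map_sum]
    refine Finset.sum_congr rfl fun σ _ => ?_
    rw [ContinuousMultilinearMap.map_smul_univ, Complex.real_smul]
    congr 2
    unfold mono
    rw [← Finset.prod_fiberwise Finset.univ σ]
    refine Finset.prod_congr rfl fun i _ => ?_
    rw [Finset.prod_congr rfl (g := fun _ => z i)
      (fun k hk => by rw [(Finset.mem_filter.mp hk).2]), Finset.prod_const]
  have hγ : ∀ σ, γ σ ∈ mIdx n M := by
    intro σ
    rw [mem_mIdx]
    have h1 := Finset.card_eq_sum_card_fiberwise (f := σ) (s := (Finset.univ : Finset (Fin j)))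
      (t := Finset.univ) (fun _ _ => Finset.mem_coe.mpr (Finset.mem_univ _))
    rw [Finset.card_univ, Fintype.card_fin] at h1
    rw [← h1]
    exact hj
  simp_rw [hT, Finset.mul_sum]
  rw [integral_finsetSum]
  · refine Finset.sum_eq_zero fun σ _ => ?_
    have h2 : ∀ z, F z * (((mono (γ σ) z : ℝ) : ℂ) *
        T (fun k => EuclideanSpace.single (σ k) (1 : ℝ))) =
        (F z * ((mono (γ σ) z : ℝ) : ℂ)) * T (fun k => EuclideanSpace.single (σ k) (1 : ℝ)) := by
      intro z; ring
    simp_rw [h2]
    rw [integral_mul_const, hF _ (hγ σ), zero_mul]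
  · intro σ _
    refine Continuous.integrable_of_hasCompactSupport ?_ hFs.mul_right
    exact hFc.mul ((Complex.continuous_ofReal.comp (continuous_mono _)).mul continuous_const)

end Pool.Agent.Work.MP_4ab57e_an
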