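import Pool.Agent.Work.MP_4ab57e_an.Riesz
import Pool.Agent.Work.MP_4ab57e_an.Moments
import Pool.Agent.Work.MP_4ab57e_an.Lower

/-!
Pointwise decay of the nontangential maximal function of `|D|^α F` for `F` with vanishing moments.
-/

set_option autoImplicit false

namespace Pool.Agent.Work.MP_4ab57e_an

open MeasureTheory FourierTransform SchwartzMap Real Set Filter Topology
open scoped ENNReal NNReal RealInnerProductSpace

variable {n : ℕ}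

/-- `‖ξ‖^(2k) exp(-π‖ξ‖²)` as a Schwartz function -/
noncomputable def gK (n k : ℕ) : 𝓢(Eu n, ℂ) :=
  SchwartzMap.smulLeftCLM ℂ (fun ξ : Eu n => (((‖ξ‖ ^ 2) ^ k : ℝ) : ℂ)) (gauss n)

lemma hasTemperateGrowth_norm_pow (k : ℕ) :
    (fun ξ : Eu n => (((‖ξ‖ ^ 2) ^ k : ℝ) : ℂ)).HasTemperateGrowth := by
  have h1 : (fun ξ : Eu n => (‖ξ‖ ^ 2) ^ k).HasTemperateGrowth :=
    (Function.hasTemperateGrowth_norm_sq (Eu n)).pow k
  exact Function.Complex.hasTemperateGrowth_ofReal.comp h1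

lemma gK_apply (k : ℕ) (ξ : Eu n) :
    gK n k ξ = (((‖ξ‖ ^ 2) ^ k : ℝ) : ℂ) * ((Real.exp (-π * ‖ξ‖ ^ 2) : ℝ) : ℂ) := by
  unfold gK
  rw [SchwartzMap.smulLeftCLM_apply_apply (hasTemperateGrowth_norm_pow k), gauss_apply,
    smul_eq_mul]

/-- the kernel `Γ` with Fourier transform `‖ξ‖^(2k) exp(-π‖ξ‖²)` -/
noncomputable def gamK (n k : ℕ) : 𝓢(Eu n, ℂ) := 𝓕⁻ (gK n k)

lemma fourier_gamK (k : ℕ) : 𝓕 (gamK n k) = gK n k := by
  unfold gamK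
  exact fourier_fourierInv_eq _

/-- the frequency integral as a spatial integral -/
lemma freq_eq_space (k : ℕ) (F : 𝓢(Eu n, ℂ)) {r : ℝ} (hr : 0 < r) (y : Eu n) :
    ∫ ξ, Complex.exp (((2 * π * ⟪y, ξ⟫ : ℝ) : ℂ) * Complex.I) *
      ((Real.exp (-π * (r ^ 2 * ‖ξ‖ ^ 2)) : ℝ) : ℂ) * ((((‖ξ‖ ^ 2) ^ k : ℝ) : ℂ) * 𝓕 F ξ) =
    ((((r ^ 2) ^ k)⁻¹ : ℝ) : ℂ) * ∫ z, F z * dil (gamK n k) r y z := by
  have h1 : ∫ z, F z * dil (gamK n k) r y z = ∫ ξ, 𝓕 F ξ * 𝓕⁻ (dil (gamK n k) r y) ξ := by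
    rw [SchwartzMap.integral_fourier_mul_eq, fourier_fourierInv_eq]
  rw [h1, ← integral_const_mul]
  congr 1
  funext ξ
  rw [fourierInv_dil _ hr, fourier_gamK, gK_apply, norm_smul, Real.norm_of_nonneg hr.le, mul_pow,
    mul_pow]
  have h2 : ((((r ^ 2) ^ k)⁻¹ : ℝ) : ℂ) * (((r ^ 2) ^ k * (‖ξ‖ ^ 2) ^ k : ℝ) : ℂ) =
      (((‖ξ‖ ^ 2) ^ k : ℝ) : ℂ) := by
    rw [← Complex.ofReal_mul, ← mul_assoc, inv_mul_cancel₀ (by positivity), one_mul]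
  calc Complex.exp (((2 * π * ⟪y, ξ⟫ : ℝ) : ℂ) * Complex.I) *
      ((Real.exp (-π * (r ^ 2 * ‖ξ‖ ^ 2)) : ℝ) : ℂ) * ((((‖ξ‖ ^ 2) ^ k : ℝ) : ℂ) * 𝓕 F ξ)
      = 𝓕 F ξ * (Complex.exp (((2 * π * ⟪y, ξ⟫ : ℝ) : ℂ) * Complex.I) *
        (((((r ^ 2) ^ k)⁻¹ : ℝ) : ℂ) * (((r ^ 2) ^ k * (‖ξ‖ ^ 2) ^ k : ℝ) : ℂ) *
          ((Real.exp (-π * (r ^ 2 * ‖ξ‖ ^ 2)) : ℝ) : ℂ))) := by
        rw [h2]; ring
    _ = _ := by ring

/-- Taylor remainder bound -/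
lemma taylor_bound (f : 𝓢(Eu n, ℂ)) {M : ℕ} (hM : 1 ≤ M) (z : Eu n) {S : ℝ}
    (hS : ∀ t ∈ Icc (0 : ℝ) 1, ‖iteratedFDeriv ℝ M f (t • z)‖ ≤ S) :
    ‖f z - ∑ k ∈ Finset.range M, ((k.factorial : ℝ)⁻¹) • iteratedFDeriv ℝ k f 0 (fun _ => z)‖ ≤
      S * ‖z‖ ^ M := by
  obtain ⟨m, rfl⟩ : ∃ m, M = m + 1 := ⟨M - 1, by omega⟩
  have h := map_add_eq_sum_add_integral_iteratedFDeriv (f := f) (x := 0) (y := z) (n := m)
    (fun t _ => (f.smooth _).contDiffAt)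
  rw [zero_add] at h
  rw [h, add_sub_cancel_left, norm_smul, norm_inv]
  have hS0 : 0 ≤ S := (norm_nonneg _).trans (hS 0 (by simp))
  have h1 : ‖∫ t in (0 : ℝ)..1, (1 - t) ^ m • iteratedFDeriv ℝ (m + 1) f (0 + t • z)
      (fun _ => z)‖ ≤ S * ‖z‖ ^ (m + 1) * |(1 : ℝ) - 0| := by
    apply intervalIntegral.norm_integral_le_of_norm_le_const
    intro t ht
    rw [uIoc_of_le zero_le_one] at ht
    rw [norm_smul, zero_add]
    have h2 : ‖(1 - t) ^ m‖ ≤ 1 := by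
      rw [norm_pow]
      apply pow_le_one₀ (norm_nonneg _)
      rw [Real.norm_of_nonneg (by linarith [ht.2])]
      linarith [ht.1]
    have h3 : ‖iteratedFDeriv ℝ (m + 1) f (t • z) (fun _ => z)‖ ≤ S * ‖z‖ ^ (m + 1) := by
      refine (ContinuousMultilinearMap.le_opNorm _ _).trans ?_
      rw [Finset.prod_const, Finset.card_univ, Fintype.card_fin]
      gcongr
      exact hS t ⟨ht.1.le, ht.2⟩
    calc ‖(1 - t) ^ m‖ * ‖iteratedFDeriv ℝ (m + 1) f (t • z) (fun _ => z)‖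
        ≤ 1 * (S * ‖z‖ ^ (m + 1)) := by gcongr
      _ = _ := one_mul _
  have h4 : ‖((m.factorial : ℝ))‖⁻¹ ≤ 1 := by
    rw [Real.norm_of_nonneg (by positivity)]
    apply inv_le_one_of_one_le₀
    exact_mod_cast Nat.factorial_pos m
  calc ‖((m.factorial : ℝ))‖⁻¹ * ‖∫ t in (0 : ℝ)..1, (1 - t) ^ m •
        iteratedFDeriv ℝ (m + 1) f (0 + t • z) (fun _ => z)‖
      ≤ 1 * (S * ‖z‖ ^ (m + 1) * |(1 : ℝ) - 0|) := by gcongr
    _ = S * ‖z‖ ^ (m + 1) := by simp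

/-- decay of `∫ F · Γ_r(y - ·)` for `F` with vanishing moments -/
theorem moment_decay (Γ F : 𝓢(Eu n, ℂ)) {M : ℕ} (hM : 1 ≤ M) {A : ℝ} (hA : 0 ≤ A)
    (hsupp : ∀ z, A < ‖z‖ → F z = 0)
    (hmom : ∀ γ ∈ mIdx n M, ∫ z, F z * ((mono γ z : ℝ) : ℂ) = 0) (N : ℕ) :
    ∃ C : ℝ, 0 ≤ C ∧ ∀ (y : Eu n) (r : ℝ), 0 < r → (2 * A ≤ ‖y‖ ∨ 1 ≤ r) →
      ‖∫ z, F z * dil Γ r y z‖ * (1 + ‖y‖ / r) ^ N ≤ C * ((r ^ n)⁻¹ * r⁻¹ ^ M) := by
  have hFs : HasCompactSupport F := by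
    apply HasCompactSupport.intro (isCompact_closedBall (0 : Eu n) A)
    intro z hz
    apply hsupp
    rw [Metric.mem_closedBall, not_le, dist_zero_right] at hz
    exact hz
  set S0 : ℝ := 2 ^ N * (Finset.Iic (N, M)).sup
    (fun m => SchwartzMap.seminorm ℝ m.1 m.2) Γ with hS0
  have hS00 : 0 ≤ S0 := by positivity
  have hΓ : ∀ w, (1 + ‖w‖) ^ N * ‖iteratedFDeriv ℝ M Γ w‖ ≤ S0 := fun w =>
    SchwartzMap.one_add_le_sup_seminorm_apply (𝕜 := ℝ) (m := (N, M)) le_rfl le_rfl Γ w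
  set κ : ℝ := 2 + A with hκ
  have hκ1 : 1 ≤ κ := by linarith
  refine ⟨(∫ z, ‖F z‖) * (A ^ M * (S0 * κ ^ N)), by positivity, ?_⟩
  intro y r hr hyr
  have hrn : 0 < r ^ n := pow_pos hr n
  -- comparison of distances
  have hcomp : ∀ z : Eu n, ‖z‖ ≤ A → ∀ t ∈ Icc (0 : ℝ) 1,
      1 + ‖y‖ / r ≤ κ * (1 + ‖r⁻¹ • (y - t • z)‖) := by
    intro z hz t ht
    have h1 : ‖t • z‖ ≤ A := by
      rw [norm_smul, Real.norm_of_nonneg ht.1]
      calc t * ‖z‖ ≤ 1 * A := by gcongr; exact ht.2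
        _ = A := one_mul A
    have h2 : ‖y‖ ≤ ‖y - t • z‖ + A := by
      have := norm_add_le (y - t • z) (t • z)
      rw [sub_add_cancel] at this
      linarith
    rw [norm_smul, norm_inv, Real.norm_of_nonneg hr.le]
    have hd : ‖y‖ / r = r⁻¹ * ‖y‖ := by rw [div_eq_inv_mul]
    rw [hd]
    have hri : 0 < r⁻¹ := inv_pos.mpr hr
    have hyz : 0 ≤ r⁻¹ * ‖y - t • z‖ := by positivity
    rcases hyr with h | h
    · have h3 : ‖y‖ ≤ 2 * ‖y - t • z‖ := by linarith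
      have h4 : r⁻¹ * ‖y‖ ≤ r⁻¹ * (2 * ‖y - t • z‖) := by gcongr
      nlinarith
    · have h3 : r⁻¹ ≤ 1 := inv_le_one_of_one_le₀ h
      have h4 : r⁻¹ * ‖y‖ ≤ r⁻¹ * (‖y - t • z‖ + A) := by gcongr
      have h5 : r⁻¹ * A ≤ 1 * A := by gcongr
      nlinarith
  have hyr0 : 0 ≤ ‖y‖ / r := by positivity
  set f := dil Γ r y with hf
  -- Taylor remainder
  have hrem : ∀ z : Eu n, ‖z‖ ≤ A →
      ‖f z - ∑ k ∈ Finset.range M, ((k.factorial : ℝ)⁻¹) • iteratedFDeriv ℝ k f 0 (fun _ => z)‖ *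
        (1 + ‖y‖ / r) ^ N ≤ A ^ M * (S0 * κ ^ N) * ((r ^ n)⁻¹ * r⁻¹ ^ M) := by
    intro z hz
    have hS : ∀ t ∈ Icc (0 : ℝ) 1, ‖iteratedFDeriv ℝ M f (t • z)‖ ≤
        ((r ^ n)⁻¹ * r⁻¹ ^ M) * (S0 * κ ^ N / (1 + ‖y‖ / r) ^ N) := by
      intro t ht
      refine (norm_iteratedFDeriv_dil_le Γ hr y (t • z) M).trans ?_
      rw [mul_assoc]
      gcongr
      rw [le_div_iff₀ (by positivity)]
      have h1 := hcomp z hz t ht
      have h2 := hΓ (r⁻¹ • (y - t • z))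
      calc ‖iteratedFDeriv ℝ M Γ (r⁻¹ • (y - t • z))‖ * (1 + ‖y‖ / r) ^ N
          ≤ ‖iteratedFDeriv ℝ M Γ (r⁻¹ • (y - t • z))‖ *
            (κ * (1 + ‖r⁻¹ • (y - t • z)‖)) ^ N := by gcongr
        _ = ((1 + ‖r⁻¹ • (y - t • z)‖) ^ N *
            ‖iteratedFDeriv ℝ M Γ (r⁻¹ • (y - t • z))‖) * κ ^ N := by rw [mul_pow]; ring
        _ ≤ S0 * κ ^ N := by gcongr
    have h3 := taylor_bound f hM z hS
    have hpos : 0 < (1 + ‖y‖ / r) ^ N := by positivity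
    calc _ ≤ (((r ^ n)⁻¹ * r⁻¹ ^ M) * (S0 * κ ^ N / (1 + ‖y‖ / r) ^ N) * ‖z‖ ^ M) *
          (1 + ‖y‖ / r) ^ N := by gcongr
      _ = ((r ^ n)⁻¹ * r⁻¹ ^ M) * (S0 * κ ^ N) * ‖z‖ ^ M := by
          field_simp
      _ ≤ ((r ^ n)⁻¹ * r⁻¹ ^ M) * (S0 * κ ^ N) * A ^ M := by gcongr
      _ = _ := by ring
  -- the polynomial part integrates to zero
  obtain ⟨P, hP⟩ : ∃ P : ℕ → Eu n → ℂ, ∀ k z, P k z = iteratedFDeriv ℝ k f 0 (fun _ => z) :=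
    ⟨_, fun _ _ => rfl⟩
  have hPc : ∀ k, Continuous (P k) := by
    intro k
    have h1 : P k = fun z => iteratedFDeriv ℝ k f 0 (fun _ => z) := funext (hP k)
    rw [h1]
    exact (iteratedFDeriv ℝ k f 0).cont.comp (continuous_pi fun _ => continuous_id)
  have hPm : ∀ k, k < M → ∫ z, F z * P k z = 0 := by
    intro k hk
    have h1 := multilinear_moment hk (iteratedFDeriv ℝ k f 0) F.continuous hFs hmom
    rw [← h1]
    congr 1
    funext z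
    rw [hP]
  simp only [← hP] at hrem
  clear hP
  obtain ⟨R, hR⟩ : ∃ R : Eu n → ℂ, ∀ z, R z = ∑ k ∈ Finset.range M,
    ((k.factorial : ℝ)⁻¹) • P k z := ⟨_, fun _ => rfl⟩
  have hRc : Continuous R := by
    have h1 : R = fun z => ∑ k ∈ Finset.range M, ((k.factorial : ℝ)⁻¹) • P k z := funext hR
    rw [h1]
    apply continuous_finsetSum
    intro k _
    exact (hPc k).const_smul ((k.factorial : ℝ)⁻¹)
  have hpoly : ∫ z, F z * R z = 0 := by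
    simp_rw [hR, Finset.mul_sum]
    rw [integral_finsetSum]
    · refine Finset.sum_eq_zero fun k hk => ?_
      have h2 : ∀ z : Eu n, F z * ((k.factorial : ℝ)⁻¹) • P k z =
          (((k.factorial : ℝ)⁻¹ : ℝ) : ℂ) * (F z * P k z) := by
        intro z
        rw [Complex.real_smul]; ring
      simp_rw [h2]
      rw [integral_const_mul, hPm k (Finset.mem_range.mp hk), mul_zero]
    · intro k _
      have hc : Continuous (fun z => F z * ((k.factorial : ℝ)⁻¹) • P k z) :=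
        F.continuous.mul ((hPc k).const_smul ((k.factorial : ℝ)⁻¹))
      exact hc.integrable_of_hasCompactSupport hFs.mul_right
  simp only [← hR] at hrem
  have hint1 : Integrable (fun z => F z * f z) :=
    (F.continuous.mul f.continuous).integrable_of_hasCompactSupport hFs.mul_right
  have hint2 : Integrable (fun z => F z * R z) :=
    (F.continuous.mul hRc).integrable_of_hasCompactSupport hFs.mul_right
  have hsplit : ∫ z, F z * f z = ∫ z, F z * (f z - R z) := by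
    simp_rw [mul_sub]
    rw [integral_sub hint1 hint2, hpoly, sub_zero]
  rw [hsplit]
  have hposN : 0 < (1 + ‖y‖ / r) ^ N := by positivity
  rw [← le_div_iff₀ hposN]
  have hb : ∀ z : Eu n, ‖F z * (f z - R z)‖ ≤
      ‖F z‖ * (A ^ M * (S0 * κ ^ N) * ((r ^ n)⁻¹ * r⁻¹ ^ M) / (1 + ‖y‖ / r) ^ N) := by
    intro z
    rw [norm_mul]
    by_cases hz : ‖z‖ ≤ A
    · gcongr
      rw [le_div_iff₀ hposN]
      exact hrem z hz
    · push Not at hz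
      rw [hsupp z hz]; simp
  refine (norm_integral_le_of_norm_le (F.integrable.norm.mul_const _)
    (Eventually.of_forall hb)).trans (le_of_eq ?_)
  rw [integral_mul_const]
  ring

end Pool.Agent.Work.MP_4ab57e_an
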