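import Mathlib

/-!
# Definitions for MP_4ab57e_an

Hausdorff content, the real Hardy spaces `H^p(ℝⁿ)` (through the nontangential maximal function of
the heat extension), Riesz potentials, and the capacities `cap_{α,p}`.
-/

set_option autoImplicit false

namespace Pool.Agent.Work.MP_4ab57e_an

open MeasureTheory FourierTransform SchwartzMap
open scoped ENNReal

/-- Euclidean space `ℝⁿ`. -/
abbrev Eu (n : ℕ) : Type := EuclideanSpace ℝ (Fin n)

/-- Complex-valued Schwartz functions on `ℝⁿ`. -/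
abbrev Sch (n : ℕ) : Type := 𝓢(Eu n, ℂ)

/-- Tempered distributions on `ℝⁿ`. -/
abbrev TD (n : ℕ) : Type := 𝓢'(Eu n, ℂ)

/-- The value `ψ(z)` of a Schwartz function. -/
noncomputable abbrev Sch.at {n : ℕ} (ψ : Sch n) (z : Eu n) : ℂ := ψ z

/-- The pairing `⟨u, φ⟩` of a tempered distribution with a Schwartz function. -/
noncomputable abbrev TD.app {n : ℕ} (u : TD n) (φ : Sch n) : ℂ := u φ

/-- The Fourier transform of a tempered distribution. -/
noncomputable abbrev TD.ft {n : ℕ} (u : TD n) : TD n := 𝓕 u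

/-- Integrability over `ℝⁿ` (Lebesgue measure). -/
abbrev Intble {n : ℕ} (f : Eu n → ℂ) : Prop := Integrable f

/-- The Lebesgue integral over `ℝⁿ`. -/
noncomputable abbrev integ {n : ℕ} (f : Eu n → ℂ) : ℂ := ∫ x, f x

/-- The Hausdorff content `H^d_∞(K)`: the infimum of `∑ rᵢ ^ d` over all countable covers of `K` by
balls `B(cᵢ, rᵢ)` (balls with `rᵢ ≤ 0` are empty and contribute `0`, so finite covers are
included). -/
noncomputable def hContent {n : ℕ} (d : ℝ) (K : Set (Eu n)) : ℝ≥0∞ :=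
  ⨅ (c : ℕ → Eu n) (r : ℕ → ℝ) (_ : K ⊆ ⋃ i, Metric.ball (c i) (r i)),
    ∑' i, ENNReal.ofReal (r i) ^ d

/-- The Schwartz function `ψ` is the Gauss–Weierstrass (heat) kernel at scale `t` centred at `y`,
`ψ(z) = t⁻ⁿ exp (-π ‖y - z‖² / t²)`. -/
def IsHeatKernel {n : ℕ} (t : ℝ) (y : Eu n) (ψ : Sch n) : Prop :=
  ∀ z : Eu n, ψ.at z = (((t ^ n)⁻¹ * Real.exp (-Real.pi * (‖y - z‖ ^ 2 / t ^ 2)) : ℝ) : ℂ)

/-- The nontangential maximal function of the heat extension of a tempered distribution `h`: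
the supremum over `t > 0` and `‖y - x‖ < t` of `|(h * W_t)(y)|`, where `(h * W_t)(y)` is `h` applied
to the heat kernel at scale `t` centred at `y`. -/
noncomputable def heatMax {n : ℕ} (h : TD n) (x : Eu n) : ℝ≥0∞ :=
  ⨆ (t : ℝ) (_ : 0 < t) (y : Eu n) (_ : ‖y - x‖ < t) (ψ : Sch n) (_ : IsHeatKernel t y ψ),
    ‖h.app ψ‖ₑ

/-- The `p`-th power `‖h‖_{H^p}^p` of the Hardy space quasi-norm of a tempered distribution `h`:
the integral of the `p`-th power of the nontangential maximal function (`∞` if `h ∉ H^p`). -/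
noncomputable def hardyPow {n : ℕ} (p : ℝ) (h : TD n) : ℝ≥0∞ :=
  ∫⁻ x : Eu n, heatMax h x ^ p

/-- The tempered distribution `u` is the function `H`: `⟨u, φ⟩ = ∫ φ H` for all Schwartz `φ`. -/
def IsFun {n : ℕ} (u : TD n) (H : Eu n → ℂ) : Prop :=
  ∀ φ : Sch n, Intble (fun ξ => φ.at ξ * H ξ) ∧ u.app φ = integ fun ξ => φ.at ξ * H ξ

/-- `u = I_α h`: the Fourier transform of `h` is a function `H` and the Fourier transform of `u` is
the function `|ξ|^{-α} H(ξ)`. -/
def IsRieszPotential {n : ℕ} (α : ℝ) (h u : TD n) : Prop :=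
  ∃ H : Eu n → ℂ, IsFun h.ft H ∧ IsFun u.ft fun ξ => ((‖ξ‖ ^ (-α) : ℝ) : ℂ) * H ξ

/-- `h` is admissible for `K`: `I_α h` is a locally integrable (real-valued) function `g` with
`g ≥ 1` a.e. on an open set containing `K`. -/
def Admissible {n : ℕ} (α : ℝ) (K : Set (Eu n)) (h : TD n) : Prop :=
  ∃ (u : TD n) (g : Eu n → ℝ),
    IsRieszPotential α h u ∧ LocallyIntegrable g ∧
    (∀ φ : Sch n, HasCompactSupport φ.at → u.app φ = integ fun x => φ.at x * (g x : ℂ)) ∧
    ∃ U : Set (Eu n), IsOpen U ∧ K ⊆ U ∧ ∀ᵐ x : Eu n, x ∈ U → 1 ≤ g x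

/-- The capacity `cap_{α,p}(K)`: the infimum of `‖h‖_{H^p}^p` over all `h` admissible for `K`. -/
noncomputable def rieszCap {n : ℕ} (α p : ℝ) (K : Set (Eu n)) : ℝ≥0∞ :=
  ⨅ (h : TD n) (_ : Admissible α K h), hardyPow p h

end Pool.Agent.Work.MP_4ab57e_an
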