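import Pool.Agent.Work.MP_4ab57e_an.Defs

/-!
Dyadic cubes in `ℝⁿ`.
-/

set_option autoImplicit false

namespace Pool.Agent.Work.MP_4ab57e_an

open MeasureTheory Set
open scoped ENNReal

variable {n : ℕ}

/-- index of the dyadic cube of side `2 ^ k` containing `x` -/
noncomputable def idx (k : ℤ) (x : Eu n) : Fin n → ℤ := fun i => ⌊x i / 2 ^ k⌋

/-- the dyadic cube of level `k` and index `m` -/
def cube (k : ℤ) (m : Fin n → ℤ) : Set (Eu n) := {x | idx k x = m}

/-- index of the parent cube -/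
def par (m : Fin n → ℤ) : Fin n → ℤ := fun i => m i / 2

lemma two_zpow_pos (k : ℤ) : (0 : ℝ) < 2 ^ k := zpow_pos (by norm_num) k

lemma mem_cube {k : ℤ} {m : Fin n → ℤ} {x : Eu n} :
    x ∈ cube k m ↔ ∀ i, (m i : ℝ) * 2 ^ k ≤ x i ∧ x i < ((m i : ℝ) + 1) * 2 ^ k := by
  unfold cube idx
  rw [Set.mem_ofPred_eq, funext_iff]
  refine forall_congr' fun i => ?_
  have h := two_zpow_pos k
  rw [Int.floor_eq_iff, le_div_iff₀ h, div_lt_iff₀ h]

lemma mem_cube_idx (k : ℤ) (x : Eu n) : x ∈ cube k (idx k x) := rfl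

lemma idx_succ (k : ℤ) (x : Eu n) : idx (k + 1) x = par (idx k x) := by
  funext i
  unfold idx par
  have h : x i / 2 ^ (k + 1) = (x i / 2 ^ k) / ((2 : ℕ) : ℝ) := by
    rw [zpow_add₀ (by norm_num : (2 : ℝ) ≠ 0), zpow_one]
    push_cast
    rw [div_div]
  rw [h, Int.floor_div_natCast]
  norm_num

lemma idx_eq_of_le {k k' : ℤ} (hk : k ≤ k') {x y : Eu n} (h : idx k x = idx k y) :
    idx k' x = idx k' y := by
  obtain ⟨j, rfl⟩ := Int.le.dest hk
  induction j with
  | zero => simpa using h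
  | succ j ih =>
    have h1 : k + ((j + 1 : ℕ) : ℤ) = (k + j) + 1 := by push_cast; ring
    rw [h1, idx_succ, idx_succ, ih (by omega)]

lemma cube_subset_or_disjoint {k k' : ℤ} (hk : k ≤ k') (m m' : Fin n → ℤ) :
    cube k m ⊆ cube k' m' ∨ Disjoint (cube k m) (cube k' m') := by
  by_cases h : ∃ x, x ∈ cube k m ∧ x ∈ cube k' m'
  · left
    obtain ⟨x, hx, hx'⟩ := h
    intro y hy
    have h1 : idx k x = idx k y := by rw [show idx k x = m from hx, show idx k y = m from hy]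
    have h2 := idx_eq_of_le hk h1
    show idx k' y = m'
    rw [← h2]; exact hx'
  · right
    rw [Set.disjoint_left]
    intro x hx hx'
    exact h ⟨x, hx, hx'⟩

lemma cube_subset_par (k : ℤ) (m : Fin n → ℤ) : cube k m ⊆ cube (k + 1) (par m) := by
  intro x hx
  show idx (k + 1) x = par m
  rw [idx_succ, show idx k x = m from hx]

/-- the lower left corner of a cube -/
noncomputable def corner (k : ℤ) (m : Fin n → ℤ) : Eu n := WithLp.toLp 2 fun i => (m i : ℝ) * 2 ^ k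

lemma corner_apply (k : ℤ) (m : Fin n → ℤ) (i : Fin n) : corner k m i = (m i : ℝ) * 2 ^ k := rfl

lemma corner_mem (k : ℤ) (m : Fin n → ℤ) : corner k m ∈ cube k m := by
  rw [mem_cube]
  intro i
  rw [corner_apply]
  have h := two_zpow_pos k
  constructor
  · exact le_rfl
  · nlinarith

lemma cube_nonempty (k : ℤ) (m : Fin n → ℤ) : (cube k m).Nonempty := ⟨_, corner_mem k m⟩

lemma measurableSet_cube (k : ℤ) (m : Fin n → ℤ) : MeasurableSet (cube k m) := by
  have h : cube k m = ⋂ i : Fin n, {x : Eu n | (m i : ℝ) * 2 ^ k ≤ x i ∧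
      x i < ((m i : ℝ) + 1) * 2 ^ k} := by
    ext x
    rw [mem_cube, mem_iInter]
    rfl
  rw [h]
  refine MeasurableSet.iInter fun i => ?_
  have hm : Measurable (fun x : Eu n => x i) :=
    (EuclideanSpace.proj (𝕜 := ℝ) i).continuous.measurable
  exact (measurableSet_le measurable_const hm).inter (measurableSet_lt hm measurable_const)

lemma volume_cube (k : ℤ) (m : Fin n → ℤ) :
    volume (cube k m) = ENNReal.ofReal (2 ^ k) ^ n := by
  have h : cube k m = (MeasurableEquiv.toLp 2 (Fin n → ℝ)).symm ⁻¹'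
      (Set.pi univ fun i : Fin n => Ico ((m i : ℝ) * 2 ^ k) (((m i : ℝ) + 1) * 2 ^ k)) := by
    ext x
    rw [mem_cube, Set.mem_preimage, Set.mem_univ_pi]
    rfl
  rw [h, (EuclideanSpace.volume_preserving_symm_measurableEquiv_toLp (Fin n)).measure_preimage]
  · rw [Real.volume_pi_Ico]
    have : ∀ i : Fin n, ((m i : ℝ) + 1) * 2 ^ k - (m i : ℝ) * 2 ^ k = 2 ^ k := fun i => by ring
    simp only [this, Finset.prod_const, Finset.card_univ, Fintype.card_fin]
  · exact (MeasurableSet.univ_pi fun i => measurableSet_Ico).nullMeasurableSet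

lemma norm_le_sum (x : Eu n) : ‖x‖ ≤ ∑ i, |x i| := by
  rw [EuclideanSpace.norm_eq]
  apply Real.sqrt_le_iff.mpr
  refine ⟨Finset.sum_nonneg fun i _ => abs_nonneg _, ?_⟩
  calc ∑ i, ‖x i‖ ^ 2 = ∑ i, |x i| ^ 2 := rfl
    _ ≤ (∑ i, |x i|) ^ 2 := Finset.sum_sq_le_sq_sum_of_nonneg fun i _ => abs_nonneg _

lemma abs_sub_lt_of_mem_cube {k : ℤ} {m : Fin n → ℤ} {x y : Eu n} (hx : x ∈ cube k m)
    (hy : y ∈ cube k m) (i : Fin n) : |x i - y i| < 2 ^ k := by
  rw [mem_cube] at hx hy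
  obtain ⟨h1, h2⟩ := hx i
  obtain ⟨h3, h4⟩ := hy i
  rw [abs_lt]
  constructor <;> nlinarith

lemma norm_sub_lt_of_mem_cube {k : ℤ} {m : Fin n → ℤ} {x y : Eu n} (hx : x ∈ cube k m)
    (hy : y ∈ cube k m) : ‖x - y‖ < (n + 1) * 2 ^ k := by
  have h1 : ‖x - y‖ ≤ ∑ i : Fin n, |(x - y) i| := norm_le_sum _
  have h2 : ∑ i : Fin n, |(x - y) i| ≤ ∑ _i : Fin n, (2 : ℝ) ^ k :=
    Finset.sum_le_sum fun i _ => (abs_sub_lt_of_mem_cube hx hy i).le
  rw [Finset.sum_const, Finset.card_univ, Fintype.card_fin, nsmul_eq_mul] at h2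
  have := two_zpow_pos k
  linarith

lemma cube_subset_ball {k : ℤ} {m : Fin n → ℤ} {x : Eu n} (hx : x ∈ cube k m) :
    cube k m ⊆ Metric.ball x ((n + 1) * 2 ^ k) := by
  intro y hy
  rw [Metric.mem_ball, dist_eq_norm]
  exact norm_sub_lt_of_mem_cube hy hx

end Pool.Agent.Work.MP_4ab57e_an
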