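import Pool.Agent.Work.MP_4ab57e_an.Defs

/-!
The Gaussian as a Schwartz function, dilations of Schwartz functions, and their Fourier transforms.
-/

set_option autoImplicit false

namespace Pool.Agent.Work.MP_4ab57e_an

open MeasureTheory FourierTransform SchwartzMap Real
open scoped ENNReal NNReal ContDiff

variable {n : ℕ}

lemma one_add_pow_mul_exp_le (m : ℕ) {u : ℝ} (hu : 0 ≤ u) :
    (1 + u) ^ m * Real.exp (-Real.pi * u ^ 2) ≤ Real.exp ((m : ℝ) ^ 2) := by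
  have h1 : (1 + u) ^ m ≤ Real.exp (m * u) := by
    rw [Real.exp_nat_mul]
    exact pow_le_pow_left₀ (by linarith) (by linarith [Real.add_one_le_exp u]) m
  have hpi : 3 < Real.pi := Real.pi_gt_three
  calc (1 + u) ^ m * Real.exp (-Real.pi * u ^ 2)
      ≤ Real.exp (m * u) * Real.exp (-Real.pi * u ^ 2) := by gcongr
    _ = Real.exp (m * u + -Real.pi * u ^ 2) := (Real.exp_add _ _).symm
    _ ≤ Real.exp ((m : ℝ) ^ 2) := by
        apply Real.exp_le_exp.mpr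
        nlinarith [sq_nonneg ((m : ℝ) - u / 2), sq_nonneg (m : ℝ), sq_nonneg u,
          mul_nonneg (sub_nonneg.mpr hpi.le) (sq_nonneg u)]

/-- the real Gaussian -/
noncomputable def gaussR (x : Eu n) : ℝ := Real.exp (-Real.pi * ‖x‖ ^ 2)

lemma contDiff_gaussR : ContDiff ℝ ∞ (gaussR : Eu n → ℝ) := by
  unfold gaussR
  exact Real.contDiff_exp.comp (contDiff_const.mul (contDiff_norm_sq ℝ))

lemma gaussR_decay (k l : ℕ) : ∃ C : ℝ, ∀ x : Eu n,
    ‖x‖ ^ k * ‖iteratedFDeriv ℝ l (gaussR : Eu n → ℝ) x‖ ≤ C := by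
  obtain ⟨k', C, hC0, hC⟩ :=
    (Function.hasTemperateGrowth_norm_sq (H := Eu n)).norm_iteratedFDeriv_le_uniform l
  set g : ℝ → ℝ := fun u => Real.exp (-Real.pi * u) with hg
  have hgc : ContDiff ℝ ∞ g := Real.contDiff_exp.comp (contDiff_const.mul contDiff_id)
  have hcomp : (gaussR : Eu n → ℝ) = g ∘ fun x => ‖x‖ ^ 2 := rfl
  have hpi : 3 < Real.pi := Real.pi_gt_three
  refine ⟨(l.factorial : ℝ) * Real.pi ^ l * (1 + C) ^ l * Real.exp (((k + k' * l : ℕ) : ℝ) ^ 2), fun x => ?_⟩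
  have hD : ∀ i, 1 ≤ i → i ≤ l → ‖iteratedFDeriv ℝ i (fun x : Eu n => ‖x‖ ^ 2) x‖ ≤
      ((1 + C) * (1 + ‖x‖) ^ k') ^ i := by
    intro i hi1 hi2
    have h1 := hC i hi2 x
    have h2 : C * (1 + ‖x‖) ^ k' ≤ (1 + C) * (1 + ‖x‖) ^ k' := by
      gcongr; linarith
    have h3 : (1 : ℝ) ≤ (1 + C) * (1 + ‖x‖) ^ k' := by
      have : (1 : ℝ) ≤ (1 + ‖x‖) ^ k' := one_le_pow₀ (by linarith [norm_nonneg x])
      nlinarith
    exact (h1.trans h2).trans (le_self_pow₀ h3 (by omega))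
  have hCg : ∀ i, i ≤ l → ‖iteratedFDeriv ℝ i g (‖x‖ ^ 2)‖ ≤
      Real.pi ^ l * Real.exp (-Real.pi * ‖x‖ ^ 2) := by
    intro i hi
    rw [norm_iteratedFDeriv_eq_norm_iteratedDeriv, hg, iteratedDeriv_exp_const_mul]
    simp only [norm_mul, norm_pow, norm_neg, Real.norm_eq_abs, abs_of_pos Real.pi_pos,
      Real.abs_exp]
    gcongr
    linarith
  have h := norm_iteratedFDeriv_comp_le hgc (contDiff_norm_sq ℝ) (N := ∞) (n := l)
    (by exact_mod_cast le_top) x hCg hD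
  rw [← hcomp] at h
  calc ‖x‖ ^ k * ‖iteratedFDeriv ℝ l (gaussR : Eu n → ℝ) x‖
      ≤ (1 + ‖x‖) ^ k * ((l.factorial : ℝ) * (Real.pi ^ l * Real.exp (-Real.pi * ‖x‖ ^ 2)) *
        ((1 + C) * (1 + ‖x‖) ^ k') ^ l) := by
        gcongr
        linarith
    _ = (l.factorial : ℝ) * Real.pi ^ l * (1 + C) ^ l *
        ((1 + ‖x‖) ^ (k + k' * l) * Real.exp (-Real.pi * ‖x‖ ^ 2)) := by
        rw [mul_pow, ← pow_mul, pow_add]; ring
    _ ≤ _ := by
        gcongr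
        exact one_add_pow_mul_exp_le _ (norm_nonneg x)

/-- The Gaussian `exp (-π ‖x‖²)` as a Schwartz function. -/
noncomputable def gauss (n : ℕ) : 𝓢(Eu n, ℂ) where
  toFun x := ((gaussR x : ℝ) : ℂ)
  smooth' := Complex.ofRealCLM.contDiff.comp contDiff_gaussR
  decay' := by
    intro k l
    obtain ⟨C, hC⟩ := gaussR_decay (n := n) k l
    refine ⟨C, fun x => ?_⟩
    have h1 : ‖iteratedFDeriv ℝ l (fun x : Eu n => ((gaussR x : ℝ) : ℂ)) x‖ =
        ‖iteratedFDeriv ℝ l (gaussR : Eu n → ℝ) x‖ :=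
      Complex.ofRealLI.norm_iteratedFDeriv_comp_left
        (contDiff_gaussR.contDiffAt (x := x)) (by exact_mod_cast le_top)
    rw [h1]
    exact hC x

lemma gauss_apply (x : Eu n) : gauss n x = ((Real.exp (-Real.pi * ‖x‖ ^ 2) : ℝ) : ℂ) := rfl

lemma fourier_gauss : 𝓕 (gauss n) = gauss n := by
  ext w
  rw [SchwartzMap.fourier_coe]
  have h1 : (gauss n : Eu n → ℂ) = fun v => Complex.exp (-(Real.pi : ℂ) * ‖v‖ ^ 2) := by
    funext v
    rw [gauss_apply]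
    push_cast
    rfl
  rw [h1, fourier_gaussian_innerProductSpace (by simpa using Real.pi_pos) w]
  have hpi : (Real.pi : ℂ) ≠ 0 := by exact_mod_cast Real.pi_ne_zero
  rw [div_self hpi, Complex.one_cpow, one_mul]
  congr 1
  field_simp

lemma fourierInv_gauss : 𝓕⁻ (gauss n) = gauss n := by
  conv_lhs => rw [← fourier_gauss]
  exact fourierInv_fourier_eq _

section dil

/-- the affine map `z ↦ r⁻¹ (y - z)` -/
noncomputable def affMap (r : ℝ) (y : Eu n) (z : Eu n) : Eu n := r⁻¹ • (y - z)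

lemma affMap_temperate (r : ℝ) (y : Eu n) : (affMap r y).HasTemperateGrowth := by
  unfold affMap
  have h1 : (fun z : Eu n => y - z).HasTemperateGrowth :=
    (Function.HasTemperateGrowth.const y).sub Function.HasTemperateGrowth.id'
  exact (Function.HasTemperateGrowth.const r⁻¹).smul h1

lemma affMap_antilipschitz {r : ℝ} (hr : 0 < r) (y : Eu n) :
    AntilipschitzWith ⟨r, hr.le⟩ (affMap r y) := by
  apply AntilipschitzWith.of_le_mul_dist
  intro z w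
  rw [dist_eq_norm, dist_eq_norm]
  unfold affMap
  have h1 : r⁻¹ • (y - z) - r⁻¹ • (y - w) = r⁻¹ • (w - z) := by
    rw [← smul_sub]; congr 1; abel
  rw [h1, norm_smul, norm_inv, Real.norm_of_nonneg hr.le, norm_sub_rev w z]
  show ‖z - w‖ ≤ r * (r⁻¹ * ‖z - w‖)
  rw [← mul_assoc, mul_inv_cancel₀ hr.ne', one_mul]

open Classical in
/-- `dil φ r y (z) = r⁻ⁿ φ((y - z)/r)` -/
noncomputable def dil (φ : 𝓢(Eu n, ℂ)) (r : ℝ) (y : Eu n) : 𝓢(Eu n, ℂ) :=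
  if hr : 0 < r then
    (((r ^ n)⁻¹ : ℝ) : ℂ) •
      SchwartzMap.compCLMOfAntilipschitz ℂ (affMap_temperate r y) (affMap_antilipschitz hr y) φ
  else 0

lemma dil_apply (φ : 𝓢(Eu n, ℂ)) {r : ℝ} (hr : 0 < r) (y z : Eu n) :
    dil φ r y z = (((r ^ n)⁻¹ : ℝ) : ℂ) * φ (r⁻¹ • (y - z)) := by
  unfold dil
  rw [dif_pos hr]
  rfl

lemma isHeatKernel_dil {t : ℝ} (ht : 0 < t) (y : Eu n) : IsHeatKernel t y (dil (gauss n) t y) := by
  intro z
  show dil (gauss n) t y z = _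
  rw [dil_apply _ ht, gauss_apply, ← Complex.ofReal_mul]
  congr 4
  rw [norm_smul, norm_inv, Real.norm_of_nonneg ht.le, mul_pow, inv_pow]
  ring

lemma IsHeatKernel.eq {t : ℝ} (ht : 0 < t) {y : Eu n} {ψ : 𝓢(Eu n, ℂ)} (h : IsHeatKernel t y ψ) :
    ψ = dil (gauss n) t y := by
  ext z
  exact (h z).trans (isHeatKernel_dil ht y z).symm

lemma norm_iteratedFDeriv_dil_le (φ : 𝓢(Eu n, ℂ)) {r : ℝ} (hr : 0 < r) (y z : Eu n) (j : ℕ) :
    ‖iteratedFDeriv ℝ j (dil φ r y) z‖ ≤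
      (r ^ n)⁻¹ * (r⁻¹ ^ j * ‖iteratedFDeriv ℝ j φ (r⁻¹ • (y - z))‖) := by
  -- linear part
  set L : Eu n →L[ℝ] Eu n := (-r⁻¹) • ContinuousLinearMap.id ℝ (Eu n) with hL
  set φ' : Eu n → ℂ := fun w => φ (w + r⁻¹ • y) with hφ'
  have hφ'c : ContDiff ℝ j φ' := (φ.smooth j).comp (contDiff_id.add contDiff_const)
  have h1 : (dil φ r y : Eu n → ℂ) = (((r ^ n)⁻¹ : ℝ) : ℂ) • (φ' ∘ L) := by
    funext w
    rw [dil_apply _ hr]
    show _ = (((r ^ n)⁻¹ : ℝ) : ℂ) * φ (L w + r⁻¹ • y)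
    congr 2
    rw [hL]
    simp only [FunLike.coe_smul, Pi.smul_apply, ContinuousLinearMap.coe_id', id_eq]
    rw [smul_sub, neg_smul]; abel
  rw [h1, iteratedFDeriv_const_smul_apply ((hφ'c.comp L.contDiff).contDiffAt), norm_smul]
  have h2 : iteratedFDeriv ℝ j (φ' ∘ L) z =
      (iteratedFDeriv ℝ j φ' (L z)).compContinuousLinearMap fun _ => L :=
    L.iteratedFDeriv_comp_right hφ'c z le_rfl
  rw [h2]
  have h3 : iteratedFDeriv ℝ j φ' (L z) = iteratedFDeriv ℝ j φ (r⁻¹ • (y - z)) := by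
    rw [hφ', iteratedFDeriv_comp_add_right]
    congr 1
    rw [hL]
    simp only [FunLike.coe_smul, Pi.smul_apply, ContinuousLinearMap.coe_id', id_eq]
    rw [smul_sub, neg_smul]; abel
  rw [h3]
  have h4 : ‖(((r ^ n)⁻¹ : ℝ) : ℂ)‖ = (r ^ n)⁻¹ := by
    rw [Complex.norm_real, Real.norm_of_nonneg (by positivity)]
  rw [h4]
  gcongr
  refine (ContinuousMultilinearMap.norm_compContinuousLinearMap_le _ _).trans ?_
  rw [Finset.prod_const, Finset.card_univ, Fintype.card_fin, mul_comm]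
  gcongr
  rw [hL]
  refine (norm_smul_le _ _).trans ?_
  rw [norm_neg, norm_inv, Real.norm_of_nonneg hr.le]
  exact mul_le_of_le_one_right (by positivity) ContinuousLinearMap.norm_id_le

/-- decay of the derivatives of a dilate -/
lemma dil_decay (φ : 𝓢(Eu n, ℂ)) {r : ℝ} (hr : 0 < r) (y z : Eu n) (a j : ℕ) :
    ‖y - z‖ ^ a * ‖iteratedFDeriv ℝ j (dil φ r y) z‖ ≤
      (r ^ n)⁻¹ * (r⁻¹ ^ j * (r ^ a * SchwartzMap.seminorm ℝ a j φ)) := by
  have h1 := norm_iteratedFDeriv_dil_le φ hr y z j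
  have h2 := SchwartzMap.le_seminorm ℝ a j φ (r⁻¹ • (y - z))
  have h3 : ‖y - z‖ ^ a = r ^ a * ‖r⁻¹ • (y - z)‖ ^ a := by
    rw [norm_smul, norm_inv, Real.norm_of_nonneg hr.le, ← mul_pow, ← mul_assoc,
      mul_inv_cancel₀ hr.ne', one_mul]
  calc ‖y - z‖ ^ a * ‖iteratedFDeriv ℝ j (dil φ r y) z‖
      ≤ ‖y - z‖ ^ a * ((r ^ n)⁻¹ * (r⁻¹ ^ j * ‖iteratedFDeriv ℝ j φ (r⁻¹ • (y - z))‖)) := by
        gcongr
    _ = (r ^ n)⁻¹ * (r⁻¹ ^ j * (r ^ a *
        (‖r⁻¹ • (y - z)‖ ^ a * ‖iteratedFDeriv ℝ j φ (r⁻¹ • (y - z))‖))) := by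
        rw [h3]; ring
    _ ≤ _ := by gcongr

end dil

end Pool.Agent.Work.MP_4ab57e_an
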