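import Pool.Agent.Work.MP_4ab57e_an.Decay

/-!
Pointwise decay of the nontangential maximal function of `|D|^α F`, conclusion.
-/

set_option autoImplicit false

namespace Pool.Agent.Work.MP_4ab57e_an

open MeasureTheory FourierTransform SchwartzMap Real Set Filter Topology
open scoped ENNReal NNReal RealInnerProductSpace

variable {n : ℕ}

lemma lintegral_weight {β : ℝ} (hβ : 0 < β) {N : ℕ} (hN : β < N) {X : ℝ} (hX : 0 < X) :
    ∫⁻ s in Ioi (0 : ℝ), ENNReal.ofReal (s ^ (β - 1) * ((s + X) ^ N)⁻¹) ≤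
      ENNReal.ofReal ((1 / β + 1 / (N - β)) * X ^ (β - N)) := by
  have hNβ : 0 < (N : ℝ) - β := by linarith
  have hXN : X ^ (β - N) = X ^ β * (X ^ N)⁻¹ := by
    rw [Real.rpow_sub hX, Real.rpow_natCast, div_eq_mul_inv]
  rw [← Ioc_union_Ioi_eq_Ioi hX.le]
  refine (lintegral_union_le _ _ _).trans ?_
  rw [add_mul, ENNReal.ofReal_add (by positivity) (by positivity)]
  gcongr
  · calc ∫⁻ s in Ioc 0 X, ENNReal.ofReal (s ^ (β - 1) * ((s + X) ^ N)⁻¹)
        ≤ ∫⁻ s in Ioc 0 X, ENNReal.ofReal (s ^ (β - 1)) * ENNReal.ofReal ((X ^ N)⁻¹) := by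
          apply setLIntegral_mono' measurableSet_Ioc
          intro s hs
          have hs0 : 0 < s := hs.1
          rw [← ENNReal.ofReal_mul (Real.rpow_nonneg hs0.le _)]
          apply ENNReal.ofReal_le_ofReal
          gcongr
          linarith
      _ = ENNReal.ofReal (X ^ β / β) * ENNReal.ofReal ((X ^ N)⁻¹) := by
          rw [lintegral_mul_const _ (by fun_prop), lintegral_rpow_Ioc hβ hX.le]
      _ = ENNReal.ofReal (1 / β * X ^ (β - N)) := by
          rw [← ENNReal.ofReal_mul (by positivity), hXN]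
          congr 1
          ring
  · calc ∫⁻ s in Ioi X, ENNReal.ofReal (s ^ (β - 1) * ((s + X) ^ N)⁻¹)
        ≤ ∫⁻ s in Ioi X, ENNReal.ofReal (s ^ (β - 1 - N)) := by
          apply setLIntegral_mono' measurableSet_Ioi
          intro s hs
          have hs0 : 0 < s := lt_trans hX hs
          apply ENNReal.ofReal_le_ofReal
          rw [Real.rpow_sub hs0 (β - 1), Real.rpow_natCast, div_eq_mul_inv]
          gcongr
          linarith
      _ = ENNReal.ofReal (∫ s in Ioi X, s ^ (β - 1 - N)) := by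
          rw [ofReal_integral_eq_lintegral_ofReal]
          · exact integrableOn_Ioi_rpow_of_lt (by linarith) hX
          · filter_upwards [self_mem_ae_restrict measurableSet_Ioi] with s hs
            exact Real.rpow_nonneg (lt_trans hX hs).le _
      _ = ENNReal.ofReal (1 / (N - β) * X ^ (β - N)) := by
          rw [integral_Ioi_rpow_of_lt (by linarith) hX]
          congr 1
          have e1 : β - 1 - (N : ℝ) + 1 = β - N := by ring
          rw [e1]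
          have e2 : β - (N : ℝ) = -(N - β) := by ring
          rw [div_eq_mul_inv, show (β - (N : ℝ))⁻¹ = -((N : ℝ) - β)⁻¹ by
            rw [e2, inv_neg]]
          ring

/-- Pointwise decay of the heat extension of `|D|^α F` in the cone with vertex `x`. -/
theorem hD_decay {α : ℝ} (hα : 0 < α) (hn : 1 ≤ n) (F : 𝓢(Eu n, ℂ)) {M : ℕ} (hM : 1 ≤ M) {A : ℝ}
    (hA : 0 ≤ A) (hsupp : ∀ z, A < ‖z‖ → F z = 0)
    (hmom : ∀ γ ∈ mIdx n M, ∫ z, F z * ((mono γ z : ℝ) : ℂ) = 0) :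
    ∃ C : ℝ, 0 ≤ C ∧ ∀ (x : Eu n) (t : ℝ) (y : Eu n), 0 < t → ‖y - x‖ < t →
      ‖hD α hα.le F (dil (gauss n) t y)‖ ≤ C * (1 + ‖x‖) ^ (-(n + M + α) : ℝ) := by
  set k : ℕ := ⌈α⌉₊ + 1 with hk
  set β : ℝ := 2 * k - α with hβdef
  have hαk : α ≤ k := by
    rw [hk]; push_cast
    linarith [Nat.le_ceil α]
  have hk1 : (1 : ℝ) ≤ k := by rw [hk]; push_cast; linarith [Nat.cast_nonneg (α := ℝ) ⌈α⌉₊]
  have hβ : 0 < β := by rw [hβdef]; linarith
  set N : ℕ := 2 * k + n + M with hN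
  have hNr : (N : ℝ) = 2 * k + n + M := by rw [hN]; push_cast; ring
  have hNβ : (N : ℝ) - β = n + M + α := by rw [hNr, hβdef]; ring
  have he0 : (0 : ℝ) < n + M + α := by positivity
  have hβN : β < N := by linarith
  obtain ⟨C1, hC10, hC1⟩ := moment_decay (gamK n k) F hM hA hsupp hmom N
  -- the kernel estimate
  have hJ : ∀ (y : Eu n) (r : ℝ), 0 < r → (2 * A ≤ ‖y‖ ∨ 1 ≤ r) →
      ‖((((r ^ 2) ^ k)⁻¹ : ℝ) : ℂ) * ∫ z, F z * dil (gamK n k) r y z‖ ≤
        C1 * ((r + ‖y‖) ^ N)⁻¹ := by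
    intro y r hr hyr
    have h1 := hC1 y r hr hyr
    rw [norm_mul, Complex.norm_real, Real.norm_of_nonneg (by positivity)]
    have h2 : (r + ‖y‖) ^ N = r ^ N * (1 + ‖y‖ / r) ^ N := by
      rw [← mul_pow]; congr 1; field_simp
    have h3 : r ^ N = (r ^ 2) ^ k * r ^ n * r ^ M := by
      rw [hN, pow_add, pow_add, pow_mul]
    rw [h2, h3]
    have hpos : 0 < (1 + ‖y‖ / r) ^ N := by positivity
    rw [← div_eq_mul_inv, le_div_iff₀ (by positivity)]
    calc ((r ^ 2) ^ k)⁻¹ * ‖∫ z, F z * dil (gamK n k) r y z‖ *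
          ((r ^ 2) ^ k * r ^ n * r ^ M * (1 + ‖y‖ / r) ^ N)
        = (((r ^ 2) ^ k)⁻¹ * (r ^ 2) ^ k) * (r ^ n * r ^ M) *
          (‖∫ z, F z * dil (gamK n k) r y z‖ * (1 + ‖y‖ / r) ^ N) := by ring
      _ ≤ (((r ^ 2) ^ k)⁻¹ * (r ^ 2) ^ k) * (r ^ n * r ^ M) *
          (C1 * ((r ^ n)⁻¹ * r⁻¹ ^ M)) := by gcongr
      _ = C1 := by
          rw [inv_pow]
          field_simp
  set C2 : ℝ := C1 * 2 ^ N * (1 / β + 1 / (N - β)) / cG β with hC2
  have hcG := cG_pos hβ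
  have hC20 : 0 ≤ C2 := by
    rw [hC2, hNβ]; positivity
  -- far region
  have hfar : ∀ (x : Eu n) (t : ℝ) (y : Eu n), 0 < t → ‖y - x‖ < t → 2 * A + 1 ≤ ‖x‖ →
      ‖hD α hα.le F (dil (gauss n) t y)‖ ≤ C2 * ‖x‖ ^ (-(n + M + α) : ℝ) := by
    intro x t y ht hyx hx
    have hX : 0 < ‖x‖ := by linarith
    have hxy : ‖x‖ ≤ t + ‖y‖ := by
      have := norm_sub_le y (y - x)
      rw [sub_sub_cancel] at this
      linarith
    set G : Eu n → ℂ := fun ξ => Complex.exp (((2 * π * ⟪y, ξ⟫ : ℝ) : ℂ) * Complex.I) *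
      ((Real.exp (-π * (t ^ 2 * ‖ξ‖ ^ 2)) : ℝ) : ℂ) * ((((‖ξ‖ ^ 2) ^ k : ℝ) : ℂ) * 𝓕 F ξ) with hG
    have hGm : AEStronglyMeasurable G volume := by
      apply Continuous.aestronglyMeasurable
      rw [hG]
      have c1 : Continuous fun ξ : Eu n =>
          Complex.exp (((2 * π * ⟪y, ξ⟫ : ℝ) : ℂ) * Complex.I) := by fun_prop
      have c2 : Continuous fun ξ : Eu n =>
          ((Real.exp (-π * (t ^ 2 * ‖ξ‖ ^ 2)) : ℝ) : ℂ) := by fun_prop
      have c3 : Continuous fun ξ : Eu n => (((‖ξ‖ ^ 2) ^ k : ℝ) : ℂ) := by fun_prop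
      exact (c1.mul c2).mul (c3.mul (𝓕 F).continuous)
    have hcan : ∀ ξ : Eu n, ((‖ξ‖ ^ (-β) : ℝ) : ℂ) * G ξ =
        Complex.exp (((2 * π * ⟪y, ξ⟫ : ℝ) : ℂ) * Complex.I) *
          ((Real.exp (-π * (t ^ 2 * ‖ξ‖ ^ 2)) : ℝ) : ℂ) * rH α F ξ := by
      intro ξ
      simp only [hG]
      unfold rH
      have h1 : ((‖ξ‖ ^ (-β) : ℝ) : ℂ) * (((‖ξ‖ ^ 2) ^ k : ℝ) : ℂ) = ((‖ξ‖ ^ α : ℝ) : ℂ) := by
        rw [← Complex.ofReal_mul]
        congr 1
        rcases eq_or_lt_of_le (norm_nonneg ξ) with h0 | h0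
        · rw [← h0, Real.zero_rpow (by linarith), Real.zero_rpow hα.ne', zero_mul]
        · rw [← pow_mul, ← Real.rpow_natCast, ← Real.rpow_add h0]
          congr 1
          push_cast
          rw [hβdef]; ring
      rw [← h1]; ring
    have hint : Integrable (fun ξ => ((‖ξ‖ ^ (-β) : ℝ) : ℂ) * G ξ) := by
      simp_rw [hcan]
      refine (integrable_rH hα.le F).bdd_mul (c := 1) ?_ ?_
      · apply Continuous.aestronglyMeasurable
        fun_prop
      · filter_upwards with ξ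
        exact norm_exp_heat_le t y ξ
    have hsub := subord_enorm_le hβ hn hGm hint
    simp_rw [hcan] at hsub
    rw [← hD_heat hα.le F ht y] at hsub
    -- estimate the right-hand side
    have hinner : ∀ s : ℝ, 0 < s →
        ‖∫ ξ, ((Real.exp (-π * (s ^ 2 * ‖ξ‖ ^ 2)) : ℝ) : ℂ) * G ξ‖ ≤
          C1 * 2 ^ N * ((s + ‖x‖) ^ N)⁻¹ := by
      intro s hs
      set r := Real.sqrt (s ^ 2 + t ^ 2) with hr
      have hr0 : 0 < r := Real.sqrt_pos.mpr (by positivity)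
      have hr2 : r ^ 2 = s ^ 2 + t ^ 2 := Real.sq_sqrt (by positivity)
      have h1 : ∫ ξ, ((Real.exp (-π * (s ^ 2 * ‖ξ‖ ^ 2)) : ℝ) : ℂ) * G ξ =
          ((((r ^ 2) ^ k)⁻¹ : ℝ) : ℂ) * ∫ z, F z * dil (gamK n k) r y z := by
        rw [← freq_eq_space k F hr0 y]
        congr 1
        funext ξ
        simp only [hG]
        have h2 : ((Real.exp (-π * (r ^ 2 * ‖ξ‖ ^ 2)) : ℝ) : ℂ) =
            ((Real.exp (-π * (s ^ 2 * ‖ξ‖ ^ 2)) : ℝ) : ℂ) *
              ((Real.exp (-π * (t ^ 2 * ‖ξ‖ ^ 2)) : ℝ) : ℂ) := by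
          rw [← Complex.ofReal_mul, ← Real.exp_add, hr2]
          congr 2
          ring
        rw [h2]
        generalize ((Real.exp (-π * (s ^ 2 * ‖ξ‖ ^ 2)) : ℝ) : ℂ) = u1
        generalize ((Real.exp (-π * (t ^ 2 * ‖ξ‖ ^ 2)) : ℝ) : ℂ) = u2
        ring
      rw [h1]
      have htr : t ≤ r := Real.le_sqrt_of_sq_le (by nlinarith [sq_nonneg s])
      have hst : s + t ≤ 2 * r := by
        have : (s + t) / 2 ≤ r := by
          apply Real.le_sqrt_of_sq_le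
          nlinarith [sq_nonneg (s - t), sq_nonneg s, sq_nonneg t]
        linarith
      have hyr : 2 * A ≤ ‖y‖ ∨ 1 ≤ r := by
        by_cases h : 2 * A ≤ ‖y‖
        · exact Or.inl h
        · right
          push Not at h
          linarith
      refine (hJ y r hr0 hyr).trans ?_
      rw [mul_assoc]
      gcongr
      have h3 : (s + ‖x‖) / 2 ≤ r + ‖y‖ := by
        have := norm_nonneg y
        linarith
      have h4 : ((s + ‖x‖) / 2) ^ N ≤ (r + ‖y‖) ^ N := by gcongr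
      rw [div_pow] at h4
      have h5 : 0 < (s + ‖x‖) ^ N / 2 ^ N := by positivity
      calc ((r + ‖y‖) ^ N)⁻¹ ≤ ((s + ‖x‖) ^ N / 2 ^ N)⁻¹ := inv_anti₀ h5 h4
        _ = 2 ^ N * ((s + ‖x‖) ^ N)⁻¹ := by rw [inv_div, div_eq_mul_inv]
    have hR : ∫⁻ s in Ioi (0 : ℝ), ENNReal.ofReal (s ^ (β - 1)) *
        ‖∫ ξ, ((Real.exp (-π * (s ^ 2 * ‖ξ‖ ^ 2)) : ℝ) : ℂ) * G ξ‖ₑ ≤
        ENNReal.ofReal (C1 * 2 ^ N) *
          ENNReal.ofReal ((1 / β + 1 / (N - β)) * ‖x‖ ^ (β - N)) := by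
      calc ∫⁻ s in Ioi (0 : ℝ), ENNReal.ofReal (s ^ (β - 1)) *
            ‖∫ ξ, ((Real.exp (-π * (s ^ 2 * ‖ξ‖ ^ 2)) : ℝ) : ℂ) * G ξ‖ₑ
          ≤ ∫⁻ s in Ioi (0 : ℝ), ENNReal.ofReal (C1 * 2 ^ N) *
            ENNReal.ofReal (s ^ (β - 1) * ((s + ‖x‖) ^ N)⁻¹) := by
            apply setLIntegral_mono' measurableSet_Ioi
            intro s hs
            have hs0 : 0 < s := hs
            rw [← ofReal_norm, ← ENNReal.ofReal_mul (Real.rpow_nonneg hs0.le _),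
              ← ENNReal.ofReal_mul (by positivity)]
            apply ENNReal.ofReal_le_ofReal
            have h1 := hinner s hs0
            calc s ^ (β - 1) * ‖∫ ξ, ((Real.exp (-π * (s ^ 2 * ‖ξ‖ ^ 2)) : ℝ) : ℂ) * G ξ‖
                ≤ s ^ (β - 1) * (C1 * 2 ^ N * ((s + ‖x‖) ^ N)⁻¹) := by
                  gcongr
              _ = _ := by ring
        _ = ENNReal.ofReal (C1 * 2 ^ N) * ∫⁻ s in Ioi (0 : ℝ),
            ENNReal.ofReal (s ^ (β - 1) * ((s + ‖x‖) ^ N)⁻¹) := by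
            rw [lintegral_const_mul']
            exact ENNReal.ofReal_ne_top
        _ ≤ _ := by
            gcongr
            exact lintegral_weight hβ hβN hX
    have hfin := hsub.trans hR
    rw [← ofReal_norm, ← ENNReal.ofReal_mul hcG.le, ← ENNReal.ofReal_mul (by positivity)] at hfin
    have hX0 : 0 ≤ ‖x‖ ^ (β - N) := Real.rpow_nonneg hX.le _
    have hNβ0 : 0 < (N : ℝ) - β := by linarith
    rw [ENNReal.ofReal_le_ofReal_iff (by positivity)] at hfin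
    have e1 : (-(n + M + α) : ℝ) = β - N := by linarith
    rw [e1, hC2, div_mul_eq_mul_div, le_div_iff₀ hcG]
    calc _ = cG β * ‖hD α hα.le F (dil (gauss n) t y)‖ := by ring
      _ ≤ _ := hfin
      _ = _ := by ring
  -- conclusion
  set e : ℝ := n + M + α with he
  set I : ℝ := ∫ ξ, ‖rH α F ξ‖ with hI
  have hI0 : 0 ≤ I := integral_nonneg fun _ => norm_nonneg _
  refine ⟨C2 * 2 ^ e + I * (2 * A + 2) ^ e, by positivity, ?_⟩
  intro x t y ht hyx
  have h1x : 0 < 1 + ‖x‖ := by positivity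
  by_cases hx : 2 * A + 1 ≤ ‖x‖
  · have h1 := hfar x t y ht hyx hx
    have hX : 0 < ‖x‖ := by linarith
    have h2 : ‖x‖ ^ (-e) ≤ 2 ^ e * (1 + ‖x‖) ^ (-e) := by
      have h3 : (2 * ‖x‖) ^ (-e) ≤ (1 + ‖x‖) ^ (-e) := by
        apply Real.rpow_le_rpow_of_nonpos h1x
        · linarith
        · linarith
      rw [Real.mul_rpow (by norm_num) hX.le, Real.rpow_neg (by norm_num)] at h3
      have h4 : (0 : ℝ) < 2 ^ e := by positivity
      calc ‖x‖ ^ (-e) = 2 ^ e * ((2 ^ e)⁻¹ * ‖x‖ ^ (-e)) := by field_simp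
        _ ≤ 2 ^ e * (1 + ‖x‖) ^ (-e) := by gcongr
    have h5 : 0 ≤ (1 + ‖x‖) ^ (-e) := by positivity
    calc ‖hD α hα.le F (dil (gauss n) t y)‖ ≤ C2 * ‖x‖ ^ (-e) := h1
      _ ≤ C2 * (2 ^ e * (1 + ‖x‖) ^ (-e)) := by gcongr
      _ = C2 * 2 ^ e * (1 + ‖x‖) ^ (-e) + 0 := by ring
      _ ≤ C2 * 2 ^ e * (1 + ‖x‖) ^ (-e) + I * (2 * A + 2) ^ e * (1 + ‖x‖) ^ (-e) := by
          gcongr
          positivity
      _ = _ := by ring
  · push Not at hx
    have h1 := norm_hD_heat_le hα.le F ht y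
    have h2 : 1 ≤ (2 * A + 2) ^ e * (1 + ‖x‖) ^ (-e) := by
      rw [Real.rpow_neg h1x.le, ← div_eq_mul_inv, le_div_iff₀ (by positivity), one_mul]
      apply Real.rpow_le_rpow h1x.le
      · linarith
      · exact he0.le
    have h5 : 0 ≤ (1 + ‖x‖) ^ (-e) := by positivity
    calc ‖hD α hα.le F (dil (gauss n) t y)‖ ≤ I * 1 := by rw [mul_one]; exact h1
      _ ≤ I * ((2 * A + 2) ^ e * (1 + ‖x‖) ^ (-e)) := by gcongr
      _ = 0 + I * (2 * A + 2) ^ e * (1 + ‖x‖) ^ (-e) := by ring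
      _ ≤ C2 * 2 ^ e * (1 + ‖x‖) ^ (-e) + I * (2 * A + 2) ^ e * (1 + ‖x‖) ^ (-e) := by
          gcongr
          positivity
      _ = _ := by ring

end Pool.Agent.Work.MP_4ab57e_an
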