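import Pool.Agent.Work.MP_4ab57e_an.Moments

/-!
Bump functions corrected on a small cube so as to have vanishing moments.
-/

set_option autoImplicit false

namespace Pool.Agent.Work.MP_4ab57e_an

open MeasureTheory Set
open scoped ENNReal NNReal ContDiff

variable {n : ℕ}

/-- the chosen dual functions -/
noncomputable def dualFn (n M : ℕ) : (Fin n → ℕ) → Eu n → ℝ := (exists_dual n M).choose

lemma isTest_dualFn {M : ℕ} {γ : Fin n → ℕ} (hγ : γ ∈ mIdx n M) : IsTest (dualFn n M γ) :=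
  ((exists_dual n M).choose_spec γ hγ).1

open Classical in
lemma integral_dualFn {M : ℕ} {γ γ' : Fin n → ℕ} (hγ : γ ∈ mIdx n M) (hγ' : γ' ∈ mIdx n M) :
    ∫ x, dualFn n M γ x * mono γ' x = if γ' = γ then 1 else 0 :=
  ((exists_dual n M).choose_spec γ hγ).2 γ' hγ'

/-- the basic cut-off function -/
noncomputable def bump0 (n : ℕ) : ContDiffBump (0 : Eu n) :=
  ⟨n + 1, n + 2, by positivity, by linarith⟩

lemma bump0_eq_one {z : Eu n} (hz : ‖z‖ ≤ n + 1) : bump0 n z = 1 := by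
  apply ContDiffBump.one_of_mem_closedBall
  rw [Metric.mem_closedBall, dist_zero_right]
  exact hz

lemma bump0_eq_zero {z : Eu n} (hz : (n : ℝ) + 2 ≤ ‖z‖) : bump0 n z = 0 := by
  apply ContDiffBump.zero_of_le_dist
  rw [dist_zero_right]
  exact hz

/-- coefficients of the correction -/
noncomputable def Lc (n : ℕ) (ρ : ℝ) (η : Eu n) (γ : Fin n → ℕ) : ℝ :=
  (ρ ^ n)⁻¹ * ∫ z, bump0 n (z + η) * mono γ (ρ⁻¹ • z)

/-- the corrected bump function -/
noncomputable def tmpl (n M : ℕ) (ρ : ℝ) (η : Eu n) (z : Eu n) : ℝ :=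
  bump0 n (z + η) - ∑ γ ∈ mIdx n M, Lc n ρ η γ * dualFn n M γ (ρ⁻¹ • z)

lemma contDiff_bump0_comp (η : Eu n) : ContDiff ℝ ∞ (fun z => bump0 n (z + η)) :=
  (bump0 n).contDiff.comp (contDiff_id.add contDiff_const)

lemma hasCompactSupport_bump0_comp (η : Eu n) :
    HasCompactSupport (fun z => bump0 n (z + η)) := by
  apply HasCompactSupport.intro (isCompact_closedBall (-η) (n + 2))
  intro z hz
  apply bump0_eq_zero
  rw [Metric.mem_closedBall, not_le, dist_eq_norm, sub_neg_eq_add] at hz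
  exact hz.le

lemma IsTest.contDiff_comp {θ : Eu n → ℝ} (h : IsTest θ) (ρ : ℝ) :
    ContDiff ℝ ∞ (fun z => θ (ρ⁻¹ • z)) :=
  h.1.comp (contDiff_const_smul ρ⁻¹)

lemma IsTest.hasCompactSupport_comp {θ : Eu n → ℝ} (h : IsTest θ) {ρ : ℝ} (hρ : 0 < ρ) :
    HasCompactSupport (fun z => θ (ρ⁻¹ • z)) :=
  h.2.1.comp_smul (inv_ne_zero hρ.ne')

lemma contDiff_tmpl (M : ℕ) (ρ : ℝ) (η : Eu n) : ContDiff ℝ ∞ (tmpl n M ρ η) := by
  unfold tmpl
  refine (contDiff_bump0_comp η).sub (ContDiff.sum fun γ hγ => ?_)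
  exact contDiff_const.mul ((isTest_dualFn hγ).contDiff_comp ρ)

lemma tmpl_eq_bump {M : ℕ} {ρ : ℝ} {η z : Eu n} (hz : ρ⁻¹ • z ∉ openCube n) :
    tmpl n M ρ η z = bump0 n (z + η) := by
  unfold tmpl
  rw [Finset.sum_eq_zero, sub_zero]
  intro γ hγ
  have : dualFn n M γ (ρ⁻¹ • z) = 0 := by
    apply image_eq_zero_of_notMem_tsupport
    intro h
    exact hz ((isTest_dualFn hγ).2.2 h)
  rw [this, mul_zero]

lemma norm_lt_of_mem_openCube {z : Eu n} (hz : z ∈ openCube n) : ‖z‖ ≤ n := by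
  have h1 : ‖z‖ ^ 2 ≤ (n : ℝ) ^ 2 := by
    rw [EuclideanSpace.norm_sq_eq]
    calc ∑ i, ‖z i‖ ^ 2 ≤ ∑ _i : Fin n, (1 : ℝ) := by
          refine Finset.sum_le_sum fun i _ => ?_
          obtain ⟨h0, h1⟩ := hz i
          rw [Real.norm_of_nonneg h0.le]
          nlinarith
      _ = n := by simp
      _ ≤ (n : ℝ) ^ 2 := by
          rcases Nat.eq_zero_or_pos n with h | h
          · subst h; simp
          · have : (1 : ℝ) ≤ n := by exact_mod_cast h
            nlinarith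
  exact le_of_sq_le_sq h1 (by positivity)

lemma tmpl_eq_zero {M : ℕ} {ρ : ℝ} (hρ : 0 < ρ) (hρ1 : ρ ≤ 1) {η z : Eu n}
    (hz : (n : ℝ) + 2 + ‖η‖ ≤ ‖z‖) : tmpl n M ρ η z = 0 := by
  rw [tmpl_eq_bump, bump0_eq_zero]
  · have := norm_sub_le (z + η) η
    rw [add_sub_cancel_right] at this
    linarith
  · intro h
    have h1 := norm_lt_of_mem_openCube h
    rw [norm_smul, norm_inv, Real.norm_of_nonneg hρ.le, inv_mul_le_iff₀ hρ] at h1
    have h2 : ρ * (n : ℝ) ≤ 1 * n := by gcongr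
    have h3 := norm_nonneg η
    linarith

lemma hasCompactSupport_tmpl (M : ℕ) {ρ : ℝ} (hρ : 0 < ρ) (hρ1 : ρ ≤ 1) (η : Eu n) :
    HasCompactSupport (tmpl n M ρ η) := by
  apply HasCompactSupport.intro (isCompact_closedBall (0 : Eu n) (n + 2 + ‖η‖))
  intro z hz
  apply tmpl_eq_zero hρ hρ1
  rw [Metric.mem_closedBall, not_le, dist_zero_right] at hz
  exact hz.le

lemma tmpl_nonneg {M : ℕ} {ρ : ℝ} {η z : Eu n} (hz : ρ⁻¹ • z ∉ openCube n) :
    0 ≤ tmpl n M ρ η z := by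
  rw [tmpl_eq_bump hz]
  exact (bump0 n).nonneg

lemma tmpl_eq_one {M : ℕ} {ρ : ℝ} {η z : Eu n} (hz : ρ⁻¹ • z ∉ openCube n)
    (hz' : ‖z + η‖ ≤ n + 1) : tmpl n M ρ η z = 1 := by
  rw [tmpl_eq_bump hz, bump0_eq_one hz']

lemma mono_smul (γ : Fin n → ℕ) (c : ℝ) (z : Eu n) :
    mono γ (c • z) = c ^ (∑ i, γ i) * mono γ z := by
  unfold mono
  rw [← Finset.prod_pow_eq_pow_sum, ← Finset.prod_mul_distrib]
  refine Finset.prod_congr rfl fun i _ => ?_
  show (c * z i) ^ γ i = _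
  rw [mul_pow]

open Classical in
lemma tmpl_moment {M : ℕ} {ρ : ℝ} (hρ : 0 < ρ) (η : Eu n) {γ' : Fin n → ℕ}
    (hγ' : γ' ∈ mIdx n M) : ∫ z, tmpl n M ρ η z * mono γ' z = 0 := by
  have hρn : (ρ ^ n) ≠ 0 := (pow_pos hρ n).ne'
  -- moments of scaled monomials
  have key : ∫ z, tmpl n M ρ η z * mono γ' (ρ⁻¹ • z) = 0 := by
    have hmc : Continuous (fun z : Eu n => mono γ' (ρ⁻¹ • z)) :=
      (continuous_mono γ').comp (continuous_const_smul ρ⁻¹)
    have i1 : Integrable (fun z => bump0 n (z + η) * mono γ' (ρ⁻¹ • z)) :=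
      ((contDiff_bump0_comp η).continuous.mul hmc).integrable_of_hasCompactSupport
        (hasCompactSupport_bump0_comp η).mul_right
    have i2 : ∀ γ ∈ mIdx n M, Integrable (fun z => Lc n ρ η γ * dualFn n M γ (ρ⁻¹ • z) *
        mono γ' (ρ⁻¹ • z)) := by
      intro γ hγ
      refine Continuous.integrable_of_hasCompactSupport ?_ ?_
      · exact (continuous_const.mul ((isTest_dualFn hγ).contDiff_comp ρ).continuous).mul hmc
      · exact (((isTest_dualFn hγ).hasCompactSupport_comp hρ).mul_left).mul_right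
    unfold tmpl
    simp only [sub_mul, Finset.sum_mul]
    rw [integral_sub i1 (integrable_finsetSum _ i2), integral_finsetSum _ i2]
    have h1 : ∀ γ ∈ mIdx n M, ∫ z, Lc n ρ η γ * dualFn n M γ (ρ⁻¹ • z) * mono γ' (ρ⁻¹ • z) =
        if γ' = γ then ρ ^ n * Lc n ρ η γ else 0 := by
      intro γ hγ
      have h2 : ∀ z : Eu n, Lc n ρ η γ * dualFn n M γ (ρ⁻¹ • z) * mono γ' (ρ⁻¹ • z) =
          Lc n ρ η γ * (fun w => dualFn n M γ w * mono γ' w) (ρ⁻¹ • z) := by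
        intro z; simp only; ring
      simp_rw [h2]
      rw [integral_const_mul, MeasureTheory.Measure.integral_comp_inv_smul_of_nonneg
        (volume : Measure (Eu n)) (fun w => dualFn n M γ w * mono γ' w) hρ.le,
        finrank_euclideanSpace_fin, integral_dualFn hγ hγ']
      split_ifs with h
      · simp only [smul_eq_mul, mul_one]; ring
      · simp
    rw [Finset.sum_congr rfl h1, Finset.sum_ite_eq, if_pos hγ']
    unfold Lc
    rw [← mul_assoc, mul_inv_cancel₀ hρn, one_mul, sub_self]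
  have h3 : ∀ z : Eu n, tmpl n M ρ η z * mono γ' (ρ⁻¹ • z) =
      (ρ⁻¹) ^ (∑ i, γ' i) * (tmpl n M ρ η z * mono γ' z) := by
    intro z; rw [mono_smul]; ring
  simp_rw [h3] at key
  rw [integral_const_mul] at key
  rcases mul_eq_zero.mp key with h | h
  · exact absurd h (pow_ne_zero _ (inv_ne_zero hρ.ne'))
  · exact h

lemma abs_mono_le (γ : Fin n → ℕ) (z : Eu n) {A : ℝ} (hA : ‖z‖ ≤ A) :
    |mono γ z| ≤ A ^ (∑ i, γ i) := by
  unfold mono
  rw [Finset.abs_prod, ← Finset.prod_pow_eq_pow_sum]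
  refine Finset.prod_le_prod (fun i _ => abs_nonneg _) fun i _ => ?_
  rw [abs_pow]
  gcongr
  have := PiLp.norm_apply_le z i
  exact (this.trans hA)

lemma abs_Lc_le {M : ℕ} {ρ : ℝ} (hρ : 0 < ρ) (hρ1 : ρ ≤ 1) {η : Eu n} {B : ℝ} (hB : ‖η‖ ≤ B)
    {γ : Fin n → ℕ} (hγ : γ ∈ mIdx n M) :
    |Lc n ρ η γ| ≤ (ρ ^ (n + (M - 1)))⁻¹ * ((n + 2 + B) ^ M * ∫ z, bump0 n z) := by
  have hB0 : 0 ≤ B := (norm_nonneg η).trans hB
  have hord : ∑ i, γ i ≤ M - 1 := by
    have := mem_mIdx.mp hγ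
    omega
  have hordM : ∑ i, γ i ≤ M := by omega
  have hn0 : (0 : ℝ) ≤ n := Nat.cast_nonneg n
  have hA1 : (1 : ℝ) ≤ n + 2 + B := by linarith
  unfold Lc
  have h1 : ∀ z : Eu n, bump0 n (z + η) * mono γ (ρ⁻¹ • z) =
      (ρ⁻¹) ^ (∑ i, γ i) * (bump0 n (z + η) * mono γ z) := by
    intro z; rw [mono_smul]; ring
  simp_rw [h1]
  rw [integral_const_mul, ← mul_assoc, abs_mul, abs_of_nonneg (by positivity)]
  have h2 : |∫ z, bump0 n (z + η) * mono γ z| ≤ (n + 2 + B) ^ M * ∫ z, bump0 n z := by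
    rw [← integral_add_right_eq_self (fun z => bump0 n z) η, ← integral_const_mul]
    rw [← Real.norm_eq_abs]
    refine (norm_integral_le_integral_norm _).trans ?_
    apply integral_mono
    · refine (Continuous.integrable_of_hasCompactSupport ?_ ?_).norm
      · exact (contDiff_bump0_comp η).continuous.mul (continuous_mono γ)
      · exact (hasCompactSupport_bump0_comp η).mul_right
    · refine Continuous.integrable_of_hasCompactSupport ?_ ?_
      · exact continuous_const.mul (contDiff_bump0_comp η).continuous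
      · exact (hasCompactSupport_bump0_comp η).mul_left
    · intro z
      simp only
      rw [norm_mul, Real.norm_eq_abs, Real.norm_eq_abs, abs_of_nonneg (bump0 n).nonneg]
      by_cases hz : ‖z + η‖ < n + 2
      · have h3 : ‖z‖ ≤ n + 2 + B := by
          have := norm_sub_le (z + η) η
          rw [add_sub_cancel_right] at this
          linarith
        have h4 := abs_mono_le γ z h3
        have h5 : (n + 2 + B : ℝ) ^ (∑ i, γ i) ≤ (n + 2 + B) ^ M := pow_le_pow_right₀ hA1 hordM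
        rw [mul_comm]
        gcongr
        · exact (bump0 n).nonneg
        · exact h4.trans h5
      · push Not at hz
        rw [bump0_eq_zero hz]; simp
  have h3 : (ρ ^ n)⁻¹ * ρ⁻¹ ^ (∑ i, γ i) ≤ (ρ ^ (n + (M - 1)))⁻¹ := by
    rw [inv_pow, ← mul_inv, ← pow_add]
    apply inv_anti₀ (by positivity)
    exact pow_le_pow_of_le_one hρ.le hρ1 (by omega)
  have h4 : 0 ≤ ∫ z, bump0 n z := integral_nonneg fun z => (bump0 n).nonneg
  gcongr

/-- Lower bound for the corrected bump. -/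
theorem exists_tmpl_ge (n M : ℕ) (B : ℝ) : ∃ C : ℝ, 0 < C ∧ ∀ ρ : ℝ, 0 < ρ → ρ ≤ 1 → ∀ η : Eu n,
    ‖η‖ ≤ B → ∀ z, -(C * (ρ ^ (n + (M - 1)))⁻¹) ≤ tmpl n M ρ η z := by
  have hex : ∀ γ : Fin n → ℕ, ∃ S : ℝ, 0 ≤ S ∧ (γ ∈ mIdx n M → ∀ z, |dualFn n M γ z| ≤ S) := by
    intro γ
    by_cases hγ : γ ∈ mIdx n M
    · obtain ⟨S, hS⟩ := (isTest_dualFn hγ).1.continuous.bounded_above_of_compact_support
        (isTest_dualFn hγ).2.1
      exact ⟨|S|, abs_nonneg _, fun _ z => (hS z).trans (le_abs_self S)⟩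
    · exact ⟨0, le_rfl, fun h => absurd h hγ⟩
  choose S hS0 hS using hex
  have hI : 0 ≤ ∫ z, bump0 n z := integral_nonneg fun z => (bump0 n).nonneg
  have hn0 : (0 : ℝ) ≤ n := Nat.cast_nonneg n
  refine ⟨∑ γ ∈ mIdx n M, ((n + 2 + |B|) ^ M * ∫ z, bump0 n z) * S γ + 1, ?_, ?_⟩
  · have : 0 ≤ ∑ γ ∈ mIdx n M, ((n + 2 + |B|) ^ M * ∫ z, bump0 n z) * S γ :=
      Finset.sum_nonneg fun γ _ => mul_nonneg (mul_nonneg (by positivity) hI) (hS0 γ)
    linarith
  intro ρ hρ hρ1 η hη z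
  have hη' : ‖η‖ ≤ |B| := hη.trans (le_abs_self B)
  unfold tmpl
  have h1 : ∑ γ ∈ mIdx n M, Lc n ρ η γ * dualFn n M γ (ρ⁻¹ • z) ≤
      ∑ γ ∈ mIdx n M, (ρ ^ (n + (M - 1)))⁻¹ * (((n + 2 + |B|) ^ M * ∫ z, bump0 n z) * S γ) := by
    refine Finset.sum_le_sum fun γ hγ => ?_
    refine (le_abs_self _).trans ?_
    rw [abs_mul, ← mul_assoc]
    gcongr
    · exact abs_Lc_le hρ hρ1 hη' hγ
    · exact hS γ hγ _
  rw [← Finset.mul_sum] at h1
  have h2 : 0 ≤ bump0 n (z + η) := (bump0 n).nonneg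
  have h3 : 0 ≤ (ρ ^ (n + (M - 1)))⁻¹ := by positivity
  nlinarith

end Pool.Agent.Work.MP_4ab57e_an
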