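import Pool.Agent.Work.MP_4ab57e_an.BallCover
import Pool.Agent.Work.MP_4ab57e_an.Pointwise
import Pool.Agent.Work.MP_4ab57e_an.Template

/-!
The Hardy space estimate for sums of rescaled templates.
-/

set_option autoImplicit false

namespace Pool.Agent.Work.MP_4ab57e_an

open MeasureTheory FourierTransform SchwartzMap Real Set Filter Topology
open scoped ENNReal NNReal ContDiff

variable {n : ℕ}

/-- the template as a Schwartz function -/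
noncomputable def tS (n M : ℕ) {ρ : ℝ} (hρ : 0 < ρ) (hρ1 : ρ ≤ 1) (η : Eu n) : 𝓢(Eu n, ℂ) :=
  HasCompactSupport.toSchwartzMap (f := fun z => ((tmpl n M ρ η z : ℝ) : ℂ))
    ((hasCompactSupport_tmpl M hρ hρ1 η).comp_left (g := fun t : ℝ => (t : ℂ)) (by simp))
    (Complex.ofRealCLM.contDiff.comp (contDiff_tmpl M ρ η))

lemma tS_apply (M : ℕ) {ρ : ℝ} (hρ : 0 < ρ) (hρ1 : ρ ≤ 1) (η z : Eu n) :
    tS n M hρ hρ1 η z = ((tmpl n M ρ η z : ℝ) : ℂ) := rfl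

lemma tS_decay {α : ℝ} (hα : 0 < α) (hn : 1 ≤ n) {M : ℕ} (hM : 1 ≤ M) {ρ : ℝ} (hρ : 0 < ρ)
    (hρ1 : ρ ≤ 1) (η : Eu n) :
    ∃ C : ℝ, 0 ≤ C ∧ ∀ (x : Eu n) (t : ℝ) (y : Eu n), 0 < t → ‖y - x‖ < t →
      ‖hD α hα.le (tS n M hρ hρ1 η) (dil (gauss n) t y)‖ ≤
        C * (1 + ‖x‖) ^ (-(n + M + α) : ℝ) := by
  apply hD_decay hα hn (tS n M hρ hρ1 η) hM (A := n + 2 + ‖η‖) (by positivity)
  · intro z hz
    rw [tS_apply, tmpl_eq_zero hρ hρ1 hz.le, Complex.ofReal_zero]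
  · intro γ hγ
    have h1 : ∀ z : Eu n, tS n M hρ hρ1 η z * ((mono γ z : ℝ) : ℂ) =
        ((tmpl n M ρ η z * mono γ z : ℝ) : ℂ) := by
      intro z
      rw [tS_apply, Complex.ofReal_mul]
    simp_rw [h1]
    rw [integral_complex_ofReal, tmpl_moment hρ η hγ, Complex.ofReal_zero]

lemma lintegral_comp_aff {f : Eu n → ℝ≥0∞} (hf : Measurable f) {ℓ : ℝ} (hℓ : 0 < ℓ) (y : Eu n) :
    ∫⁻ x, f (ℓ⁻¹ • (x - y)) = ENNReal.ofReal ℓ ^ n * ∫⁻ x, f x := by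
  rw [lintegral_sub_right_eq_self (fun z => f (ℓ⁻¹ • z)) y]
  have h1 := lintegral_map (μ := (volume : Measure (Eu n))) hf
    (measurable_const_smul (ℓ⁻¹ : ℝ) : Measurable fun z : Eu n => ℓ⁻¹ • z)
  rw [← h1, Measure.map_addHaar_smul volume (inv_ne_zero hℓ.ne'), lintegral_smul_measure,
    finrank_euclideanSpace_fin, smul_eq_mul, ← ENNReal.ofReal_pow hℓ.le]
  congr 2
  rw [inv_pow, inv_inv, abs_of_pos (pow_pos hℓ n)]

/-- The Hardy space estimate for sums of rescaled templates. -/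
theorem hardyPow_sum_le {α p : ℝ} (hα : 0 < α) (hp : 0 < p) (hp1 : p ≤ 1) {e : ℝ}
    {Cst : ℝ} (hC0 : 0 ≤ Cst) {ι : Type*} (T : Finset ι) (a : ι → ℝ≥0) (F : ι → 𝓢(Eu n, ℂ))
    (ℓ : ι → ℝ) (hℓ : ∀ i ∈ T, 0 < ℓ i) (y0 : ι → Eu n)
    (hF : ∀ i ∈ T, ∀ (x : Eu n) (t : ℝ) (y : Eu n), 0 < t → ‖y - x‖ < t →
      ‖hD α hα.le (F i) (dil (gauss n) t y)‖ ≤ Cst * (1 + ‖x‖) ^ (-e)) :
    hardyPow p (hD α hα.le (∑ i ∈ T, ((a i : ℝ) : ℂ) • scl (F i) (ℓ i) (y0 i))) ≤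
      (ENNReal.ofReal Cst ^ p * ∫⁻ x : Eu n, ENNReal.ofReal ((1 + ‖x‖) ^ (-(e * p)))) *
        ∑ i ∈ T, (a i : ℝ≥0∞) ^ p * ENNReal.ofReal (ℓ i) ^ ((n : ℝ) - α * p) := by
  set B : ι → Eu n → ℝ≥0∞ := fun i x =>
    ENNReal.ofReal (ℓ i ^ (-α)) * (ENNReal.ofReal Cst *
      ENNReal.ofReal ((1 + ‖(ℓ i)⁻¹ • (x - y0 i)‖) ^ (-e))) with hB
  -- pointwise bound
  have hpt : ∀ x : Eu n, heatMax (hD α hα.le (∑ i ∈ T, ((a i : ℝ) : ℂ) • scl (F i) (ℓ i) (y0 i))) x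
      ≤ ∑ i ∈ T, (a i : ℝ≥0∞) * B i x := by
    intro x
    unfold heatMax
    refine iSup_le fun t => iSup_le fun ht => iSup_le fun y => iSup_le fun hy =>
      iSup_le fun ψ => iSup_le fun hψ => ?_
    rw [hψ.eq ht]
    show ‖hD α hα.le (∑ i ∈ T, ((a i : ℝ) : ℂ) • scl (F i) (ℓ i) (y0 i)) (dil (gauss n) t y)‖ₑ ≤ _
    rw [hD_sum]
    refine (enorm_sum_le _ _).trans ?_
    refine Finset.sum_le_sum fun i hi => ?_
    have hli := hℓ i hi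
    rw [enorm_mul]
    have h1 : ‖((a i : ℝ) : ℂ)‖ₑ = (a i : ℝ≥0∞) := by
      rw [← ofReal_norm, Complex.norm_real, Real.norm_of_nonneg (NNReal.coe_nonneg (a i)), ENNReal.ofReal_coe_nnreal]
    rw [h1]
    gcongr
    rw [hD_scl hα.le (F i) hli (y0 i) ht y, enorm_mul]
    simp only [hB]
    have h2 : ‖((ℓ i ^ (-α) : ℝ) : ℂ)‖ₑ = ENNReal.ofReal (ℓ i ^ (-α)) := by
      rw [← ofReal_norm, Complex.norm_real, Real.norm_of_nonneg (Real.rpow_nonneg hli.le _)]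
    rw [h2]
    gcongr
    rw [← ofReal_norm, ← ENNReal.ofReal_mul hC0]
    apply ENNReal.ofReal_le_ofReal
    apply hF i hi _ _ _ (div_pos ht hli)
    rw [← smul_sub, sub_sub_sub_cancel_right, norm_smul, norm_inv, Real.norm_of_nonneg hli.le,
      inv_mul_eq_div]
    gcongr
  have hmeas : ∀ i, Measurable (B i) := by
    intro i
    simp only [hB]
    fun_prop
  obtain ⟨w, hwdef⟩ : ∃ w : Eu n → ℝ≥0∞, ∀ x, w x = ENNReal.ofReal ((1 + ‖x‖) ^ (-(e * p))) :=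
    ⟨_, fun _ => rfl⟩
  have hw : Measurable w := by
    have h1 : w = fun x => ENNReal.ofReal ((1 + ‖x‖) ^ (-(e * p))) := funext hwdef
    rw [h1]; fun_prop
  simp only [← hwdef]
  -- integral of one term
  have hone : ∀ i ∈ T, ∫⁻ x, B i x ^ p = (ENNReal.ofReal Cst ^ p * ∫⁻ x : Eu n, w x) *
        ENNReal.ofReal (ℓ i) ^ ((n : ℝ) - α * p) := by
    intro i hi
    have hli := hℓ i hi
    have hl0 : ENNReal.ofReal (ℓ i) ≠ 0 := by simpa using hli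
    have hlt : ENNReal.ofReal (ℓ i) ≠ ⊤ := ENNReal.ofReal_ne_top
    have h1 : ∀ x : Eu n, B i x ^ p = (ENNReal.ofReal (ℓ i) ^ (-α * p) * ENNReal.ofReal Cst ^ p) *
        w ((ℓ i)⁻¹ • (x - y0 i)) := by
      intro x
      simp only [hB, hwdef]
      rw [ENNReal.mul_rpow_of_nonneg _ _ hp.le, ENNReal.mul_rpow_of_nonneg _ _ hp.le,
        ← ENNReal.ofReal_rpow_of_pos hli, ← ENNReal.rpow_mul]
      have h2 : ENNReal.ofReal ((1 + ‖(ℓ i)⁻¹ • (x - y0 i)‖) ^ (-e)) ^ p =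
          ENNReal.ofReal ((1 + ‖(ℓ i)⁻¹ • (x - y0 i)‖) ^ (-(e * p))) := by
        have hpos : 0 < 1 + ‖(ℓ i)⁻¹ • (x - y0 i)‖ := by positivity
        rw [ENNReal.ofReal_rpow_of_pos (Real.rpow_pos_of_pos hpos _), ← Real.rpow_mul hpos.le]
        congr 2
        ring
      rw [h2]
      ring
    simp_rw [h1]
    have hm2 : Measurable (fun x : Eu n => w ((ℓ i)⁻¹ • (x - y0 i))) :=
      hw.comp ((measurable_id.sub_const (y0 i)).const_smul (ℓ i)⁻¹)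
    rw [lintegral_const_mul _ hm2, lintegral_comp_aff hw hli]
    have h3 : ENNReal.ofReal (ℓ i) ^ (-α * p) * ENNReal.ofReal (ℓ i) ^ n =
        ENNReal.ofReal (ℓ i) ^ ((n : ℝ) - α * p) := by
      rw [← ENNReal.rpow_natCast, ← ENNReal.rpow_add _ _ hl0 hlt]
      congr 1
      ring
    rw [← h3]
    ring
  unfold hardyPow
  calc ∫⁻ x, heatMax (hD α hα.le (∑ i ∈ T, ((a i : ℝ) : ℂ) • scl (F i) (ℓ i) (y0 i))) x ^ p
      ≤ ∫⁻ x, ∑ i ∈ T, (a i : ℝ≥0∞) ^ p * B i x ^ p := by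
        apply lintegral_mono
        intro x
        calc _ ≤ (∑ i ∈ T, (a i : ℝ≥0∞) * B i x) ^ p := ENNReal.rpow_le_rpow (hpt x) hp.le
          _ ≤ ∑ i ∈ T, ((a i : ℝ≥0∞) * B i x) ^ p := finset_sum_rpow_le _ _ hp hp1
          _ = ∑ i ∈ T, (a i : ℝ≥0∞) ^ p * B i x ^ p := by
              refine Finset.sum_congr rfl fun i _ => ?_
              rw [ENNReal.mul_rpow_of_nonneg _ _ hp.le]
    _ = ∑ i ∈ T, (a i : ℝ≥0∞) ^ p * ∫⁻ x, B i x ^ p := by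
        rw [lintegral_finsetSum]
        · refine Finset.sum_congr rfl fun i _ => ?_
          rw [lintegral_const_mul _ ((hmeas i).pow_const p)]
        · intro i _
          exact ((hmeas i).pow_const p).const_mul _
    _ = _ := by
        rw [Finset.mul_sum]
        refine Finset.sum_congr rfl fun i hi => ?_
        rw [hone i hi]
        ring

end Pool.Agent.Work.MP_4ab57e_an
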