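import Pool.Agent.Work.MP_4ab57e_an.HardySum

/-!
The upper bound for the capacity.
-/

set_option autoImplicit false

namespace Pool.Agent.Work.MP_4ab57e_an

open MeasureTheory FourierTransform SchwartzMap Real Set Filter Topology
open scoped ENNReal NNReal

variable {n : ℕ}

theorem exists_moment_order (hn : 1 ≤ n) {α p : ℝ} (hα : 0 < α) (hp : 0 < p) (hp1 : p < 1) :
    ∃ M : ℕ, 1 ≤ M ∧ (n : ℝ) < (n + M + α) * p ∧ p * ((n + (M - 1) : ℕ) : ℝ) < n := by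
  have hn0 : (1 : ℝ) ≤ n := by exact_mod_cast hn
  refine ⟨⌊(n : ℝ) / p - n - α⌋₊ + 1, by omega, ?_, ?_⟩
  · have h1 := Nat.lt_floor_add_one ((n : ℝ) / p - n - α)
    rw [← div_lt_iff₀ hp]
    push_cast
    linarith
  · rw [Nat.add_sub_cancel]
    push_cast
    rcases le_or_gt 0 ((n : ℝ) / p - n - α) with h | h
    · have h1 := Nat.floor_le h
      have h2 : p * ((n : ℝ) + ⌊(n : ℝ) / p - n - α⌋₊) ≤ p * ((n : ℝ) / p - α) := by
        gcongr
        linarith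
      have h3 : p * ((n : ℝ) / p - α) = n - p * α := by
        field_simp
      have h4 : 0 < p * α := by positivity
      linarith
    · have h1 : ⌊(n : ℝ) / p - n - α⌋₊ = 0 := Nat.floor_of_nonpos h.le
      rw [h1]
      push_cast
      nlinarith

theorem exists_generation {p d C1 : ℝ} (hp : 0 < p) {N : ℕ} (hN : p * N < n) (hC1 : 0 < C1) :
    ∃ m : ℕ, 2 ≤ m ∧ 2 * ((C1 * (((2 : ℝ) ^ (1 - (m : ℤ))) ^ N)⁻¹) ^ p * 2 ^ d) ≤ (2 ^ m) ^ n := by
  set κ : ℝ := n - p * N with hκ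
  have hκ0 : 0 < κ := by linarith
  set D : ℝ := 2 * (C1 ^ p * 2 ^ d) with hD
  have hD0 : 0 < D := by positivity
  obtain ⟨m0, hm0⟩ := pow_unbounded_of_one_lt D (Real.one_lt_rpow (by norm_num : (1 : ℝ) < 2) hκ0)
  refine ⟨m0 + 2, by omega, ?_⟩
  set m := m0 + 2 with hm
  have h1 : D ≤ (2 ^ κ) ^ m := by
    refine hm0.le.trans (pow_le_pow_right₀ ?_ (by omega))
    exact (Real.one_lt_rpow (by norm_num : (1 : ℝ) < 2) hκ0).le
  have h2 : (((2 : ℝ) ^ (1 - (m : ℤ))) ^ N)⁻¹ ≤ (2 ^ m) ^ N := by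
    rw [← inv_pow, ← zpow_neg]
    gcongr
    rw [← zpow_natCast]
    apply zpow_le_zpow_right₀ (by norm_num)
    omega
  have h3 : (C1 * (((2 : ℝ) ^ (1 - (m : ℤ))) ^ N)⁻¹) ^ p ≤ C1 ^ p * ((2 : ℝ) ^ (p * N)) ^ m := by
    calc (C1 * (((2 : ℝ) ^ (1 - (m : ℤ))) ^ N)⁻¹) ^ p ≤ (C1 * (2 ^ m) ^ N) ^ p := by
          gcongr
      _ = C1 ^ p * ((2 : ℝ) ^ (p * N)) ^ m := by
          rw [Real.mul_rpow hC1.le (by positivity)]
          congr 1
          rw [← pow_mul, ← Real.rpow_natCast, ← Real.rpow_natCast, ← Real.rpow_mul (by norm_num),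
            ← Real.rpow_mul (by norm_num)]
          congr 1
          push_cast
          ring
  have h4 : ((2 : ℝ) ^ κ) ^ m * ((2 : ℝ) ^ (p * N)) ^ m = (2 ^ m) ^ n := by
    rw [← mul_pow, ← Real.rpow_add (by norm_num)]
    have : κ + p * N = ((n : ℕ) : ℝ) := by rw [hκ]; ring
    rw [this, Real.rpow_natCast, ← pow_mul, ← pow_mul, mul_comm]
  calc 2 * ((C1 * (((2 : ℝ) ^ (1 - (m : ℤ))) ^ N)⁻¹) ^ p * 2 ^ d)
      ≤ 2 * ((C1 ^ p * ((2 : ℝ) ^ (p * N)) ^ m) * 2 ^ d) := by gcongr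
    _ = D * ((2 : ℝ) ^ (p * N)) ^ m := by rw [hD]; ring
    _ ≤ (2 ^ κ) ^ m * ((2 : ℝ) ^ (p * N)) ^ m := by gcongr
    _ = _ := h4

lemma zpow_mul_level (m : ℕ) (k : ℤ) : (2 : ℝ) ^ (1 - (m : ℤ)) * 2 ^ k = 2 ^ (k + 1 - m) := by
  rw [← zpow_add₀ (by norm_num)]; congr 1; ring

lemma mem_cube_of_openCube {m : ℕ} {k : ℤ} {b : Fin n → ℤ} {z : Eu n}
    (h : ((2 : ℝ) ^ (1 - (m : ℤ)))⁻¹ • (((2 : ℝ) ^ k)⁻¹ • (z - corner (k + 1 - m) b)) ∈
      openCube n) : z ∈ cube (k + 1 - m) b := by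
  rw [mem_cube]
  intro i
  have hi := h i
  have hL := two_zpow_pos (k + 1 - m)
  have e1 : (((2 : ℝ) ^ (1 - (m : ℤ)))⁻¹ • (((2 : ℝ) ^ k)⁻¹ • (z - corner (k + 1 - m) b))) i =
      (2 ^ (k + 1 - m : ℤ))⁻¹ * (z i - b i * 2 ^ (k + 1 - m : ℤ)) := by
    show ((2 : ℝ) ^ (1 - (m : ℤ)))⁻¹ * (((2 : ℝ) ^ k)⁻¹ * (z i - corner (k + 1 - m) b i)) = _
    rw [corner_apply, ← mul_assoc, ← mul_inv, zpow_mul_level]
  rw [e1] at hi
  obtain ⟨h1, h2⟩ := hi
  have h3 : 0 < z i - b i * 2 ^ (k + 1 - m : ℤ) := by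
    by_contra hc
    push Not at hc
    have : (2 ^ (k + 1 - m : ℤ))⁻¹ * (z i - b i * 2 ^ (k + 1 - m : ℤ)) ≤ 0 :=
      mul_nonpos_of_nonneg_of_nonpos (inv_nonneg.mpr hL.le) hc
    linarith
  have h4 : z i - b i * 2 ^ (k + 1 - m : ℤ) < 2 ^ (k + 1 - m : ℤ) := by
    rw [inv_mul_lt_iff₀ hL, mul_one] at h2
    exact h2
  constructor
  · linarith
  · linarith

/-- the possible relative positions -/
noncomputable def etaSet (n m : ℕ) : Finset (Eu n) := by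
  classical
  exact ((Fintype.piFinset fun _ : Fin n => Finset.Ico (0 : ℤ) (2 ^ m)) ×ˢ
    (Fintype.piFinset fun _ : Fin n => Finset.Icc (0 : ℤ) 1)).image
    (fun q => WithLp.toLp 2 fun i => (2 : ℝ) ^ (1 - (m : ℤ)) * (q.1 i : ℝ) - (q.2 i : ℝ))

/-- relative position of `R_Q` and `Q` -/
noncomputable def etaQ (m : ℕ) (k : ℤ) (a b : Fin n → ℤ) : Eu n :=
  ((2 : ℝ) ^ k)⁻¹ • (corner (k + 1 - m) b - corner k a)

lemma etaQ_mem (m : ℕ) (k : ℤ) {a b : Fin n → ℤ} (hb : b ∈ subBox m (par a)) :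
    etaQ m k a b ∈ etaSet n m := by
  classical
  unfold etaSet
  rw [Finset.mem_image]
  rw [mem_subBox] at hb
  refine ⟨(fun i => b i - 2 ^ m * par a i, fun i => a i - 2 * par a i), ?_, ?_⟩
  · rw [Finset.mem_product, Fintype.mem_piFinset, Fintype.mem_piFinset]
    refine ⟨fun i => ?_, fun i => ?_⟩
    · rw [Finset.mem_Ico]
      have := hb i
      constructor <;> linarith
    · rw [Finset.mem_Icc]
      show 0 ≤ a i - 2 * (a i / 2) ∧ a i - 2 * (a i / 2) ≤ 1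
      omega
  · ext i
    show (2 : ℝ) ^ (1 - (m : ℤ)) * ((b i - 2 ^ m * par a i : ℤ) : ℝ) - ((a i - 2 * par a i : ℤ) : ℝ)
      = ((2 : ℝ) ^ k)⁻¹ * (corner (k + 1 - m) b i - corner k a i)
    rw [corner_apply, corner_apply, ← zpow_mul_level]
    have hk := (two_zpow_pos k).ne'
    have h1 : (2 : ℝ) ^ (1 - (m : ℤ)) * 2 ^ m = 2 := by
      rw [← zpow_natCast, ← zpow_add₀ (by norm_num)]
      norm_num
    push_cast
    have h2 : ((2 : ℝ) ^ k)⁻¹ * ((b i : ℝ) * (2 ^ (1 - (m : ℤ)) * 2 ^ k) - (a i : ℝ) * 2 ^ k) =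
        (2 : ℝ) ^ (1 - (m : ℤ)) * (b i : ℝ) - a i := by
      field_simp
    rw [h2]
    linear_combination (-(par a i : ℝ)) * h1

lemma norm_etaQ_le (m : ℕ) (k : ℤ) {a b : Fin n → ℤ} (hb : b ∈ subBox m (par a)) :
    ‖etaQ m k a b‖ ≤ 2 * (n + 1) := by
  unfold etaQ
  have hk := two_zpow_pos k
  rw [norm_smul, norm_inv, Real.norm_of_nonneg hk.le, inv_mul_le_iff₀ hk]
  have h1 : corner (k + 1 - m) b ∈ cube (k + 1) (par a) := subBox_subset hb (corner_mem _ _)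
  have h2 : corner k a ∈ cube (k + 1) (par a) := cube_subset_par _ _ (corner_mem _ _)
  have h3 := norm_sub_lt_of_mem_cube h1 h2
  have h4 : (2 : ℝ) ^ (k + 1) = 2 ^ k * 2 := zpow_add_one₀ (by norm_num) k
  rw [h4] at h3
  linarith

/-- The upper bound: the capacity is controlled by the Hausdorff content. -/
theorem upper_bound (hn : 1 ≤ n) {α p : ℝ} (hα : 0 < α) (hp : 0 < p) (hp1 : p < 1)
    (hαp : α * p < n) :
    ∃ C : ℝ≥0, ∀ K : Set (Eu n), IsCompact K →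
      rieszCap α p K ≤ C * hContent (n - α * p) K := by
  classical
  set d : ℝ := (n : ℝ) - α * p with hd_def
  have hd : 0 < d := by rw [hd_def]; linarith
  have hdn : d < n := by rw [hd_def]; have := mul_pos hα hp; linarith
  obtain ⟨M, hM1, hM2, hM3⟩ := exists_moment_order hn hα hp hp1
  obtain ⟨C1, hC1, hC1b⟩ := exists_tmpl_ge n M (2 * (n + 1))
  obtain ⟨m, hm2, hm⟩ := exists_generation (n := n) (d := d) hp hM3 hC1
  set ρ : ℝ := (2 : ℝ) ^ (1 - (m : ℤ)) with hρ_def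
  have hρ : 0 < ρ := two_zpow_pos _
  have hρ1 : ρ ≤ 1 := by
    rw [hρ_def]
    exact zpow_le_one_of_nonpos₀ (by norm_num) (by omega)
  set Cm : ℝ := C1 * (ρ ^ (n + (M - 1)))⁻¹ with hCm_def
  have hCm : 0 < Cm := by positivity
  have hCE : 2 * (((Cm.toNNReal : ℝ≥0) : ℝ≥0∞) ^ p * 2 ^ d) ≤ (2 ^ m) ^ n := by
    have h1 := ENNReal.ofReal_le_ofReal hm
    rw [ENNReal.ofReal_mul (by norm_num), ENNReal.ofReal_mul (by positivity),
      ← ENNReal.ofReal_rpow_of_pos hCm, ← ENNReal.ofReal_rpow_of_pos (by norm_num),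
      ENNReal.ofReal_pow (by positivity), ENNReal.ofReal_pow (by norm_num)] at h1
    have h2 : ENNReal.ofReal 2 = 2 := by norm_num
    rw [h2] at h1
    exact h1
  -- the decay constants
  choose Cη hCη0 hCη using fun η : Eu n => tS_decay hα hn hM1 hρ hρ1 η
  set Cst : ℝ := ∑ η ∈ etaSet n m, Cη η with hCst
  have hCst0 : 0 ≤ Cst := Finset.sum_nonneg fun η _ => hCη0 η
  have hdecay : ∀ η ∈ etaSet n m, ∀ (x : Eu n) (t : ℝ) (y : Eu n), 0 < t → ‖y - x‖ < t →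
      ‖hD α hα.le (tS n M hρ hρ1 η) (dil (gauss n) t y)‖ ≤
        Cst * (1 + ‖x‖) ^ (-(n + M + α) : ℝ) := by
    intro η hη x t y ht hyx
    refine (hCη η x t y ht hyx).trans ?_
    gcongr
    exact Finset.single_le_sum (f := Cη) (fun η _ => hCη0 η) hη
  set Ie : ℝ≥0∞ := ∫⁻ x : Eu n, ENNReal.ofReal ((1 + ‖x‖) ^ (-(((n : ℝ) + M + α) * p))) with hIe
  have hIet : Ie ≠ ⊤ := by
    rw [hIe]
    refine (finite_integral_one_add_norm ?_).ne
    rw [finrank_euclideanSpace_fin]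
    exact hM2
  set Cf : ℝ≥0∞ := (ENNReal.ofReal Cst ^ p * Ie) * (2 * (3 ^ n * 2 ^ d)) + 1 with hCf
  have hCft : Cf ≠ ⊤ := by
    rw [hCf]
    refine ENNReal.add_ne_top.mpr ⟨ENNReal.mul_ne_top (ENNReal.mul_ne_top ?_ hIet)
      (ENNReal.mul_ne_top (by norm_num) (ENNReal.mul_ne_top (ENNReal.pow_ne_top (by norm_num))
        ?_)), ENNReal.one_ne_top⟩
    · exact ENNReal.rpow_ne_top_of_nonneg hp.le ENNReal.ofReal_ne_top
    · exact ENNReal.rpow_ne_top_of_nonneg hd.le (by norm_num)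
  have hCf0 : Cf ≠ 0 := by rw [hCf]; simp
  refine ⟨Cf.toNNReal, ?_⟩
  intro K hK
  rw [ENNReal.coe_toNNReal hCft]
  unfold hContent
  rw [ENNReal.mul_iInf_of_ne hCf0 hCft]
  refine le_iInf fun c => ?_
  rw [ENNReal.mul_iInf_of_ne hCf0 hCft]
  refine le_iInf fun r => ?_
  rw [ENNReal.mul_iInf_of_ne hCf0 hCft]
  refine le_iInf fun hcov => ?_
  obtain ⟨S, U, hU, hKU, hUS, hSsum⟩ := exists_dyadic_cover hd hK c r hcov
  obtain ⟨T, hST, hTsum, hanti, hpack⟩ := exists_packing hn hd S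
  have hexb : ∀ Q : DC n, ∃ b : Fin n → ℤ, Q ∈ T → b ∈ subBox m (par Q.2) ∧
      (∀ Q' ∈ T, Disjoint (cs Q') (cube (Q.1 + 1 - m) b) ∨ cs Q' ⊆ cube (Q.1 + 1 - m) b) ∧
      (2 ^ m) ^ n * ∑ Q' ∈ T with cs Q' ⊆ cube (Q.1 + 1 - m) b, sd Q'.1 ^ d ≤
        sd (Q.1 + 1) ^ d := by
    intro Q
    by_cases hQ : Q ∈ T
    · obtain ⟨b, h1, h2, h3⟩ := exists_small_cube hn hdn m hanti hpack hQ
      exact ⟨b, fun _ => ⟨h1, h2, h3⟩⟩
    · exact ⟨0, fun h => absurd h hQ⟩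
  choose b hb using hexb
  set R : DC n → Set (Eu n) := fun Q => cube (Q.1 + 1 - m) (b Q) with hR
  have hlev : ∀ Q ∈ T, ∀ Q' ∈ T, cs Q' ⊆ R Q → Q'.1 < Q.1 := by
    intro Q _ Q' _ hsub
    have h1 : Q'.1 ≤ Q.1 + 1 - m := level_le_of_subset hn hsub
    omega
  obtain ⟨a, ha, hasum⟩ := exists_amplitudes hp hp1.le hd m T R hlev Cm.toNNReal hCE
    (fun Q hQ => (hb Q hQ).2.2)
  set y0 : DC n → Eu n := fun Q => corner (Q.1 + 1 - m) (b Q) with hy0
  set ℓ : DC n → ℝ := fun Q => 2 ^ Q.1 with hℓ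
  set η : DC n → Eu n := fun Q => etaQ m Q.1 Q.2 (b Q) with hη
  set G : 𝓢(Eu n, ℂ) := ∑ Q ∈ T, ((a Q : ℝ) : ℂ) • scl (tS n M hρ hρ1 (η Q)) (ℓ Q) (y0 Q) with hG
  have hℓ0 : ∀ Q, 0 < ℓ Q := fun Q => two_zpow_pos _
  -- real-valuedness
  set g : Eu n → ℝ := fun z => ∑ Q ∈ T, (a Q : ℝ) * tmpl n M ρ (η Q) ((ℓ Q)⁻¹ • (z - y0 Q))
    with hg
  have hGg : ∀ z, G z = ((g z : ℝ) : ℂ) := by
    intro z
    rw [hG, hg, sum_apply, Complex.ofReal_sum]
    refine Finset.sum_congr rfl fun Q _ => ?_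
    rw [Complex.ofReal_mul, ← tS_apply M hρ hρ1, ← scl_apply _ (hℓ0 Q)]
    rfl
  have hgc : Continuous g := by
    have h1 : g = fun z => (G z).re := by
      funext z
      rw [hGg, Complex.ofReal_re]
    rw [h1]
    exact Complex.continuous_re.comp G.continuous
  -- lower bound
  have hlow : ∀ z ∈ U, 1 ≤ g z := by
    intro z hz
    have hzT := hST (hUS hz)
    simp only [mem_iUnion, exists_prop] at hzT
    obtain ⟨Q0, hQ0, hzQ0⟩ := hzT
    have hterm : ∀ Q ∈ T, (if Q = Q0 then (a Q : ℝ) else 0) -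
        (if cs Q0 ⊆ R Q then Cm * (a Q : ℝ) else 0) ≤
        (a Q : ℝ) * tmpl n M ρ (η Q) ((ℓ Q)⁻¹ • (z - y0 Q)) := by
      intro Q hQ
      obtain ⟨hb1, hb2, _⟩ := hb Q hQ
      have ha0 : (0 : ℝ) ≤ a Q := NNReal.coe_nonneg _
      by_cases hsub : cs Q0 ⊆ R Q
      · have hne : Q ≠ Q0 := by
          intro h
          have := hlev Q hQ Q0 hQ0 hsub
          rw [h] at this
          exact lt_irrefl _ this
        rw [if_neg hne, if_pos hsub]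
        have h1 := hC1b ρ hρ hρ1 (η Q) (norm_etaQ_le m Q.1 hb1) ((ℓ Q)⁻¹ • (z - y0 Q))
        rw [← hCm_def] at h1
        nlinarith
      · rw [if_neg hsub, sub_zero]
        have hdis : Disjoint (cs Q0) (R Q) := (hb2 Q0 hQ0).resolve_right hsub
        have hzR : z ∉ R Q := fun h => (Set.disjoint_left.mp hdis) hzQ0 h
        have hnot : ρ⁻¹ • ((ℓ Q)⁻¹ • (z - y0 Q)) ∉ openCube n := by
          intro h
          exact hzR (mem_cube_of_openCube h)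
        by_cases hQQ : Q = Q0
        · rw [if_pos hQQ]
          have h1 : tmpl n M ρ (η Q) ((ℓ Q)⁻¹ • (z - y0 Q)) = 1 := by
            apply tmpl_eq_one hnot
            have h2 : (ℓ Q)⁻¹ • (z - y0 Q) + η Q = (ℓ Q)⁻¹ • (z - corner Q.1 Q.2) := by
              simp only [hη, hy0, hℓ, etaQ]
              rw [← smul_add]
              congr 1
              abel
            rw [h2, norm_smul, norm_inv, Real.norm_of_nonneg (hℓ0 Q).le, inv_mul_le_iff₀ (hℓ0 Q)]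
            have h3 : z ∈ cube Q.1 Q.2 := by rw [hQQ]; exact hzQ0
            have h4 := norm_sub_lt_of_mem_cube h3 (corner_mem Q.1 Q.2)
            simp only [hℓ]
            linarith
          rw [h1, mul_one]
        · rw [if_neg hQQ]
          exact mul_nonneg ha0 (tmpl_nonneg hnot)
    have hsum := Finset.sum_le_sum hterm
    rw [Finset.sum_sub_distrib, Finset.sum_ite_eq' T Q0, if_pos hQ0, ← Finset.sum_filter,
      ← Finset.mul_sum] at hsum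
    have ha' := ha Q0 hQ0
    have ha'' : (a Q0 : ℝ) = 1 + Cm * ∑ Q ∈ T with cs Q0 ⊆ R Q, (a Q : ℝ) := by
      rw [ha']
      push_cast
      rw [Real.coe_toNNReal _ hCm.le]
    rw [ha''] at hsum
    simp only [hg]
    linarith
  -- admissibility
  have hadm : Admissible α K (hD α hα.le G) := by
    refine ⟨(G : 𝓢'(Eu n, ℂ)), g, isRieszPotential_hD hα hn G, hgc.locallyIntegrable, ?_,
      U, hU, hKU, Eventually.of_forall hlow⟩
    intro φ _
    refine (SchwartzMap.toTemperedDistributionCLM_apply_apply volume G φ).trans ?_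
    congr 1
    funext z
    rw [hGg, smul_eq_mul]
  -- the norm
  have hnorm : hardyPow p (hD α hα.le G) ≤ (ENNReal.ofReal Cst ^ p * Ie) *
      ∑ Q ∈ T, (a Q : ℝ≥0∞) ^ p * ENNReal.ofReal (ℓ Q) ^ ((n : ℝ) - α * p) := by
    apply hardyPow_sum_le hα hp hp1.le hCst0 T a (fun Q => tS n M hρ hρ1 (η Q)) ℓ
      (fun Q _ => hℓ0 Q) y0
    intro Q hQ
    exact hdecay (η Q) (etaQ_mem m Q.1 (hb Q hQ).1)
  calc rieszCap α p K ≤ hardyPow p (hD α hα.le G) := by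
        unfold rieszCap
        exact iInf_le_of_le _ (iInf_le_of_le hadm le_rfl)
    _ ≤ (ENNReal.ofReal Cst ^ p * Ie) * ∑ Q ∈ T, (a Q : ℝ≥0∞) ^ p * sd Q.1 ^ d := hnorm
    _ ≤ (ENNReal.ofReal Cst ^ p * Ie) * (2 * ∑ Q ∈ T, sd Q.1 ^ d) := by gcongr
    _ ≤ (ENNReal.ofReal Cst ^ p * Ie) * (2 * ((3 ^ n * 2 ^ d) *
        ∑' i, ENNReal.ofReal (r i) ^ d)) := by
        gcongr
        exact hTsum.trans hSsum
    _ = ((ENNReal.ofReal Cst ^ p * Ie) * (2 * (3 ^ n * 2 ^ d))) *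
        ∑' i, ENNReal.ofReal (r i) ^ d := by ring
    _ ≤ Cf * ∑' i, ENNReal.ofReal (r i) ^ d := by
        gcongr
        rw [hCf]
        exact le_self_add

end Pool.Agent.Work.MP_4ab57e_an
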