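import Pool.Agent.Work.MP_4ab57e_an.Lower
import Pool.Agent.Work.MP_4ab57e_an.Upper

set_option autoImplicit false

namespace Pool.Agent.Work.MP_4ab57e_an

open scoped ENNReal NNReal

theorem main_theorem :
    ∀ (n : ℕ) (α p : ℝ), 1 ≤ n → 0 < α → 0 < p → p ≤ n / (n + α) →
      ∃ C : ℝ≥0, 1 ≤ C ∧ ∀ K : Set (Eu n), IsCompact K →
        (C : ℝ≥0∞)⁻¹ * hContent (n - α * p) K ≤ rieszCap α p K ∧
          rieszCap α p K ≤ C * hContent (n - α * p) K := by
  intro n α p hn hα hp hpn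
  have hn0 : (1 : ℝ) ≤ n := by exact_mod_cast hn
  have hnα : 0 < (n : ℝ) + α := by linarith
  have h1 : p * (n + α) ≤ n := (le_div_iff₀ hnα).mp hpn
  have hp1 : p < 1 := by nlinarith
  have hαp : α * p < n := by nlinarith
  obtain ⟨C1, hC1⟩ := lower_bound hn hα hp hp1.le hαp
  obtain ⟨C2, hC2⟩ := upper_bound hn hα hp hp1 hαp
  set C : ℝ≥0 := max 1 (max C1 C2) with hC
  have hC1' : C1 ≤ C := (le_max_left _ _).trans (le_max_right _ _)
  have hC2' : C2 ≤ C := (le_max_right _ _).trans (le_max_right _ _)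
  have hCge : 1 ≤ C := le_max_left _ _
  refine ⟨C, hCge, fun K hK => ⟨?_, ?_⟩⟩
  · have hC0 : (C : ℝ≥0∞) ≠ 0 := by
      rw [Ne, ENNReal.coe_eq_zero]
      exact (lt_of_lt_of_le one_pos hCge).ne'
    calc (C : ℝ≥0∞)⁻¹ * hContent (n - α * p) K
        ≤ (C : ℝ≥0∞)⁻¹ * (C1 * rieszCap α p K) := by
          gcongr
          exact hC1 K hK
      _ ≤ (C : ℝ≥0∞)⁻¹ * (C * rieszCap α p K) := by
          gcongr
      _ = rieszCap α p K := by
          rw [← mul_assoc, ENNReal.inv_mul_cancel hC0 ENNReal.coe_ne_top, one_mul]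
  · refine (hC2 K hK).trans ?_
    gcongr

end Pool.Agent.Work.MP_4ab57e_an
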