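import Pool.Agent.Work.MP_4ab57e_an.Subord

/-!
The distributions `|D|^α F` for Schwartz functions `F`, and their behaviour under scaling.
-/

set_option autoImplicit false

namespace Pool.Agent.Work.MP_4ab57e_an

open MeasureTheory FourierTransform SchwartzMap Real Set Filter Topology
open scoped ENNReal NNReal RealInnerProductSpace

variable {n : ℕ}

section scl

/-- the affine map `z ↦ ℓ⁻¹ (z - y)` -/
noncomputable def affMap2 (ℓ : ℝ) (y : Eu n) (z : Eu n) : Eu n := ℓ⁻¹ • (z - y)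

lemma affMap2_temperate (ℓ : ℝ) (y : Eu n) : (affMap2 ℓ y).HasTemperateGrowth := by
  unfold affMap2
  have h1 : (fun z : Eu n => z - y).HasTemperateGrowth :=
    Function.HasTemperateGrowth.id'.sub (Function.HasTemperateGrowth.const y)
  exact (Function.HasTemperateGrowth.const ℓ⁻¹).smul h1

lemma affMap2_antilipschitz {ℓ : ℝ} (hℓ : 0 < ℓ) (y : Eu n) :
    AntilipschitzWith ⟨ℓ, hℓ.le⟩ (affMap2 ℓ y) := by
  apply AntilipschitzWith.of_le_mul_dist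
  intro z w
  rw [dist_eq_norm, dist_eq_norm]
  unfold affMap2
  have h1 : ℓ⁻¹ • (z - y) - ℓ⁻¹ • (w - y) = ℓ⁻¹ • (z - w) := by
    rw [← smul_sub]; congr 1; abel
  rw [h1, norm_smul, norm_inv, Real.norm_of_nonneg hℓ.le]
  show ‖z - w‖ ≤ ℓ * (ℓ⁻¹ * ‖z - w‖)
  rw [← mul_assoc, mul_inv_cancel₀ hℓ.ne', one_mul]

open Classical in
/-- `scl F ℓ y (z) = F((z - y)/ℓ)` -/
noncomputable def scl (F : 𝓢(Eu n, ℂ)) (ℓ : ℝ) (y : Eu n) : 𝓢(Eu n, ℂ) :=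
  if hℓ : 0 < ℓ then
    SchwartzMap.compCLMOfAntilipschitz ℂ (affMap2_temperate ℓ y) (affMap2_antilipschitz hℓ y) F
  else 0

lemma scl_apply (F : 𝓢(Eu n, ℂ)) {ℓ : ℝ} (hℓ : 0 < ℓ) (y z : Eu n) :
    scl F ℓ y z = F (ℓ⁻¹ • (z - y)) := by
  unfold scl
  rw [dif_pos hℓ]
  rfl

lemma fourier_scl (F : 𝓢(Eu n, ℂ)) {ℓ : ℝ} (hℓ : 0 < ℓ) (y ξ : Eu n) :
    𝓕 (scl F ℓ y) ξ = ((ℓ ^ n : ℝ) : ℂ) *
      (Complex.exp (((-2 * π * ⟪y, ξ⟫ : ℝ) : ℂ) * Complex.I) * 𝓕 F (ℓ • ξ)) := by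
  rw [SchwartzMap.fourier_coe, SchwartzMap.fourier_coe, Real.fourier_eq', Real.fourier_eq']
  have h1 : ∀ v : Eu n, Complex.exp (((-2 * π * ⟪v, ξ⟫ : ℝ) : ℂ) * Complex.I) • scl F ℓ y v =
      (fun z => Complex.exp (((-2 * π * ⟪z + y, ξ⟫ : ℝ) : ℂ) * Complex.I) •
        F (ℓ⁻¹ • z)) (v - y) := by
    intro v
    simp only [sub_add_cancel]
    rw [scl_apply _ hℓ]
  simp_rw [h1]
  rw [integral_sub_right_eq_self (fun z => Complex.exp (((-2 * π * ⟪z + y, ξ⟫ : ℝ) : ℂ) *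
    Complex.I) • F (ℓ⁻¹ • z))]
  have h2 : ∀ z : Eu n, Complex.exp (((-2 * π * ⟪z + y, ξ⟫ : ℝ) : ℂ) * Complex.I) •
        F (ℓ⁻¹ • z) =
      Complex.exp (((-2 * π * ⟪y, ξ⟫ : ℝ) : ℂ) * Complex.I) *
        (fun w => Complex.exp (((-2 * π * ⟪w, ℓ • ξ⟫ : ℝ) : ℂ) * Complex.I) • F w) (ℓ⁻¹ • z) := by
    intro z
    simp only [smul_eq_mul]
    have h3 : Complex.exp (((-2 * π * ⟪z + y, ξ⟫ : ℝ) : ℂ) * Complex.I) =
        Complex.exp (((-2 * π * ⟪y, ξ⟫ : ℝ) : ℂ) * Complex.I) *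
        Complex.exp (((-2 * π * ⟪ℓ⁻¹ • z, ℓ • ξ⟫ : ℝ) : ℂ) * Complex.I) := by
      rw [← Complex.exp_add, ← add_mul, ← Complex.ofReal_add]
      congr 3
      rw [inner_add_left, real_inner_smul_left, real_inner_smul_right, ← mul_assoc ℓ⁻¹,
        inv_mul_cancel₀ hℓ.ne', one_mul]
      ring
    rw [h3]; ring
  simp_rw [h2]
  rw [integral_const_mul]
  have h5 := MeasureTheory.Measure.integral_comp_inv_smul_of_nonneg (volume : Measure (Eu n))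
    (fun w => Complex.exp (((-2 * π * ⟪w, ℓ • ξ⟫ : ℝ) : ℂ) * Complex.I) • F w) hℓ.le
  rw [h5, finrank_euclideanSpace_fin, Complex.real_smul]
  ring

end scl

/-- the function `‖ξ‖^α 𝓕F(ξ)` -/
noncomputable def rH (α : ℝ) (F : 𝓢(Eu n, ℂ)) (ξ : Eu n) : ℂ := ((‖ξ‖ ^ α : ℝ) : ℂ) * 𝓕 F ξ

lemma rpow_le_one_add_pow {α : ℝ} (hα : 0 ≤ α) {x : ℝ} (hx : 0 ≤ x) :
    x ^ α ≤ 1 + x ^ ⌈α⌉₊ := by
  rcases le_total x 1 with h | h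
  · have h1 : x ^ α ≤ 1 := Real.rpow_le_one hx h hα
    have h2 : 0 ≤ x ^ ⌈α⌉₊ := pow_nonneg hx _
    linarith
  · have h1 : x ^ α ≤ x ^ ((⌈α⌉₊ : ℕ) : ℝ) := Real.rpow_le_rpow_of_exponent_le h (Nat.le_ceil α)
    rw [Real.rpow_natCast] at h1
    linarith

lemma integrable_rH {α : ℝ} (hα : 0 ≤ α) (F : 𝓢(Eu n, ℂ)) : Integrable (rH α F) := by
  have h1 : Integrable (fun ξ => ‖𝓕 F ξ‖ + ‖ξ‖ ^ ⌈α⌉₊ * ‖𝓕 F ξ‖) :=
    (𝓕 F).integrable.norm.add ((𝓕 F).integrable_pow_mul volume _)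
  refine h1.mono' ?_ ?_
  · unfold rH
    have m1 : Measurable (fun ξ : Eu n => ((‖ξ‖ ^ α : ℝ) : ℂ)) := by fun_prop
    exact m1.aestronglyMeasurable.mul (𝓕 F).continuous.aestronglyMeasurable
  · filter_upwards with ξ
    unfold rH
    rw [norm_mul, Complex.norm_real, Real.norm_of_nonneg (Real.rpow_nonneg (norm_nonneg _) _)]
    have := rpow_le_one_add_pow hα (norm_nonneg ξ)
    calc ‖ξ‖ ^ α * ‖𝓕 F ξ‖ ≤ (1 + ‖ξ‖ ^ ⌈α⌉₊) * ‖𝓕 F ξ‖ := by gcongr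
      _ = _ := by ring

/-- the tempered distribution of an integrable function -/
noncomputable def toTD (g : Eu n → ℂ) (hg : Integrable g) : 𝓢'(Eu n, ℂ) :=
  Lp.toTemperedDistribution (memLp_one_iff_integrable.mpr hg).toLp

lemma toTD_apply (g : Eu n → ℂ) (hg : Integrable g) (φ : 𝓢(Eu n, ℂ)) :
    toTD g hg φ = ∫ x, φ x * g x := by
  unfold toTD
  rw [Lp.toTemperedDistribution_apply]
  apply integral_congr_ae
  filter_upwards [(memLp_one_iff_integrable.mpr hg).coeFn_toLp] with x hx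
  rw [hx]
  rfl

/-- the tempered distribution `|D|^α F` -/
noncomputable def hD (α : ℝ) (hα : 0 ≤ α) (F : 𝓢(Eu n, ℂ)) : 𝓢'(Eu n, ℂ) :=
  𝓕⁻ (toTD (rH α F) (integrable_rH hα F))

lemma hD_apply {α : ℝ} (hα : 0 ≤ α) (F φ : 𝓢(Eu n, ℂ)) :
    hD α hα F φ = ∫ ξ, 𝓕⁻ φ ξ * rH α F ξ := by
  unfold hD
  rw [TemperedDistribution.fourierInv_apply, toTD_apply]

lemma integrable_mul_of_schwartz (φ : 𝓢(Eu n, ℂ)) {g : Eu n → ℂ} (hg : Integrable g) :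
    Integrable (fun ξ => φ ξ * g ξ) := by
  refine hg.bdd_mul (c := SchwartzMap.seminorm ℝ 0 0 φ) φ.continuous.aestronglyMeasurable ?_
  filter_upwards with x
  exact SchwartzMap.norm_le_seminorm ℝ φ x

/-- `F` is the Riesz potential of `|D|^α F`. -/
lemma isRieszPotential_hD {α : ℝ} (hα : 0 < α) (hn : 1 ≤ n) (F : 𝓢(Eu n, ℂ)) :
    IsRieszPotential α (hD α hα.le F) (F : 𝓢'(Eu n, ℂ)) := by
  have hae : ∀ᵐ ξ : Eu n, ξ ≠ 0 := by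
    have : Nonempty (Fin n) := ⟨⟨0, hn⟩⟩
    have : (volume : Measure (Eu n)) {0} = 0 := measure_singleton 0
    exact compl_mem_ae_iff.mpr this
  have hcancel : ∀ φ : 𝓢(Eu n, ℂ), (fun ξ => φ ξ * (((‖ξ‖ ^ (-α) : ℝ) : ℂ) * rH α F ξ)) =ᵐ[volume]
      fun ξ => φ ξ * 𝓕 F ξ := by
    intro φ
    filter_upwards [hae] with ξ hξ
    unfold rH
    rw [← mul_assoc ((‖ξ‖ ^ (-α) : ℝ) : ℂ), ← Complex.ofReal_mul,
      ← Real.rpow_add (norm_pos_iff.mpr hξ), neg_add_cancel, Real.rpow_zero, Complex.ofReal_one,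
      one_mul]
  refine ⟨rH α F, fun φ => ⟨integrable_mul_of_schwartz φ (integrable_rH hα.le F), ?_⟩,
    fun φ => ⟨?_, ?_⟩⟩
  · show 𝓕 (hD α hα.le F) φ = ∫ ξ, φ ξ * rH α F ξ
    unfold hD
    rw [fourier_fourierInv_eq, toTD_apply]
  · exact (integrable_congr (hcancel φ)).mpr (integrable_mul_of_schwartz φ (𝓕 F).integrable)
  · show 𝓕 (F : 𝓢'(Eu n, ℂ)) φ = ∫ ξ, φ ξ * (((‖ξ‖ ^ (-α) : ℝ) : ℂ) * rH α F ξ)
    rw [integral_congr_ae (hcancel φ), TemperedDistribution.fourier_toTemperedDistributionCLM_eq]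
    exact SchwartzMap.toTemperedDistributionCLM_apply_apply volume (𝓕 F) φ

/-- the value of `|D|^α F` on heat kernels -/
lemma hD_heat {α : ℝ} (hα : 0 ≤ α) (F : 𝓢(Eu n, ℂ)) {t : ℝ} (ht : 0 < t) (y : Eu n) :
    hD α hα F (dil (gauss n) t y) = ∫ ξ, Complex.exp (((2 * π * ⟪y, ξ⟫ : ℝ) : ℂ) * Complex.I) *
      ((Real.exp (-π * (t ^ 2 * ‖ξ‖ ^ 2)) : ℝ) : ℂ) * rH α F ξ := by
  rw [hD_apply]
  congr 1
  funext ξ
  rw [fourierInv_heat ht]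

lemma norm_exp_heat_le (t : ℝ) (y ξ : Eu n) :
    ‖Complex.exp (((2 * π * ⟪y, ξ⟫ : ℝ) : ℂ) * Complex.I) *
      ((Real.exp (-π * (t ^ 2 * ‖ξ‖ ^ 2)) : ℝ) : ℂ)‖ ≤ 1 := by
  rw [norm_mul, Complex.norm_exp_ofReal_mul_I, one_mul, Complex.norm_real, Real.norm_eq_abs,
    Real.abs_exp]
  apply Real.exp_le_one_iff.mpr
  have : 0 ≤ π * (t ^ 2 * ‖ξ‖ ^ 2) := by positivity
  linarith

/-- trivial bound -/
lemma norm_hD_heat_le {α : ℝ} (hα : 0 ≤ α) (F : 𝓢(Eu n, ℂ)) {t : ℝ} (ht : 0 < t) (y : Eu n) :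
    ‖hD α hα F (dil (gauss n) t y)‖ ≤ ∫ ξ, ‖rH α F ξ‖ := by
  rw [hD_heat hα F ht]
  refine norm_integral_le_of_norm_le (integrable_rH hα F).norm ?_
  filter_upwards with ξ
  rw [norm_mul]
  exact mul_le_of_le_one_left (norm_nonneg _) (norm_exp_heat_le t y ξ)

/-- scaling -/
lemma hD_scl {α : ℝ} (hα : 0 ≤ α) (F : 𝓢(Eu n, ℂ)) {ℓ : ℝ} (hℓ : 0 < ℓ) (x : Eu n) {t : ℝ}
    (ht : 0 < t) (y : Eu n) :
    hD α hα (scl F ℓ x) (dil (gauss n) t y) =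
      ((ℓ ^ (-α) : ℝ) : ℂ) * hD α hα F (dil (gauss n) (t / ℓ) (ℓ⁻¹ • (y - x))) := by
  rw [hD_heat hα _ ht, hD_heat hα _ (div_pos ht hℓ)]
  set Ψ : Eu n → ℂ := fun ζ => Complex.exp (((2 * π * ⟪ℓ⁻¹ • (y - x), ζ⟫ : ℝ) : ℂ) * Complex.I) *
      ((Real.exp (-π * ((t / ℓ) ^ 2 * ‖ζ‖ ^ 2)) : ℝ) : ℂ) * rH α F ζ with hΨ
  have h1 : ∀ ξ : Eu n, Complex.exp (((2 * π * ⟪y, ξ⟫ : ℝ) : ℂ) * Complex.I) *
      ((Real.exp (-π * (t ^ 2 * ‖ξ‖ ^ 2)) : ℝ) : ℂ) * rH α (scl F ℓ x) ξ =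
      (((ℓ ^ (-α) : ℝ) : ℂ) * ((ℓ ^ n : ℝ) : ℂ)) * Ψ (ℓ • ξ) := by
    intro ξ
    simp only [hΨ]
    unfold rH
    rw [fourier_scl F hℓ]
    have e1 : Complex.exp (((2 * π * ⟪y, ξ⟫ : ℝ) : ℂ) * Complex.I) *
        Complex.exp (((-2 * π * ⟪x, ξ⟫ : ℝ) : ℂ) * Complex.I) =
        Complex.exp (((2 * π * ⟪ℓ⁻¹ • (y - x), ℓ • ξ⟫ : ℝ) : ℂ) * Complex.I) := by
      rw [← Complex.exp_add, ← add_mul, ← Complex.ofReal_add]
      congr 3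
      rw [real_inner_smul_left, real_inner_smul_right, ← mul_assoc ℓ⁻¹,
        inv_mul_cancel₀ hℓ.ne', one_mul, inner_sub_left]
      ring
    have e2 : (t / ℓ) ^ 2 * ‖ℓ • ξ‖ ^ 2 = t ^ 2 * ‖ξ‖ ^ 2 := by
      rw [norm_smul, Real.norm_of_nonneg hℓ.le]
      field_simp
    have e3 : ((ℓ ^ (-α) : ℝ) : ℂ) * ((‖ℓ • ξ‖ ^ α : ℝ) : ℂ) = ((‖ξ‖ ^ α : ℝ) : ℂ) := by
      rw [← Complex.ofReal_mul, norm_smul, Real.norm_of_nonneg hℓ.le,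
        Real.mul_rpow hℓ.le (norm_nonneg _), ← mul_assoc, ← Real.rpow_add hℓ, neg_add_cancel,
        Real.rpow_zero, one_mul]
    rw [← e1, e2, ← e3]
    ring
  simp_rw [h1]
  rw [integral_const_mul, MeasureTheory.Measure.integral_comp_smul_of_nonneg
    (volume : Measure (Eu n)) Ψ ℓ (hR := hℓ.le), finrank_euclideanSpace_fin, Complex.real_smul]
  have h2 : ((ℓ ^ n : ℝ) : ℂ) * (((ℓ ^ n)⁻¹ : ℝ) : ℂ) = 1 := by
    rw [← Complex.ofReal_mul, mul_inv_cancel₀ (pow_pos hℓ n).ne', Complex.ofReal_one]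
  rw [mul_assoc, ← mul_assoc ((ℓ ^ n : ℝ) : ℂ), h2, one_mul]

/-- linearity -/
lemma hD_sum {α : ℝ} (hα : 0 ≤ α) {ι : Type*} (s : Finset ι) (a : ι → ℂ) (F : ι → 𝓢(Eu n, ℂ))
    (φ : 𝓢(Eu n, ℂ)) :
    hD α hα (∑ i ∈ s, a i • F i) φ = ∑ i ∈ s, a i * hD α hα (F i) φ := by
  have h1 : ∀ ξ : Eu n, 𝓕⁻ φ ξ * rH α (∑ i ∈ s, a i • F i) ξ =
      ∑ i ∈ s, a i * (𝓕⁻ φ ξ * rH α (F i) ξ) := by
    intro ξ
    have h2 : 𝓕 (∑ i ∈ s, a i • F i) ξ = ∑ i ∈ s, a i * 𝓕 (F i) ξ := by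
      have h3 : 𝓕 (∑ i ∈ s, a i • F i) = ∑ i ∈ s, a i • 𝓕 (F i) := by
        have := map_sum (FourierTransform.fourierCLM ℂ 𝓢(Eu n, ℂ)) (fun i => a i • F i) s
        simp
      rw [h3, sum_apply]
      rfl
    unfold rH
    rw [h2, Finset.mul_sum, Finset.mul_sum]
    refine Finset.sum_congr rfl fun i _ => ?_
    ring
  rw [hD_apply]
  simp_rw [h1]
  rw [integral_finsetSum]
  · refine Finset.sum_congr rfl fun i _ => ?_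
    rw [integral_const_mul, hD_apply]
  · intro i _
    exact (integrable_mul_of_schwartz _ (integrable_rH hα _)).const_mul _

end Pool.Agent.Work.MP_4ab57e_an
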