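import Pool.Agent.Work.MP_4ab57e_an.Gauss

/-!
Fourier transform of dilates, Gaussian subordination.
-/

set_option autoImplicit false

namespace Pool.Agent.Work.MP_4ab57e_an

open MeasureTheory FourierTransform SchwartzMap Real Set
open scoped ENNReal NNReal ContDiff RealInnerProductSpace

variable {n : ℕ}

/-- Inverse Fourier transform of a dilate. -/
lemma fourierInv_dil (φ : 𝓢(Eu n, ℂ)) {r : ℝ} (hr : 0 < r) (y ξ : Eu n) :
    𝓕⁻ (dil φ r y) ξ = Complex.exp (((2 * π * ⟪y, ξ⟫ : ℝ) : ℂ) * Complex.I) * 𝓕 φ (r • ξ) := by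
  rw [SchwartzMap.fourierInv_coe, SchwartzMap.fourier_coe, Real.fourierInv_eq', Real.fourier_eq']
  have h1 : ∀ v : Eu n, Complex.exp (((2 * π * ⟪v, ξ⟫ : ℝ) : ℂ) * Complex.I) • dil φ r y v =
      (fun z => Complex.exp (((2 * π * ⟪y - z, ξ⟫ : ℝ) : ℂ) * Complex.I) •
        ((((r ^ n)⁻¹ : ℝ) : ℂ) * φ (r⁻¹ • z))) (y - v) := by
    intro v
    simp only [sub_sub_cancel]
    rw [dil_apply _ hr]
  simp_rw [h1]
  rw [integral_sub_left_eq_self (fun z => Complex.exp (((2 * π * ⟪y - z, ξ⟫ : ℝ) : ℂ) * Complex.I) •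
        ((((r ^ n)⁻¹ : ℝ) : ℂ) * φ (r⁻¹ • z)))]
  have h2 : ∀ z : Eu n, Complex.exp (((2 * π * ⟪y - z, ξ⟫ : ℝ) : ℂ) * Complex.I) •
        ((((r ^ n)⁻¹ : ℝ) : ℂ) * φ (r⁻¹ • z)) =
      Complex.exp (((2 * π * ⟪y, ξ⟫ : ℝ) : ℂ) * Complex.I) * (((r ^ n)⁻¹ : ℝ) : ℂ) *
        (fun w => Complex.exp (((-2 * π * ⟪w, r • ξ⟫ : ℝ) : ℂ) * Complex.I) • φ w) (r⁻¹ • z) := by
    intro z
    simp only [smul_eq_mul]
    have h3 : Complex.exp (((2 * π * ⟪y - z, ξ⟫ : ℝ) : ℂ) * Complex.I) =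
        Complex.exp (((2 * π * ⟪y, ξ⟫ : ℝ) : ℂ) * Complex.I) *
        Complex.exp (((-2 * π * ⟪r⁻¹ • z, r • ξ⟫ : ℝ) : ℂ) * Complex.I) := by
      rw [← Complex.exp_add, ← add_mul, ← Complex.ofReal_add]
      congr 3
      rw [inner_sub_left, real_inner_smul_left, real_inner_smul_right, ← mul_assoc r⁻¹,
        inv_mul_cancel₀ hr.ne', one_mul]
      ring
    rw [h3]; ring
  simp_rw [h2]
  rw [integral_const_mul]
  have h5 := MeasureTheory.Measure.integral_comp_inv_smul_of_nonneg (volume : Measure (Eu n))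
    (fun w => Complex.exp (((-2 * π * ⟪w, r • ξ⟫ : ℝ) : ℂ) * Complex.I) • φ w) hr.le
  rw [h5, finrank_euclideanSpace_fin, Complex.real_smul]
  have h4 : (((r ^ n)⁻¹ : ℝ) : ℂ) * ((r ^ n : ℝ) : ℂ) = 1 := by
    rw [← Complex.ofReal_mul, inv_mul_cancel₀ (pow_pos hr n).ne', Complex.ofReal_one]
  rw [mul_assoc, ← mul_assoc (((r ^ n)⁻¹ : ℝ) : ℂ), h4, one_mul]

/-- Inverse Fourier transform of the heat kernel. -/
lemma fourierInv_heat {r : ℝ} (hr : 0 < r) (y ξ : Eu n) :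
    𝓕⁻ (dil (gauss n) r y) ξ = Complex.exp (((2 * π * ⟪y, ξ⟫ : ℝ) : ℂ) * Complex.I) *
      ((Real.exp (-π * (r ^ 2 * ‖ξ‖ ^ 2)) : ℝ) : ℂ) := by
  rw [fourierInv_dil _ hr, fourier_gauss, gauss_apply, norm_smul, Real.norm_of_nonneg hr.le,
    mul_pow]

/-- the subordination constant -/
noncomputable def cG (γ : ℝ) : ℝ := π ^ (-γ / 2) * (1 / 2) * Real.Gamma (γ / 2)

lemma cG_pos {γ : ℝ} (hγ : 0 < γ) : 0 < cG γ := by
  unfold cG
  have := Real.Gamma_pos_of_pos (half_pos hγ)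
  positivity

lemma integral_subord {γ : ℝ} (hγ : 0 < γ) {a : ℝ} (ha : 0 < a) :
    ∫ t in Ioi (0 : ℝ), t ^ (γ - 1) * Real.exp (-π * (t ^ 2 * a ^ 2)) = cG γ * a ^ (-γ) := by
  have h := integral_rpow_mul_exp_neg_mul_rpow (p := 2) (q := γ - 1) (b := π * a ^ 2)
    (by norm_num) (by linarith) (by positivity)
  have h1 : ∀ t : ℝ, t ^ (γ - 1) * Real.exp (-(π * a ^ 2) * t ^ (2 : ℝ)) =
      t ^ (γ - 1) * Real.exp (-π * (t ^ 2 * a ^ 2)) := by
    intro t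
    rw [Real.rpow_two]
    congr 2
    ring
  simp_rw [h1] at h
  rw [h]
  unfold cG
  have e1 : γ - 1 + 1 = γ := by ring
  have e2 : (a ^ 2 : ℝ) ^ (-γ / 2) = a ^ (-γ) := by
    rw [← Real.rpow_natCast, ← Real.rpow_mul ha.le]
    congr 1
    push_cast
    ring
  rw [e1, Real.mul_rpow Real.pi_pos.le (by positivity), e2]
  ring

lemma integrableOn_subord {γ : ℝ} (hγ : 0 < γ) {a : ℝ} (ha : 0 < a) :
    IntegrableOn (fun t : ℝ => t ^ (γ - 1) * Real.exp (-π * (t ^ 2 * a ^ 2))) (Ioi 0) := by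
  have h := integrableOn_rpow_mul_exp_neg_mul_sq (b := π * a ^ 2) (by positivity)
    (s := γ - 1) (by linarith)
  refine h.congr_fun ?_ measurableSet_Ioi
  intro t _
  simp only
  congr 2
  ring

/-- Gaussian subordination with Fubini. -/
theorem subord_fubini {γ : ℝ} (hγ : 0 < γ) (hn : 1 ≤ n) {F : Eu n → ℂ}
    (hFm : AEStronglyMeasurable F volume)
    (hF : Integrable (fun ξ => ((‖ξ‖ ^ (-γ) : ℝ) : ℂ) * F ξ)) :
    ((cG γ : ℝ) : ℂ) * ∫ ξ, ((‖ξ‖ ^ (-γ) : ℝ) : ℂ) * F ξ =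
      ∫ t in Ioi (0 : ℝ), ∫ ξ, ((t ^ (γ - 1) : ℝ) : ℂ) *
        (((Real.exp (-π * (t ^ 2 * ‖ξ‖ ^ 2)) : ℝ) : ℂ) * F ξ) := by
  have hae : ∀ᵐ ξ : Eu n, ξ ≠ 0 := by
    have : Nonempty (Fin n) := ⟨⟨0, hn⟩⟩
    have : (volume : Measure (Eu n)) {0} = 0 := measure_singleton 0
    exact compl_mem_ae_iff.mpr this
  set G : ℝ → Eu n → ℂ := fun t ξ => ((t ^ (γ - 1) : ℝ) : ℂ) *
        (((Real.exp (-π * (t ^ 2 * ‖ξ‖ ^ 2)) : ℝ) : ℂ) * F ξ) with hG
  have hGm : AEStronglyMeasurable (Function.uncurry G)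
      ((volume.restrict (Ioi (0 : ℝ))).prod volume) := by
    have m1 : Measurable (fun q : ℝ × Eu n => ((q.1 ^ (γ - 1) : ℝ) : ℂ)) := by fun_prop
    have m2 : Measurable (fun q : ℝ × Eu n =>
        ((Real.exp (-π * (q.1 ^ 2 * ‖q.2‖ ^ 2)) : ℝ) : ℂ)) := by fun_prop
    have m3 : AEStronglyMeasurable (fun q : ℝ × Eu n => F q.2)
        ((volume.restrict (Ioi (0 : ℝ))).prod volume) := hFm.comp_snd
    exact m1.aestronglyMeasurable.mul (m2.aestronglyMeasurable.mul m3)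
  have hGint : Integrable (Function.uncurry G) ((volume.restrict (Ioi (0 : ℝ))).prod volume) := by
    rw [integrable_prod_iff' hGm]
    constructor
    · filter_upwards [hae] with ξ hξ
      have h1 := (integrableOn_subord hγ (norm_pos_iff.mpr hξ)).ofReal (𝕜 := ℂ)
      have h2 := h1.mul_const (F ξ)
      refine h2.congr (Filter.Eventually.of_forall fun t => ?_)
      show ((t ^ (γ - 1) * Real.exp (-π * (t ^ 2 * ‖ξ‖ ^ 2)) : ℝ) : ℂ) * F ξ =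
        ((t ^ (γ - 1) : ℝ) : ℂ) * (((Real.exp (-π * (t ^ 2 * ‖ξ‖ ^ 2)) : ℝ) : ℂ) * F ξ)
      rw [Complex.ofReal_mul, mul_assoc]
    · have h3 : (fun ξ => ∫ t in Ioi (0 : ℝ), ‖Function.uncurry G (t, ξ)‖) =ᵐ[volume]
          fun ξ => cG γ * ‖((‖ξ‖ ^ (-γ) : ℝ) : ℂ) * F ξ‖ := by
        filter_upwards [hae] with ξ hξ
        have h4 : ∫ t in Ioi (0 : ℝ), ‖Function.uncurry G (t, ξ)‖ =
            ∫ t in Ioi (0 : ℝ), (t ^ (γ - 1) * Real.exp (-π * (t ^ 2 * ‖ξ‖ ^ 2))) * ‖F ξ‖ := by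
          apply setIntegral_congr_fun measurableSet_Ioi
          intro t ht
          simp only [Function.uncurry, hG, norm_mul, Complex.norm_real, Real.norm_eq_abs,
            Real.abs_exp]
          rw [abs_of_nonneg (Real.rpow_nonneg (le_of_lt ht) _)]
          ring
        rw [h4, integral_mul_const, integral_subord hγ (norm_pos_iff.mpr hξ), norm_mul,
          Complex.norm_real, Real.norm_of_nonneg (Real.rpow_nonneg (norm_nonneg _) _)]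
        ring
      exact (hF.norm.const_mul (cG γ)).congr h3.symm
  have hswap := integral_integral_swap hGint
  rw [hswap, ← integral_const_mul]
  apply integral_congr_ae
  filter_upwards [hae] with ξ hξ
  have h5 : ∫ t in Ioi (0 : ℝ), G t ξ =
      ((∫ t in Ioi (0 : ℝ), t ^ (γ - 1) * Real.exp (-π * (t ^ 2 * ‖ξ‖ ^ 2)) : ℝ) : ℂ) * F ξ := by
    rw [← integral_complex_ofReal, ← integral_mul_const]
    apply integral_congr_ae
    filter_upwards with t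
    simp only [hG]
    push_cast
    ring
  rw [h5, integral_subord hγ (norm_pos_iff.mpr hξ)]
  push_cast
  ring

/-- Norm form of Gaussian subordination. -/
theorem subord_enorm_le {γ : ℝ} (hγ : 0 < γ) (hn : 1 ≤ n) {F : Eu n → ℂ}
    (hFm : AEStronglyMeasurable F volume)
    (hF : Integrable (fun ξ => ((‖ξ‖ ^ (-γ) : ℝ) : ℂ) * F ξ)) :
    ENNReal.ofReal (cG γ) * ‖∫ ξ, ((‖ξ‖ ^ (-γ) : ℝ) : ℂ) * F ξ‖ₑ ≤
      ∫⁻ t in Ioi (0 : ℝ), ENNReal.ofReal (t ^ (γ - 1)) *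
        ‖∫ ξ, ((Real.exp (-π * (t ^ 2 * ‖ξ‖ ^ 2)) : ℝ) : ℂ) * F ξ‖ₑ := by
  have h := subord_fubini hγ hn hFm hF
  have h1 : ENNReal.ofReal (cG γ) * ‖∫ ξ, ((‖ξ‖ ^ (-γ) : ℝ) : ℂ) * F ξ‖ₑ =
      ‖((cG γ : ℝ) : ℂ) * ∫ ξ, ((‖ξ‖ ^ (-γ) : ℝ) : ℂ) * F ξ‖ₑ := by
    rw [enorm_mul]
    congr 1
    rw [← ofReal_norm, Complex.norm_real, Real.norm_of_nonneg (cG_pos hγ).le]
  rw [h1, h]
  refine (enorm_integral_le_lintegral_enorm _).trans ?_
  apply setLIntegral_mono' measurableSet_Ioi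
  intro t ht
  rw [integral_const_mul, enorm_mul]
  gcongr
  rw [← ofReal_norm, Complex.norm_real,
    Real.norm_of_nonneg (Real.rpow_nonneg (le_of_lt ht) _)]

end Pool.Agent.Work.MP_4ab57e_an
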